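import Pool.Agent.Lib.TWW.Defs
import Pool.Agent.Lib.TWM.A1

/-!
# TANK W, skeleton M: row WM6, the calculus of leading terms
-/

set_option autoImplicit false

open Polynomial Filter Topology

namespace Pool.Agent.TW

open Pool.Agent.H15JM (RVal)
open Pool.Agent.TWM (Gt)

universe u

variable {k Ω : Type u} [Field k] [Field Ω] [Algebra k Ω] {v : RVal Ω}

theorem LT.mul {δ : ℕ → Ω} {φ : ℕ → (Ω ≃ₐ[k] Ω)} (hδ : ∀ i, δ i ≠ 0) {e e' a a' : Ω} {m m' : ℤ}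
    (h : LT v δ φ e a m) (h' : LT v δ φ e' a' m') : LT v δ φ (e * e') (a * a') (m + m') := by
  obtain ⟨ha, hev⟩ := h
  obtain ⟨ha', hev'⟩ := h'
  refine ⟨mul_ne_zero ha ha', ?_⟩
  filter_upwards [hev, hev'] with i h1 h2
  have hv : v (a * δ i ^ m) = v a + m * v (δ i) := by
    rw [v.map_mul ha (zpow_ne_zero _ (hδ i)), v.map_zpow (hδ i)]
  have hv' : v (a' * δ i ^ m') = v a' + m' * v (δ i) := by
    rw [v.map_mul ha' (zpow_ne_zero _ (hδ i)), v.map_zpow (hδ i)]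
  have g2 : v.Ge (v a' + m' * v (δ i)) (φ i e') := by
    have h3 := h2.ge.add (RVal.ge_self (v := v) (a' * δ i ^ m') |>.mono (le_of_eq hv'.symm))
    simpa using h3
  have g1 : v.Ge (v a + m * v (δ i)) (a * δ i ^ m) :=
    RVal.ge_self (v := v) (a * δ i ^ m) |>.mono (le_of_eq hv.symm)
  have e1 : φ i (e * e') - a * a' * δ i ^ (m + m') =
      (φ i e - a * δ i ^ m) * φ i e' + (φ i e' - a' * δ i ^ m') * (a * δ i ^ m) := by
    rw [map_mul, zpow_add₀ (hδ i)]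
    ring
  have e2 : v (a * a') + ((m + m' : ℤ) : ℝ) * v (δ i) =
      (v a + m * v (δ i)) + (v a' + m' * v (δ i)) := by
    rw [v.map_mul ha ha']
    push_cast
    ring
  rw [e1, e2]
  refine (h1.mul_ge g2).add ?_
  have h4 := h2.mul_ge g1
  rwa [add_comm] at h4

theorem LT.inv {δ : ℕ → Ω} {φ : ℕ → (Ω ≃ₐ[k] Ω)} (hδ : ∀ i, δ i ≠ 0) {e a : Ω} {m : ℤ}
    (h : LT v δ φ e a m) : LT v δ φ e⁻¹ a⁻¹ (-m) := by
  obtain ⟨ha, hev⟩ := h
  refine ⟨inv_ne_zero ha, ?_⟩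
  filter_upwards [hev] with i h1
  have h0 : a * δ i ^ m ≠ 0 := mul_ne_zero ha (zpow_ne_zero _ (hδ i))
  have hv : v (a * δ i ^ m) = v a + m * v (δ i) := by
    rw [v.map_mul ha (zpow_ne_zero _ (hδ i)), v.map_zpow (hδ i)]
  obtain ⟨hne, hval⟩ := Gt.val_eq h0 (y := φ i e) (by rw [hv]; exact h1.sub_comm')
  have e1 : φ i e⁻¹ - a⁻¹ * δ i ^ (-m) =
      (a * δ i ^ m - φ i e) * ((φ i e)⁻¹ * (a * δ i ^ m)⁻¹) := by
    rw [map_inv₀, zpow_neg, ← mul_inv, sub_mul]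
    have h5 : a * δ i ^ m * ((φ i e)⁻¹ * (a * δ i ^ m)⁻¹) = (φ i e)⁻¹ := by
      rw [mul_left_comm, mul_inv_cancel₀ h0, mul_one]
    have h6 : φ i e * ((φ i e)⁻¹ * (a * δ i ^ m)⁻¹) = (a * δ i ^ m)⁻¹ := by
      rw [← mul_assoc, mul_inv_cancel₀ hne, one_mul]
    rw [h5, h6]
  have g1 : v.Ge (-(v a + m * v (δ i)) + -(v a + m * v (δ i))) ((φ i e)⁻¹ * (a * δ i ^ m)⁻¹) := by
    refine RVal.Ge.mul (RVal.Ge.of_le ?_) (RVal.Ge.of_le ?_)
    · rw [v.map_inv hne, hval, hv]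
    · rw [v.map_inv h0, hv]
  have e2 : v a⁻¹ + ((-m : ℤ) : ℝ) * v (δ i) =
      (v a + m * v (δ i)) + (-(v a + m * v (δ i)) + -(v a + m * v (δ i))) := by
    rw [v.map_inv ha]
    push_cast
    ring
  rw [e1, e2]
  exact h1.sub_comm'.mul_ge g1

/-- the minimal monomial -/
theorem lt_poly {δ : ℕ → Ω} {ρ : ℝ} (hδ : ∀ i, δ i ≠ 0)
    (hlim : Tendsto (fun i => v (δ i)) atTop (𝓝 ρ))
    (hirr : ∀ (m : ℤ) (f : Ω), m ≠ 0 → f ≠ 0 → v f ≠ m * ρ) {F : Polynomial Ω} (hF : F ≠ 0) :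
    ∃ m : ℕ, F.coeff m ≠ 0 ∧ ∀ᶠ i in atTop,
      Gt v (v (F.coeff m) + m * v (δ i)) (F.eval (δ i) - F.coeff m * δ i ^ m) := by
  classical
  obtain ⟨m, hm, hmin⟩ := F.support.exists_min_image (fun j => v (F.coeff j) + j * ρ)
    (Polynomial.support_nonempty.mpr hF)
  have hm0 : F.coeff m ≠ 0 := mem_support_iff.mp hm
  refine ⟨m, hm0, ?_⟩
  have hlt : ∀ j ∈ F.support.erase m, v (F.coeff m) + m * ρ < v (F.coeff j) + j * ρ := by
    intro j hj
    obtain ⟨hjm, hj⟩ := Finset.mem_erase.mp hj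
    have hj0 : F.coeff j ≠ 0 := mem_support_iff.mp hj
    refine lt_of_le_of_ne (hmin j hj) fun heq => ?_
    refine hirr ((j : ℤ) - m) (F.coeff m / F.coeff j) ?_ (div_ne_zero hm0 hj0) ?_
    · exact sub_ne_zero.mpr (by exact_mod_cast hjm)
    · rw [v.map_div hm0 hj0]
      push_cast
      linarith
  have hev : ∀ᶠ i in atTop, ∀ j ∈ F.support.erase m,
      v (F.coeff m) + m * v (δ i) < v (F.coeff j) + j * v (δ i) := by
    rw [Filter.eventually_all_finset]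
    intro j hj
    have t1 : Tendsto (fun i => v (F.coeff m) + m * v (δ i)) atTop
        (𝓝 (v (F.coeff m) + m * ρ)) := (hlim.const_mul _).const_add _
    have t2 : Tendsto (fun i => v (F.coeff j) + j * v (δ i)) atTop
        (𝓝 (v (F.coeff j) + j * ρ)) := (hlim.const_mul _).const_add _
    exact t1.eventually_lt t2 (hlt j hj)
  filter_upwards [hev] with i hi
  have e1 : F.eval (δ i) - F.coeff m * δ i ^ m =
      ∑ j ∈ F.support.erase m, F.coeff j * δ i ^ j := by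
    rw [Polynomial.eval_eq_sum, Polynomial.sum_def, ← Finset.add_sum_erase _ _ hm]
    ring
  rw [e1]
  refine Gt.sum _ _ fun j hj => ?_
  intro _
  obtain ⟨-, hj'⟩ := Finset.mem_erase.mp hj
  rw [v.map_mul (mem_support_iff.mp hj') (pow_ne_zero _ (hδ i)), v.map_pow (hδ i)]
  exact hi j hj

end Pool.Agent.TW
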