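import Pool.Agent.Lib.TWW.WM12
import Pool.Agent.Lib.TWW.WM6
import Mathlib.RingTheory.Localization.FractionRing
import Mathlib.RingTheory.Algebraic.Integral

/-!
# TANK W, skeleton M, row WM13: leading terms of sequences algebraic over `Ω(δ)`

`GG`: the ring of the germs of sequences in `Ω`; `th δ`: `Ω(T) → GG`, `T ↦ δ`.  A sequence which is
nowhere zero, algebraic over `Ω(δ)` and a limit of rational functions of `δ` has a leading term.
-/

set_option autoImplicit false

open Polynomial Filter Topology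

namespace Pool.Agent.TW

open Pool.Agent.H15JM (RVal)
open Pool.Agent.D2 (Ctx0)
open Pool.Agent.TWM (Gt)

universe u

namespace WM13

variable {Ω : Type u} [Field Ω] {v : RVal Ω}

/-- The leading term of the sequence `f` is `a (δ i)^m`. -/
def LTs (v : RVal Ω) (δ : ℕ → Ω) (f : ℕ → Ω) (a : Ω) (m : ℤ) : Prop :=
  a ≠ 0 ∧ ∀ᶠ i in atTop, Gt v (v a + m * v (δ i)) (f i - a * δ i ^ m)

variable {δ : ℕ → Ω}

theorem LTs.val (hδ : ∀ i, δ i ≠ 0) {f : ℕ → Ω} {a : Ω} {m : ℤ} (h : LTs v δ f a m) :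
    ∀ᶠ i in atTop, f i ≠ 0 ∧ v (f i) = v a + m * v (δ i) := by
  filter_upwards [h.2] with i hi
  have h0 : a * δ i ^ m ≠ 0 := mul_ne_zero h.1 (zpow_ne_zero _ (hδ i))
  have hv : v (a * δ i ^ m) = v a + m * v (δ i) := by
    rw [v.map_mul h.1 (zpow_ne_zero _ (hδ i)), v.map_zpow (hδ i)]
  rw [← hv] at hi ⊢
  exact TWM.Gt.val_eq h0 hi.sub_comm'

theorem LTs.congr {f g : ℕ → Ω} {a : Ω} {m : ℤ} (h : LTs v δ f a m)
    (hfg : ∀ᶠ i in atTop, f i = g i) : LTs v δ g a m := by
  refine ⟨h.1, ?_⟩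
  filter_upwards [h.2, hfg] with i h1 h2
  rwa [← h2]

theorem LTs.mul (hδ : ∀ i, δ i ≠ 0) {f f' : ℕ → Ω} {a a' : Ω} {m m' : ℤ}
    (h : LTs v δ f a m) (h' : LTs v δ f' a' m') :
    LTs v δ (fun i => f i * f' i) (a * a') (m + m') := by
  refine ⟨mul_ne_zero h.1 h'.1, ?_⟩
  filter_upwards [h.2, h'.2, h.val hδ] with i h1 h2 h3
  have e1 : f i * f' i - a * a' * δ i ^ (m + m') =
      f i * (f' i - a' * δ i ^ m') + (f i - a * δ i ^ m) * (a' * δ i ^ m') := by
    rw [zpow_add₀ (hδ i)]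
    ring
  have hv' : v (a' * δ i ^ m') = v a' + m' * v (δ i) := by
    rw [v.map_mul h'.1 (zpow_ne_zero _ (hδ i)), v.map_zpow (hδ i)]
  rw [e1, v.map_mul h.1 h'.1]
  refine TWM.Gt.add ?_ ?_
  · have h4 := h2.mul_ge (RVal.ge_self (v := v) (f i))
    rw [h3.2] at h4
    rw [mul_comm (f i)]
    exact h4.mono (by push_cast; linarith)
  · have h4 := h1.mul_ge (RVal.ge_self (v := v) (a' * δ i ^ m'))
    rw [hv'] at h4
    exact h4.mono (by push_cast; linarith)

theorem LTs.inv (hδ : ∀ i, δ i ≠ 0) {f : ℕ → Ω} {a : Ω} {m : ℤ} (h : LTs v δ f a m) :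
    LTs v δ (fun i => (f i)⁻¹) a⁻¹ (-m) := by
  refine ⟨inv_ne_zero h.1, ?_⟩
  filter_upwards [h.2, h.val hδ] with i h1 h2
  have h3 : δ i ^ m ≠ 0 := zpow_ne_zero _ (hδ i)
  have hv' : v (a * δ i ^ m) = v a + m * v (δ i) := by
    rw [v.map_mul h.1 h3, v.map_zpow (hδ i)]
  have e1 : (f i)⁻¹ - a⁻¹ * δ i ^ (-m) =
      -(f i - a * δ i ^ m) * ((f i)⁻¹ * (a * δ i ^ m)⁻¹) := by
    rw [zpow_neg]
    have h4 := h2.1
    have h5 := h.1
    field_simp
    ring
  rw [e1]
  have h6 := h1.neg.mul_ge (RVal.ge_self (v := v) ((f i)⁻¹ * (a * δ i ^ m)⁻¹))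
  refine h6.mono ?_
  rw [v.map_mul (inv_ne_zero h2.1) (inv_ne_zero (mul_ne_zero h.1 h3)), v.map_inv h2.1,
    v.map_inv (mul_ne_zero h.1 h3), h2.2, hv', v.map_inv h.1]
  push_cast
  linarith

/-- The value of a sequence with a leading term is bounded. -/
theorem LTs.bound (hδ : ∀ i, δ i ≠ 0) {ρ : ℝ} (hlim : Tendsto (fun i => v (δ i)) atTop (𝓝 ρ))
    {f : ℕ → Ω} {a : Ω} {m : ℤ} (h : LTs v δ f a m) :
    ∃ B : ℝ, ∀ᶠ i in atTop, f i ≠ 0 ∧ |v (f i)| ≤ B := by
  have h2 : Tendsto (fun i => v a + m * v (δ i)) atTop (𝓝 (v a + m * ρ)) :=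
    tendsto_const_nhds.add (hlim.const_mul _)
  refine ⟨|v a + m * ρ| + 1, ?_⟩
  have h3 := (h2.abs.eventually_le_const (lt_add_one _))
  filter_upwards [h3, h.val hδ] with i h4 h5
  refine ⟨h5.1, ?_⟩
  rw [h5.2]
  exact h4

/-! ### Germs -/

/-- The sequences which are eventually zero. -/
def ZI (Ω : Type u) [Field Ω] : Ideal (ℕ → Ω) where
  carrier := {f | ∀ᶠ i in atTop, f i = 0}
  add_mem' := fun {f g} hf hg => by
    filter_upwards [hf, hg] with i h1 h2
    rw [Pi.add_apply, h1, h2, add_zero]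
  zero_mem' := Eventually.of_forall fun _ => rfl
  smul_mem' := fun c f hf => by
    filter_upwards [hf] with i h1
    rw [smul_eq_mul, Pi.mul_apply, h1, mul_zero]

/-- The ring of the germs of sequences. -/
abbrev GG (Ω : Type u) [Field Ω] : Type u := (ℕ → Ω) ⧸ ZI Ω

/-- The germ of a sequence. -/
noncomputable abbrev mkG (Ω : Type u) [Field Ω] : (ℕ → Ω) →+* GG Ω := Ideal.Quotient.mk (ZI Ω)

theorem mkG_eq {f g : ℕ → Ω} : mkG Ω f = mkG Ω g ↔ ∀ᶠ i in atTop, f i = g i := by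
  rw [Ideal.Quotient.mk_eq_mk_iff_sub_mem]
  change (∀ᶠ i in atTop, (f - g) i = 0) ↔ _
  simp only [Pi.sub_apply, sub_eq_zero]

theorem isUnit_mkG {f : ℕ → Ω} (hf : ∀ᶠ i in atTop, f i ≠ 0) : IsUnit (mkG Ω f) := by
  refine IsUnit.of_mul_eq_one (mkG Ω fun i => (f i)⁻¹) ?_
  rw [← map_mul, ← map_one (mkG Ω), mkG_eq]
  filter_upwards [hf] with i hi
  rw [Pi.mul_apply, mul_inv_cancel₀ hi, Pi.one_apply]

/-- The evaluation at `δ`. -/
noncomputable def evG (δ : ℕ → Ω) : Polynomial Ω →+* GG Ω :=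
  (mkG Ω).comp (RingHom.pi fun i => Polynomial.evalRingHom (δ i))

theorem evG_apply (δ : ℕ → Ω) (F : Polynomial Ω) : evG δ F = mkG Ω fun i => F.eval (δ i) := rfl

/-- The assumptions on the sequence `δ`. -/
structure Sq (v : RVal Ω) (δ : ℕ → Ω) (ρ : ℝ) : Prop where
  ne : ∀ i, δ i ≠ 0
  lim : Tendsto (fun i => v (δ i)) atTop (𝓝 ρ)
  irr : ∀ (m : ℤ) (f : Ω), m ≠ 0 → f ≠ 0 → v f ≠ m * ρ

variable {ρ : ℝ}

theorem Sq.poly (h : Sq v δ ρ) {F : Polynomial Ω} (hF : F ≠ 0) :
    ∃ a m, LTs v δ (fun i => F.eval (δ i)) a m := by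
  obtain ⟨m, h1, h2⟩ := lt_poly h.ne h.lim h.irr hF
  refine ⟨F.coeff m, m, h1, ?_⟩
  filter_upwards [h2] with i hi
  rw [zpow_natCast]
  exact_mod_cast hi

theorem Sq.isUnit (h : Sq v δ ρ) (F : nonZeroDivisors (Polynomial Ω)) : IsUnit (evG δ F) := by
  obtain ⟨a, m, h1⟩ := h.poly (nonZeroDivisors.ne_zero F.2)
  exact isUnit_mkG ((h1.val h.ne).mono fun i hi => hi.1)

/-- The field `Ω(T)` acts on the germs. -/
noncomputable def th (h : Sq v δ ρ) : FractionRing (Polynomial Ω) →+* GG Ω :=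
  IsLocalization.lift (M := nonZeroDivisors (Polynomial Ω)) (g := evG δ) h.isUnit

theorem th_algebraMap (h : Sq v δ ρ) (F : Polynomial Ω) :
    th h (algebraMap (Polynomial Ω) (FractionRing (Polynomial Ω)) F) = evG δ F :=
  IsLocalization.lift_eq _ _

/-- The germs of the rational functions of `δ`. -/
theorem th_rep (h : Sq v δ ρ) {c : FractionRing (Polynomial Ω)} (hc : c ≠ 0) :
    ∃ (f : ℕ → Ω) (a : Ω) (m : ℤ), th h c = mkG Ω f ∧ LTs v δ f a m := by
  obtain ⟨F, G, hG, rfl⟩ := IsFractionRing.div_surjective (A := Polynomial Ω) c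
  have hG0 : G ≠ 0 := nonZeroDivisors.ne_zero hG
  have hF0 : F ≠ 0 := by
    rintro rfl
    exact hc (by rw [map_zero, zero_div])
  obtain ⟨a, m, h1⟩ := h.poly hF0
  obtain ⟨b, m', h2⟩ := h.poly hG0
  refine ⟨fun i => F.eval (δ i) * (G.eval (δ i))⁻¹, a * b⁻¹, m + -m', ?_,
    h1.mul h.ne (h2.inv h.ne)⟩
  have hu : IsUnit (evG δ G) := h.isUnit ⟨G, hG⟩
  have e1 : th h (algebraMap (Polynomial Ω) (FractionRing (Polynomial Ω)) F / algebraMap (Polynomial Ω) (FractionRing (Polynomial Ω)) G) *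
      evG δ G = evG δ F := by
    rw [← th_algebraMap h G, ← map_mul, div_mul_cancel₀, th_algebraMap]
    exact IsFractionRing.to_map_ne_zero_of_mem_nonZeroDivisors hG
  refine hu.mul_right_cancel ?_
  rw [e1, evG_apply, evG_apply, ← map_mul, mkG_eq]
  filter_upwards [h2.val h.ne] with i hi
  rw [Pi.mul_apply, mul_assoc, inv_mul_cancel₀ hi.1, mul_one]

/-- **A nowhere vanishing sequence which is algebraic over `Ω(δ)` does not tend to `0`.** -/
theorem alg_bound (h : Sq v δ ρ) {x : ℕ → Ω} (hx : ∀ i, x i ≠ 0)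
    (halg : (th h).IsIntegralElem (mkG Ω x)) : ∃ C : ℝ, ∀ᶠ i in atTop, v (x i) ≤ C := by
  classical
  -- an equation with constant term
  have hux : IsUnit (mkG Ω x) := isUnit_mkG (Eventually.of_forall hx)
  obtain ⟨R, hR0, hRx⟩ : ∃ R : Polynomial (FractionRing (Polynomial Ω)), R.coeff 0 ≠ 0 ∧
      R.eval₂ (th h) (mkG Ω x) = 0 := by
    obtain ⟨R, hRm, hRx⟩ := halg
    have key : ∀ (d : ℕ) (R : Polynomial (FractionRing (Polynomial Ω))), R.natDegree ≤ d → R ≠ 0 →
        R.eval₂ (th h) (mkG Ω x) = 0 → ∃ R : Polynomial (FractionRing (Polynomial Ω)), R.coeff 0 ≠ 0 ∧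
          R.eval₂ (th h) (mkG Ω x) = 0 := by
      intro d
      induction d with
      | zero =>
        intro R hd hR h1
        refine ⟨R, ?_, h1⟩
        rw [eq_C_of_natDegree_le_zero hd] at hR
        intro h0
        exact hR (by rw [h0, C_0])
      | succ d ih =>
        intro R hd hR h1
        by_cases h0 : R.coeff 0 = 0
        · have e1 : R = X * divX R := by
            conv_lhs => rw [← X_mul_divX_add R]
            rw [h0, C_0, add_zero]
          refine ih (divX R) ?_ ?_ ?_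
          · rw [natDegree_divX_eq_natDegree_tsub_one]
            omega
          · intro h2
            rw [h2, mul_zero] at e1
            exact hR e1
          · rw [e1, eval₂_mul, eval₂_X] at h1
            exact (hux.mul_right_eq_zero).1 h1
        · exact ⟨R, h0, h1⟩
    exact key _ R le_rfl hRm.ne_zero hRx
  -- representatives of the coefficients
  have hrep : ∀ l : ℕ, ∃ f : ℕ → Ω, th h (R.coeff l) = mkG Ω f ∧
      ((∀ i, f i = 0) ∨ ∃ B : ℝ, ∀ᶠ i in atTop, f i ≠ 0 ∧ |v (f i)| ≤ B) ∧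
      (R.coeff l ≠ 0 → ∃ B : ℝ, ∀ᶠ i in atTop, f i ≠ 0 ∧ |v (f i)| ≤ B) := by
    intro l
    by_cases h0 : R.coeff l = 0
    · refine ⟨fun _ => 0, ?_, Or.inl fun _ => rfl, fun h1 => absurd h0 h1⟩
      rw [h0, map_zero]
      exact (map_zero (mkG Ω)).symm
    · obtain ⟨f, a, m, h1, h2⟩ := th_rep h h0
      obtain ⟨B, hB⟩ := h2.bound h.ne h.lim
      exact ⟨f, h1, Or.inr ⟨B, hB⟩, fun _ => ⟨B, hB⟩⟩
  choose f hf hf1 hf2 using hrep
  -- a common bound
  have hB : ∃ B : ℝ, 0 ≤ B ∧ ∀ᶠ i in atTop, ∀ l ∈ Finset.range (R.natDegree + 1),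
      f l i ≠ 0 → |v (f l i)| ≤ B := by
    have key : ∀ S : Finset ℕ, ∃ B : ℝ, 0 ≤ B ∧ ∀ᶠ i in atTop, ∀ l ∈ S,
        f l i ≠ 0 → |v (f l i)| ≤ B := by
      intro S
      induction S using Finset.induction_on with
      | empty =>
        exact ⟨0, le_rfl, Eventually.of_forall fun i l hl => absurd hl (Finset.notMem_empty l)⟩
      | insert a S ha ih =>
        obtain ⟨B, hB0, hB⟩ := ih
        rcases hf1 a with h1 | ⟨B', hB'⟩
        · refine ⟨B, hB0, hB.mono fun i hi l hl hl0 => ?_⟩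
          rcases Finset.mem_insert.1 hl with rfl | hl
          · exact absurd (h1 i) hl0
          · exact hi l hl hl0
        · refine ⟨max B B', hB0.trans (le_max_left _ _), ?_⟩
          filter_upwards [hB, hB'] with i h1 h2 l hl hl0
          rcases Finset.mem_insert.1 hl with rfl | hl
          · exact h2.2.trans (le_max_right _ _)
          · exact (h1 l hl hl0).trans (le_max_left _ _)
    exact key _
  obtain ⟨B, hB0, hB⟩ := hB
  -- the equation
  have heq : ∀ᶠ i in atTop, ∑ l ∈ Finset.range (R.natDegree + 1), f l i * x i ^ l = 0 := by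
    have h1 : mkG Ω (fun i => ∑ l ∈ Finset.range (R.natDegree + 1), f l i * x i ^ l) =
        mkG Ω 0 := by
      rw [map_zero, ← hRx, eval₂_eq_sum_range]
      have h2 : (fun i => ∑ l ∈ Finset.range (R.natDegree + 1), f l i * x i ^ l) =
          ∑ l ∈ Finset.range (R.natDegree + 1), f l * x ^ l := by
        funext i
        rw [Finset.sum_apply]
        rfl
      rw [h2, map_sum]
      refine Finset.sum_congr rfl fun l _ => ?_
      rw [map_mul, map_pow, hf l]
    exact mkG_eq.1 h1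
  obtain ⟨B₀, hB₀⟩ := hf2 0 hR0
  refine ⟨B + B₀ + 1, ?_⟩
  filter_upwards [hB, heq, hB₀] with i h1 h2 h3
  by_contra hcon
  push Not at hcon
  rw [Finset.sum_range_succ', pow_zero, mul_one] at h2
  have h4 : f 0 i = -∑ l ∈ Finset.range R.natDegree, f (l + 1) i * x i ^ (l + 1) := by
    linear_combination h2
  have h5 : v.Ge (B₀ + 1) (f 0 i) := by
    rw [h4]
    refine RVal.Ge.neg (RVal.Ge.sum _ _ fun l hl => ?_)
    intro h6
    have h7 : f (l + 1) i ≠ 0 := left_ne_zero_of_mul h6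
    rw [v.map_mul h7 (pow_ne_zero _ (hx i)), v.map_pow (hx i)]
    have h8 := h1 (l + 1) (Finset.mem_range.2 (by have := Finset.mem_range.1 hl; omega)) h7
    have h9 := (abs_le.1 h8).1
    have hB₀0 : 0 ≤ B₀ := (abs_nonneg _).trans h3.2
    have h10 : (0 : ℝ) ≤ l := Nat.cast_nonneg l
    push_cast
    nlinarith
  have h6 := h5 h3.1
  have h7 := (abs_le.1 h3.2).2
  linarith

/-- `x` is a limit of rational functions of `δ`, of value `≥ 0`. -/
def App (h : Sq v δ ρ) (x : ℕ → Ω) : Prop :=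
  (∀ᶠ i in atTop, v.Ge 0 (x i)) ∧ ∀ M : ℝ, ∃ (c : FractionRing (Polynomial Ω)) (f : ℕ → Ω),
    th h c = mkG Ω f ∧ ∀ᶠ i in atTop, v.Ge M (x i - f i)

theorem App.add {h : Sq v δ ρ} {x y : ℕ → Ω} (hx : App h x) (hy : App h y) :
    App h (fun i => x i + y i) := by
  refine ⟨?_, fun M => ?_⟩
  · filter_upwards [hx.1, hy.1] with i h1 h2
    exact h1.add h2
  · obtain ⟨c, f, h1, h2⟩ := hx.2 M
    obtain ⟨c', f', h1', h2'⟩ := hy.2 M
    refine ⟨c + c', f + f', by rw [map_add, map_add, h1, h1'], ?_⟩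
    filter_upwards [h2, h2'] with i h3 h4
    rw [Pi.add_apply, add_sub_add_comm]
    exact h3.add h4

theorem App.mul {h : Sq v δ ρ} {x y : ℕ → Ω} (hx : App h x) (hy : App h y) :
    App h (fun i => x i * y i) := by
  refine ⟨?_, fun M => ?_⟩
  · filter_upwards [hx.1, hy.1] with i h1 h2
    have := h1.mul h2
    rwa [add_zero] at this
  · obtain ⟨c, f, h1, h2⟩ := hx.2 (max M 0)
    obtain ⟨c', f', h1', h2'⟩ := hy.2 (max M 0)
    refine ⟨c * c', f * f', by rw [map_mul, map_mul, h1, h1'], ?_⟩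
    filter_upwards [h2, h2', hx.1, hy.1] with i h3 h4 h5 h6
    have h7 : v.Ge 0 (f' i) := by
      have h8 := h6.sub (h4.mono (le_max_right M 0))
      rwa [sub_sub_cancel] at h8
    have e : x i * y i - (f * f') i = (y i - f' i) * x i + (x i - f i) * f' i := by
      rw [Pi.mul_apply]
      ring
    rw [e]
    refine RVal.Ge.add ?_ ?_
    · have h8 := h4.mul h5
      rw [add_zero] at h8
      exact h8.mono (le_max_left M 0)
    · have h8 := h3.mul h7
      rw [add_zero] at h8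
      exact h8.mono (le_max_left M 0)

theorem th_const (h : Sq v δ ρ) (c : Ω) :
    th h (algebraMap (Polynomial Ω) (FractionRing (Polynomial Ω)) (C c)) = mkG Ω fun _ => c := by
  rw [th_algebraMap, evG_apply]
  congr 1
  funext i
  rw [eval_C]

theorem App.const (h : Sq v δ ρ) {c : Ω} (hc : v.Ge 0 c) : App h (fun _ => c) := by
  refine ⟨Eventually.of_forall fun _ => hc, fun M => ⟨_, _, th_const h c, ?_⟩⟩
  refine Eventually.of_forall fun i => ?_
  rw [sub_self]
  exact RVal.Ge.zero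

/-- The leading term of a sequence. -/
theorem exists_lts {h : Sq v δ ρ} {x : ℕ → Ω} (hx : ∀ i, x i ≠ 0)
    (halg : (th h).IsIntegralElem (mkG Ω x)) (happ : App h x) : ∃ a m, LTs v δ x a m := by
  obtain ⟨C, hC⟩ := alg_bound h hx halg
  obtain ⟨c, f, h1, h2⟩ := happ.2 (C + 1)
  have h3 : ∀ᶠ i in atTop, f i ≠ 0 ∧ v (f i) ≤ C := by
    filter_upwards [h2, hC] with i h4 h5
    have h6 : Gt v (v (x i)) (x i - f i) := TWM.Gt.of_ge h4 (by linarith)
    have h7 := TWM.Gt.val_eq (hx i) h6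
    exact ⟨h7.1, h7.2.trans_le h5⟩
  have hc : c ≠ 0 := by
    rintro rfl
    rw [map_zero] at h1
    have h4 : ∀ᶠ i in atTop, (0 : ℕ → Ω) i = f i := mkG_eq.1 (by rw [map_zero, h1])
    obtain ⟨i, hi, hi'⟩ := (h3.and h4).exists
    exact hi.1 hi'.symm
  obtain ⟨f', a, m, h4, h5⟩ := th_rep h hc
  have h6 : ∀ᶠ i in atTop, f' i = f i := mkG_eq.1 (by rw [← h4, h1])
  have h7 := h5.congr h6
  refine ⟨a, m, h7.1, ?_⟩
  filter_upwards [h7.2, h7.val h.ne, h3, h2] with i h8 h9 h10 h11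
  have e : x i - a * δ i ^ m = (x i - f i) + (f i - a * δ i ^ m) := by ring
  rw [e]
  refine TWM.Gt.add (TWM.Gt.of_ge h11 ?_) h8
  rw [← h9.2]
  linarith [h10.2]

/-- An algebraic equation with coefficients in `Ω[δ]`. -/
theorem isIntegralElem_of_root (h : Sq v δ ρ) {x : ℕ → Ω} {Q : Polynomial (Polynomial Ω)}
    (hQ : Q ≠ 0)
    (hx : ∀ᶠ i in atTop, (Q.map (Polynomial.evalRingHom (δ i))).eval (x i) = 0) :
    (th h).IsIntegralElem (mkG Ω x) := by
  obtain ⟨R, hR⟩ : ∃ R, R = Q.map (algebraMap (Polynomial Ω) (FractionRing (Polynomial Ω))) :=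
    ⟨_, rfl⟩
  have hR0 : R ≠ 0 := by
    rw [hR]
    exact (Polynomial.map_ne_zero_iff (IsFractionRing.injective _ _)).2 hQ
  have hRx : R.eval₂ (th h) (mkG Ω x) = 0 := by
    rw [hR, eval₂_map]
    have e1 : (th h).comp (algebraMap (Polynomial Ω) (FractionRing (Polynomial Ω))) = evG δ :=
      RingHom.ext fun F => th_algebraMap h F
    rw [e1, eval₂_eq_sum_range]
    have e2 : ∑ l ∈ Finset.range (Q.natDegree + 1), evG δ (Q.coeff l) * mkG Ω x ^ l =
        mkG Ω (fun i => (Q.map (Polynomial.evalRingHom (δ i))).eval (x i)) := by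
      have e3 : (fun i => (Q.map (Polynomial.evalRingHom (δ i))).eval (x i)) =
          ∑ l ∈ Finset.range (Q.natDegree + 1), (fun i => (Q.coeff l).eval (δ i)) * x ^ l := by
        funext i
        rw [eval_map, eval₂_eq_sum_range, Finset.sum_apply]
        rfl
      rw [e3, map_sum]
      refine Finset.sum_congr rfl fun l _ => ?_
      rw [map_mul, map_pow, evG_apply]
    rw [e2, ← map_zero (mkG Ω), mkG_eq]
    exact hx
  have hl : R.leadingCoeff ≠ 0 := leadingCoeff_ne_zero.2 hR0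
  refine ⟨C R.leadingCoeff⁻¹ * R, monic_C_mul_of_mul_leadingCoeff_eq_one (inv_mul_cancel₀ hl), ?_⟩
  rw [eval₂_mul, hRx, mul_zero]

section Coord

variable {k : Type u} [Field k] [Algebra k Ω]

/-- The leading terms of all the polynomials in `s'`. -/
theorem ltp_of_approx (h0 : Ctx0 k v) (h : Sq v δ ρ) {n : ℕ} {s' : ℕ → Fin n → Ω}
    (hai : ∀ i, AlgebraicIndependent k (s' i))
    (halg : ∀ j, (th h).IsIntegralElem (mkG Ω fun i => s' i j))
    (happ : ∀ j, App h (fun i => s' i j)) (P : MvPolynomial (Fin n) k) (hP : P ≠ 0) :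
    ∃ a m, WM12.LTp v δ s' P a m := by
  have hne : ∀ i, MvPolynomial.aeval (s' i) P ≠ 0 := by
    intro i h1
    exact hP ((hai i).eq_zero_of_aeval_eq_zero P h1)
  have h1 : (th h).IsIntegralElem (mkG Ω fun i => MvPolynomial.aeval (s' i) P) ∧
      App h (fun i => MvPolynomial.aeval (s' i) P) := by
    clear hne hP
    induction P using MvPolynomial.induction_on with
    | C c =>
      have e : (fun i => MvPolynomial.aeval (s' i) (MvPolynomial.C c : MvPolynomial (Fin n) k)) =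
          fun _ => algebraMap k Ω c := by
        funext i
        rw [MvPolynomial.aeval_C]
      rw [e]
      refine ⟨?_, App.const h (h0.ge c)⟩
      rw [← th_const h]
      exact RingHom.isIntegralElem_map _
    | add P Q hP hQ =>
      have e : (fun i => MvPolynomial.aeval (s' i) (P + Q)) =
          fun i => MvPolynomial.aeval (s' i) P + MvPolynomial.aeval (s' i) Q := by
        funext i
        rw [map_add]
      rw [e]
      refine ⟨?_, hP.2.add hQ.2⟩
      have e2 : mkG Ω (fun i => MvPolynomial.aeval (s' i) P + MvPolynomial.aeval (s' i) Q) =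
          mkG Ω (fun i => MvPolynomial.aeval (s' i) P) +
          mkG Ω (fun i => MvPolynomial.aeval (s' i) Q) := by
        rw [← map_add]
        rfl
      rw [e2]
      exact RingHom.IsIntegralElem.add _ hP.1 hQ.1
    | mul_X P j hP =>
      have e : (fun i => MvPolynomial.aeval (s' i) (P * MvPolynomial.X j)) =
          fun i => MvPolynomial.aeval (s' i) P * s' i j := by
        funext i
        rw [map_mul, MvPolynomial.aeval_X]
      rw [e]
      refine ⟨?_, hP.2.mul (happ j)⟩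
      have e2 : mkG Ω (fun i => MvPolynomial.aeval (s' i) P * s' i j) =
          mkG Ω (fun i => MvPolynomial.aeval (s' i) P) * mkG Ω (fun i => s' i j) := by
        rw [← map_mul]
        rfl
      rw [e2]
      exact RingHom.IsIntegralElem.mul _ hP.1 (halg j)
  exact exists_lts hne h1.1 h1.2

end Coord

end WM13

end Pool.Agent.TW
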