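import Pool.Agent.Lib.TWR.Defs
import Pool.Agent.Lib.TWQ.Defs
import Pool.Agent.Lib.TW.EDefs
import Pool.Agent.Lib.LU2G.Real
import Pool.Agent.Lib.TWM.Defs

/-!
# TANK W, skeleton M: definitions (`LT`, `Mot`, `MobQ0`)
-/

set_option autoImplicit false

open Polynomial Filter Topology

namespace Pool.Agent.TW

open Pool.Agent.H15JM (RVal)
open Pool.Agent.LU1 (VPos adj)
open Pool.Agent.LUC (Cl LUs lv)
open Pool.Agent.D2 (Ctx0)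
open Pool.Agent.D2P (hen)
open Pool.Agent.TWM (Gt)

universe u

variable {k Ω : Type u} [Field k] [Field Ω] [Algebra k Ω] {v : RVal Ω} {r : ℕ}

/-- The leading term of `φ i e` is `a (δ i)^m`. -/
def LT (v : RVal Ω) (δ : ℕ → Ω) (φ : ℕ → (Ω ≃ₐ[k] Ω)) (e a : Ω) (m : ℤ) : Prop :=
  a ≠ 0 ∧ ∀ᶠ i in atTop, Gt v (v a + m * v (δ i)) (φ i e - a * δ i ^ m)

/-- A family of motions of `E`, with parameter `δ i`. -/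
structure Mot (v : RVal Ω) (E : IntermediateField k Ω) (φ : ℕ → (Ω ≃ₐ[k] Ω)) (δ : ℕ → Ω)
    (ρ : ℝ) : Prop where
  ne : ∀ i, δ i ≠ 0
  lim : Tendsto (fun i => v (δ i)) atTop (𝓝 ρ)
  irr : ∀ (m : ℤ) (f : Ω), m ≠ 0 → f ≠ 0 → v f ≠ m * ρ
  lt : ∀ e ∈ E, e ≠ 0 → ∃ a m, LT v δ φ e a m
  moves : ∃ e ∈ E, e ≠ 0 ∧ ∃ a m, m ≠ 0 ∧ LT v δ φ e a m
  full : ∀ g : Ω, g ≠ 0 → ∃ m : ℕ, 0 < m ∧ ∃ e ∈ E, e ≠ 0 ∧ LT v δ φ e e 0 ∧ v e = m * v g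
  hen_eq : ∀ i, hen v (E.map (φ i : Ω →ₐ[k] Ω)) = hen v E

/-- The critical step is henselian rational, or it has motions. -/
def MobQ0 (p : ℕ) (v : RVal Ω) (k : Type u) [Field k] [Algebra k Ω] (r n : ℕ) : Prop :=
  ∀ K₀ : IntermediateField k Ω, K₀.FG → (∀ g : Ω, IsAlgebraic K₀ g) →
    Algebra.trdeg k K₀ = n → BD p v K₀ → HRone v K₀ →
    LUs v (algebraMap k Ω).range K₀.toSubfield → (∀ m, m < n → LUB p v k r m) →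
    ∀ g : Ω, g ∉ K₀ → g ^ p ∈ K₀ → BD p v (adj K₀ g) → HRone v (adj K₀ g) ∨
      ∃ (φ : ℕ → (Ω ≃ₐ[k] Ω)) (δ : ℕ → Ω) (ρ : ℝ), Mot v K₀ φ δ ρ ∧
        ∀ i, ∃ c ∈ hen v K₀, ∃ b ∈ hen v K₀, c ≠ 0 ∧ φ i (g ^ p) = c ^ p * g ^ p + b ^ p

end Pool.Agent.TW
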