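import Pool.Agent.Lib.TWW.WM15
import Pool.Agent.Lib.TWF.Top7

/-!
# TANK W: dimension at most four, the real valuations with residue field `k`
-/

set_option autoImplicit false

namespace Pool.Agent.TW

open Pool.Agent.H15JM (RVal)
open Pool.Agent.LUC (Cl LUs)

universe u

/-- Dimension at most four. -/
theorem lus_four {k : Type u} [Field k] [IsAlgClosed k] (p : ℕ) [Fact p.Prime] [CharP k p]
    (Ω : Type u) [Field Ω] [Algebra k Ω] [IsAlgClosed Ω] [CharP Ω p] (v : RVal Ω) (r : ℕ)
    (h : Ctx k v r) (E : IntermediateField k Ω) (hE : E.FG) (hΩ : ∀ g : Ω, IsAlgebraic E g)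
    (htr : Algebra.trdeg k E ≤ 4) : LUs v (algebraMap k Ω).range E.toSubfield :=
  lus_four_of_mob p (fun _ _ _ _ _ _ h' => TWF.mobQ0_one_four p _ _ h') Ω v r h E hE hΩ htr

end Pool.Agent.TW
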