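import Pool.Agent.Lib.TWX.Newt
import Pool.Agent.Lib.TWC.AxP
import Pool.Agent.Lib.TWC.HSx
import Pool.Agent.Lib.TWC.Rect
import Pool.Agent.Lib.TWC.EW
import Pool.Agent.Lib.TWM.S4
import Pool.Agent.Lib.TWM.B1

/-!
# TANK W, first floor: the perfect closure of a relatively algebraically closed subfield

`C` is closed, `W ≤ C` is relatively algebraically closed in `C`.

* `pcl_regular`: the closure of the perfect closure of `W` is relatively algebraically closed in the
  closure of the perfect closure of `C`;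
* `tl_of_pcl`: the elements of `C` outside of the closure `E` of the perfect closure of `W` are of
  transcendental type over `E`.
-/

set_option autoImplicit false

open Polynomial

namespace Pool.Agent.TWW

open Pool.Agent.H15JM (RVal)
open Pool.Agent.LU1 (VPos adj)
open Pool.Agent.D2 (Ctx0)
open Pool.Agent.D2P (clI mem_clI mem_adj_self rootF mem_rootF)
open Pool.Agent.TW (Full)
open Pool.Agent.TWM
open Pool.Agent.TWC (pcl perf_clI tl_of_perfect cld_rootFn)
open Pool.Agent.TWX (newton_at)

universe u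

section Val

variable {Ω : Type u} [Field Ω] {v : RVal Ω}

/-- A small change of the centre. -/
theorem taylor_sub_ge {T : Polynomial Ω} {M d : ℝ} (hT : ∀ i, v.Ge (-M) (T.coeff i)) (hd : 0 ≤ d)
    {δ : Ω} (hδ : v.Ge d δ) (l : ℕ) : v.Ge (d - M) ((taylor δ T - T).coeff l) := by
  have h1 : (taylor δ T - T).coeff l = (taylor δ (T - monomial l (T.coeff l))).coeff l := by
    rw [map_sub, coeff_sub, coeff_sub, taylor_monomial, coeff_C_mul, coeff_X_add_C_pow,
      Nat.sub_self, pow_zero, Nat.choose_self, Nat.cast_one, mul_one, mul_one]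
  rw [h1]
  refine taylor_coeff_ge' fun n hn => ?_
  rcases hn.eq_or_lt with rfl | h2
  · rw [coeff_sub, coeff_monomial_same, sub_self, zero_mul]
    exact RVal.Ge.zero
  · rw [coeff_sub, coeff_monomial_of_ne _ h2.ne', sub_zero]
    refine ((hT n).mul (ge_pow hδ (n - l))).mono ?_
    have h3 : (1 : ℝ) ≤ ((n - l : ℕ) : ℝ) := by exact_mod_cast (by omega : 1 ≤ n - l)
    nlinarith

end Val

variable {k Ω : Type u} [Field k] [Field Ω] [Algebra k Ω] {v : RVal Ω}
  {C W : IntermediateField k Ω}

/-- Polynomials over the closure are limits of polynomials over the field. -/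
theorem exists_PI_near {A : IntermediateField k Ω} {G : Polynomial Ω} (hG : G ∈ PI (clI v A))
    (c : ℝ) : ∃ G' ∈ PI A, G'.natDegree ≤ G.natDegree ∧ ∀ i, v.Ge c ((G' - G).coeff i) := by
  choose b hb hbc using fun i => mem_clI.1 (hG i) c
  refine ⟨∑ i ∈ Finset.range (G.natDegree + 1), monomial i (b i), ?_, ?_, fun i => ?_⟩
  · refine sum_mem fun i _ => ?_
    intro j
    rw [coeff_monomial]
    split_ifs
    exacts [hb i, zero_mem _]
  · refine natDegree_sum_le_of_forall_le _ _ fun i hi => ?_
    exact (natDegree_monomial_le _).trans (Nat.lt_succ_iff.1 (Finset.mem_range.1 hi))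
  · rw [coeff_sub, finsetSum_coeff]
    by_cases h : i < G.natDegree + 1
    · have e : ∑ j ∈ Finset.range (G.natDegree + 1), (monomial j (b j)).coeff i = b i := by
        rw [Finset.sum_eq_single i (fun j _ hj => coeff_monomial_of_ne _ hj.symm)
          (fun h1 => absurd (Finset.mem_range.2 h) h1), coeff_monomial_same]
      rw [e]
      exact ge_sub_comm (hbc i)
    · have e : ∑ j ∈ Finset.range (G.natDegree + 1), (monomial j (b j)).coeff i = 0 :=
        Finset.sum_eq_zero fun j hj => coeff_monomial_of_ne _ (by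
          have := Finset.mem_range.1 hj
          omega)
      rw [e, coeff_eq_zero_of_natDegree_lt (by omega), sub_zero]
      exact RVal.Ge.zero

section Main

variable (p : ℕ) [hp : Fact p.Prime] [CharP Ω p] [IsAlgClosed Ω]

omit [IsAlgClosed Ω] in
theorem pcl_mono' (h : W ≤ C) : pcl p W ≤ pcl p C := by
  rintro a ⟨m, hm⟩
  exact ⟨m, h hm⟩

theorem pcl_perf' (K : IntermediateField k Ω) : ∀ a ∈ pcl p K, ∃ b ∈ pcl p K, b ^ p = a := by
  rintro a ⟨m, hm⟩
  obtain ⟨b, hb⟩ := IsAlgClosed.exists_pow_nat_eq a hp.out.pos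
  refine ⟨b, ⟨m + 1, ?_⟩, hb⟩
  rwa [pow_succ', pow_mul, hb]

omit [IsAlgClosed Ω] in
theorem rootF_mono {i j : ℕ} (h : i ≤ j) : rootF p i C ≤ rootF p j C := by
  intro a ha
  rw [mem_rootF] at ha ⊢
  obtain ⟨d, rfl⟩ := Nat.exists_eq_add_of_le h
  rw [pow_add, pow_mul]
  exact pow_mem ha _

omit [IsAlgClosed Ω] in
theorem exists_rootF {G : Polynomial Ω} (hG : G ∈ PI (pcl p W)) : ∃ j, G ∈ PI (rootF p j W) := by
  choose f hf using fun i => hG i
  refine ⟨(Finset.range (G.natDegree + 1)).sup f, fun i => ?_⟩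
  by_cases h : i < G.natDegree + 1
  · exact rootF_mono p (Finset.le_sup (f := f) (Finset.mem_range.2 h)) (mem_rootF.2 (hf i))
  · rw [coeff_eq_zero_of_natDegree_lt (by omega)]
    exact zero_mem _

/-- **The closure of the perfect closure of `W` is relatively algebraically closed in the closure of
the perfect closure of `C`.** -/
theorem pcl_regular (hc : CompleteV v) (hC : Cld v C) (hWC : W ≤ C)
    (hreg : ∀ a ∈ C, IsAlgebraic W a → a ∈ W) {θ : Ω} (hθ : θ ∈ clI v (pcl p C))
    (hθE : IsAlgebraic (clI v (pcl p W)) θ) : θ ∈ clI v (pcl p W) := by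
  classical
  set E := clI v (pcl p W) with hE
  obtain ⟨hexp, hperf⟩ := TWC.perfectRing_of (E := E) p (perf_clI p (pcl_perf' p W))
  have hPF : PerfectField E := PerfectRing.toPerfectField E p
  have hint : IsIntegral E θ := hθE.isIntegral
  have hsep : (minpoly E θ).Separable :=
    PerfectField.separable_of_irreducible (minpoly.irreducible hint)
  set G : Polynomial Ω := (minpoly E θ).map (algebraMap E Ω) with hG
  have hGE : G ∈ PI E := by
    intro i
    rw [hG, coeff_map]
    exact ((minpoly E θ).coeff i).2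
  have hG0 : G.eval θ = 0 := by
    rw [hG, eval_map_algebraMap]
    exact minpoly.aeval E θ
  have hG1 : (taylor θ G).coeff 1 ≠ 0 := by
    rw [taylor_coeff_one]
    have h1 := hsep.map (f := algebraMap E Ω)
    exact h1.eval₂_derivative_ne_zero (RingHom.id Ω) (by rw [eval₂_id]; exact hG0)
  set T := taylor θ G with hT
  set t := v (T.coeff 1) with ht
  -- a lower bound of the coefficients
  obtain ⟨M, hM⟩ : ∃ M : ℝ, ∀ i, v.Ge (-M) (T.coeff i) := by
    refine ⟨∑ i ∈ Finset.range (T.natDegree + 1), |v (T.coeff i)|, fun i => ?_⟩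
    by_cases h : i < T.natDegree + 1
    · refine (RVal.ge_self _).mono ?_
      have h1 := Finset.single_le_sum (f := fun i => |v (T.coeff i)|)
        (fun i _ => abs_nonneg _) (Finset.mem_range.2 h)
      have h2 := neg_abs_le (v (T.coeff i))
      linarith
    · rw [coeff_eq_zero_of_natDegree_lt (by omega)]
      exact RVal.Ge.zero
  refine mem_clI.2 fun τ => ?_
  -- the radius
  set s : ℝ := |τ| + |t| + |M| with hs
  set c : ℝ := |t| + s + 1 with hcc
  set d : ℝ := c + |M| + |τ| with hd
  have hτ := abs_nonneg τ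
  have ht0 := abs_nonneg t
  have hM0 := abs_nonneg M
  obtain ⟨c₀, hc₀, hc₁⟩ := mem_clI.1 hθ d
  obtain ⟨j₁, hj₁⟩ := hc₀
  obtain ⟨G', hG', hdeg, hnear⟩ := exists_PI_near hGE (c + G.natDegree * |v c₀|)
  obtain ⟨j₂, hj₂⟩ := exists_rootF p hG'
  set j := max j₁ j₂ with hj
  have hcj : c₀ ∈ rootF p j C := rootF_mono p (le_max_left _ _) (mem_rootF.2 hj₁)
  have hGj : G' ∈ PI (rootF p j W) := fun i => rootF_mono p (le_max_right _ _) (hj₂ i)
  have hWj : rootF p j W ≤ rootF p j C := fun a ha => mem_rootF.2 (hWC (mem_rootF.1 ha))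
  -- the expansion at the point
  have hdiff : ∀ l, v.Ge c ((taylor c₀ G' - T).coeff l) := by
    intro l
    have e : taylor c₀ G' - T = taylor c₀ (G' - G) + (taylor (c₀ - θ) T - T) := by
      rw [hT, taylor_taylor, map_sub, show c₀ - θ + θ = c₀ by ring]
      ring
    rw [e, coeff_add]
    refine RVal.Ge.add ?_ ?_
    · have h1 : (G' - G).natDegree ≤ G.natDegree :=
        (natDegree_sub_le _ _).trans (max_le hdeg le_rfl)
      exact (taylor_coeff_ge h1 hnear c₀ l).mono (by linarith)
    · refine (taylor_sub_ge hM (d := d) (by positivity) (ge_sub_comm hc₁) l).mono ?_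
      have := le_abs_self M
      linarith
  have hT' : ∀ l, (taylor c₀ G').coeff l = T.coeff l + (taylor c₀ G' - T).coeff l := by
    intro l
    rw [coeff_sub]
    ring
  have h1 : (taylor c₀ G').coeff 1 ≠ 0 ∧ v ((taylor c₀ G').coeff 1) = t := by
    have h2 : v.Ge c ((taylor c₀ G').coeff 1 - T.coeff 1) := by
      rw [← coeff_sub]
      exact hdiff 1
    exact Gt.val_eq hG1 (Gt.of_ge (ge_sub_comm h2) (by
      have := le_abs_self t
      linarith))
  have h0 : v.Ge c ((taylor c₀ G').coeff 0) := by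
    rw [hT' 0, hT, taylor_coeff_zero, hG0, zero_add]
    have := hdiff 0
    rwa [hT] at this
  obtain ⟨ξ, hξ, hξ0, hξs⟩ := newton_at hc (cld_rootFn p j hC) (f := G')
    (fun i => hWj (hGj i)) hcj (ρ := t + s) (s := s) h1.1 (by rw [h1.2]; ring)
    (Gt.of_ge (by rw [taylor_coeff_zero] at h0; exact h0) (by
      have := le_abs_self t
      linarith))
    (fun l hl => by
      rw [hT' l]
      have h2 : (2 : ℝ) ≤ l := by exact_mod_cast hl
      have h3 := le_abs_self t
      have h4 := le_abs_self M
      have h5 : s ≤ (l - 1) * s := by nlinarith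
      refine ((hM l).mono ?_).add ((hdiff l).mono ?_)
      · nlinarith
      · nlinarith)
  have hG'0 : G' ≠ 0 := by
    rintro rfl
    exact h1.1 (by rw [map_zero, coeff_zero])
  -- the root is in the perfect closure of `W`
  have hξW : ξ ∈ pcl p W := by
    refine ⟨j, hreg _ (mem_rootF.1 hξ) ?_⟩
    have h2 : (G'.map (iterateFrobenius Ω p j)).eval (ξ ^ p ^ j) = 0 := by
      rw [← iterateFrobenius_def, eval_map_apply, hξ0, map_zero]
    refine isAlgebraic_root (fun i => ?_) ?_ h2
    · rw [coeff_map, iterateFrobenius_def]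
      exact mem_rootF.1 (hGj i)
    · rw [Ne, Polynomial.map_eq_zero_iff (iterateFrobenius Ω p j).injective]
      exact hG'0
  refine ⟨ξ, hξW, ?_⟩
  rw [show θ - ξ = (θ - c₀) - (ξ - c₀) by ring]
  refine (hc₁.mono ?_).sub ?_
  · have := le_abs_self τ
    linarith
  · refine fun h => (hξs h).le.trans' ?_
    have := le_abs_self τ
    linarith

/-- **The first floor**: the elements of `C` outside of the closure of the perfect closure of `W`
are of transcendental type over it. -/
theorem tl_of_pcl (h : Ctx0 k v) (hc : CompleteV v) (hC : Cld v C) (hWC : W ≤ C)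
    (hreg : ∀ a ∈ C, IsAlgebraic W a → a ∈ W) (hfull : Full v W) {y : Ω}
    (hy : y ∈ clI v (pcl p C)) (hyE : y ∉ clI v (pcl p W)) :
    ∃ s : ℝ, TL v (clI v (pcl p W)) y s := by
  have hle : W ≤ clI v (pcl p W) := fun a ha =>
    TWC.self_le_clI v _ ⟨0, by rwa [pow_zero, pow_one]⟩
  refine tl_of_perfect p h (cld_clI v _) (perf_clI p (pcl_perf' p W)) (fun x hx => ?_)
    (cld_clI v (pcl p C)) (TWC.clI_mono' (pcl_mono' p hWC))
    (fun a ha ha' => pcl_regular p hc hC hWC hreg ha ha') hy hyE
  obtain ⟨m, hm, e, he, he0, hve⟩ := hfull x hx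
  exact ⟨m, hm, e, hle he, he0, hve⟩

end Main

end Pool.Agent.TWW
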