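import Pool.Agent.Lib.TWW.Defs
import Pool.Agent.Lib.TWM.D0
import Pool.Agent.Lib.D2P.A2

/-!
# TANK W, skeleton M, rows WM3 and WM5

* `hen_map_root`: the condition `hen (φ K₀) = hen K₀` passes to `K₀(g)`, `φ (g^p) = c^p g^p + b^p`;
* `Mot.root`: motions pass to purely inseparable extensions of degree `p`.
-/

set_option autoImplicit false

open Polynomial Filter Topology

namespace Pool.Agent.TW

open Pool.Agent.H15JM (RVal)
open Pool.Agent.LU1 (VPos adj)
open Pool.Agent.LUC (Cl LUs lv)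
open Pool.Agent.D2 (Ctx0)
open Pool.Agent.D2P (hen le_hen hen_mono hen_le hen_hen hen_adj_congr adj_le mem_adj_self rootF)
open Pool.Agent.TWM (Gt gt_of_pow mem_rootF1)

universe u

variable {k Ω : Type u} [Field k] [Field Ω] [Algebra k Ω] {v : RVal Ω} {r : ℕ}

/-- the image of `E(z)` -/
theorem map_adj_alg (φ : Ω ≃ₐ[k] Ω) (E : IntermediateField k Ω) (z : Ω) :
    (adj E z).map (φ : Ω →ₐ[k] Ω) = adj (E.map (φ : Ω →ₐ[k] Ω)) (φ z) := by
  refine le_antisymm ?_ ?_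
  · rw [IntermediateField.map_le_iff_le_comap]
    refine adj_le ?_ ?_
    · intro e he
      have h1 : φ e ∈ E.map (φ : Ω →ₐ[k] Ω) := ⟨e, he, rfl⟩
      exact (mem_adj_self _ (φ z)).2 h1
    · exact (mem_adj_self _ (φ z)).1
  · refine adj_le ?_ ⟨z, (mem_adj_self E z).1, rfl⟩
    rintro _ ⟨e, he, rfl⟩
    exact ⟨e, (mem_adj_self E z).2 he, rfl⟩

/-- an affine change of the generator -/
theorem hen_adj_affine {M : IntermediateField k Ω} {g c b : Ω} (hc : c ∈ hen v M) (hc0 : c ≠ 0)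
    (hb : b ∈ hen v M) : hen v (adj M (c * g + b)) = hen v (adj M g) := by
  refine le_antisymm ?_ ?_
  · refine hen_le (hen_hen _) (adj_le ((mem_adj_self M g).2.trans (le_hen _)) ?_)
    exact add_mem (mul_mem (hen_mono (mem_adj_self M g).2 hc) (le_hen _ (mem_adj_self M g).1))
      (hen_mono (mem_adj_self M g).2 hb)
  · refine hen_le (hen_hen _) (adj_le ((mem_adj_self M (c * g + b)).2.trans (le_hen _)) ?_)
    have hc' := hen_mono (mem_adj_self M (c * g + b)).2 hc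
    have hb' := hen_mono (mem_adj_self M (c * g + b)).2 hb
    have hz := le_hen (v := v) _ (mem_adj_self M (c * g + b)).1
    have h1 : ((c * g + b) - b) * c⁻¹ = g := by
      rw [add_sub_cancel_right, mul_comm c g, mul_assoc, mul_inv_cancel₀ hc0, mul_one]
    have h2 := mul_mem (sub_mem hz hb') (inv_mem hc')
    rwa [h1] at h2

/-- ROW WM3. The root: `φ g = c g + h` (Frobenius is injective). -/
theorem hen_map_root (p : ℕ) [Fact p.Prime] [CharP k p] [CharP Ω p] [IsAlgClosed Ω]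
    (h : Ctx0 k v) {K₀ : IntermediateField k Ω} {φ : Ω ≃ₐ[k] Ω}
    (hφ : hen v (K₀.map (φ : Ω →ₐ[k] Ω)) = hen v K₀) {g c b : Ω} (hg : g ^ p ∈ K₀)
    (hc : c ∈ hen v K₀) (hc0 : c ≠ 0) (hb : b ∈ hen v K₀)
    (hφg : φ (g ^ p) = c ^ p * g ^ p + b ^ p) :
    hen v ((adj K₀ g).map (φ : Ω →ₐ[k] Ω)) = hen v (adj K₀ g) := by
  have h1 : φ g = c * g + b := by
    have h2 : (φ g) ^ p = (c * g + b) ^ p := by
      rw [← map_pow, hφg, add_pow_char, mul_pow]
    exact frobenius_inj Ω p (by simpa [frobenius_def] using h2)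
  rw [map_adj_alg, h1, hen_adj_congr hφ, hen_adj_affine hc hc0 hb]

/-- ROW WM5. Motions pass to purely inseparable extensions of degree `p` (`δ i ^ (1/p)`). -/
theorem Mot.root (p : ℕ) [Fact p.Prime] [CharP k p] [CharP Ω p] [IsAlgClosed Ω] (h : Ctx0 k v)
    {K₀ : IntermediateField k Ω} {φ : ℕ → (Ω ≃ₐ[k] Ω)} {δ δ' : ℕ → Ω} {ρ : ℝ}
    (hM : Mot v K₀ φ δ ρ) (hδ' : ∀ i, δ' i ^ p = δ i) {g : Ω} (hg : g ^ p ∈ K₀)
    (hφ : ∀ i, ∃ c ∈ hen v K₀, ∃ b ∈ hen v K₀, c ≠ 0 ∧ φ i (g ^ p) = c ^ p * g ^ p + b ^ p) :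
    Mot v (adj K₀ g) φ δ' (ρ / p) := by
  have hp : p.Prime := Fact.out
  have hp0 : (0 : ℝ) < p := by exact_mod_cast hp.pos
  have hne : ∀ i, δ' i ≠ 0 := by
    intro i h0
    apply hM.ne i
    rw [← hδ' i, h0, zero_pow hp.ne_zero]
  have hv : ∀ i, v (δ i) = p * v (δ' i) := by
    intro i
    rw [← hδ' i, v.map_pow (hne i)]
  have hpow : ∀ e ∈ adj K₀ g, e ^ p ∈ K₀ := by
    have h1 : adj K₀ g ≤ rootF p 1 K₀ := by
      refine adj_le ?_ ((mem_rootF1 p).2 hg)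
      intro e he
      exact (mem_rootF1 p).2 (pow_mem he p)
    intro e he
    exact (mem_rootF1 p).1 (h1 he)
  have hlt : ∀ {e a : Ω} {m : ℤ}, LT v δ φ e a m → LT v δ' φ e a (p * m) := by
    rintro e a m ⟨ha, hev⟩
    refine ⟨ha, hev.mono fun i hi => ?_⟩
    have h2 : δ' i ^ ((p : ℤ) * m) = δ i ^ m := by
      rw [zpow_mul, zpow_natCast, hδ' i]
    rw [h2]
    have h3 : v a + ((p * m : ℤ) : ℝ) * v (δ' i) = v a + (m : ℝ) * v (δ i) := by
      rw [hv i]
      push_cast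
      ring
    rw [h3]
    exact hi
  refine ⟨hne, ?_, ?_, ?_, ?_, ?_, ?_⟩
  · have h1 : (fun i => v (δ' i)) = fun i => v (δ i) / p := by
      funext i
      rw [hv i]
      field_simp
    rw [h1]
    exact hM.lim.div_const _
  · intro m f hm hf hvf
    apply hM.irr m (f ^ p) hm (pow_ne_zero _ hf)
    rw [v.map_pow hf, hvf]
    field_simp
  · intro e he he0
    obtain ⟨a, m, ha, hev⟩ := hM.lt (e ^ p) (hpow e he) (pow_ne_zero _ he0)
    obtain ⟨a', ha'⟩ := IsAlgClosed.exists_pow_nat_eq a hp.pos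
    have ha0 : a' ≠ 0 := by
      rintro rfl
      exact ha (by rw [← ha', zero_pow hp.ne_zero])
    refine ⟨a', m, ha0, hev.mono fun i hi => ?_⟩
    apply gt_of_pow (p := p)
    have h1 : (φ i e - a' * δ' i ^ m) ^ p = φ i (e ^ p) - a * δ i ^ m := by
      rw [sub_pow_char, mul_pow, ha', ← map_pow, ← zpow_natCast (δ' i ^ m), ← zpow_mul,
        mul_comm m, zpow_mul, zpow_natCast, hδ' i]
    have h2 : (p : ℝ) * (v a' + m * v (δ' i)) = v a + m * v (δ i) := by
      rw [← ha', v.map_pow ha0, hv i]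
      ring
    rw [h1, h2]
    exact hi
  · obtain ⟨e, he, he0, a, m, hm, hL⟩ := hM.moves
    exact ⟨e, (mem_adj_self K₀ g).2 he, he0, a, p * m,
      mul_ne_zero (by exact_mod_cast hp.ne_zero) hm, hlt hL⟩
  · intro f hf
    obtain ⟨m, hm, e, he, he0, hL, hve⟩ := hM.full f hf
    refine ⟨m, hm, e, (mem_adj_self K₀ g).2 he, he0, ?_, hve⟩
    have := hlt hL
    rwa [mul_zero] at this
  · intro i
    obtain ⟨c, hc, b, hb, hc0, hcb⟩ := hφ i
    exact hen_map_root p h (hM.hen_eq i) hg hc hc0 hb hcb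

end Pool.Agent.TW
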