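import Pool.Agent.Lib.TWW.Defs
import Pool.Agent.Lib.TWM.Bridge
import Pool.Agent.Lib.TWN.Fin2
import Pool.Agent.Lib.TWM.S9b

/-!
# TANK W: the step over the completion

`StepQ p v k n`: the purely inseparable step for the fields of transcendence degree `n`;
`mobQ0_of_step`: this step for the complete valuations gives `MobQ0`.
-/

set_option autoImplicit false

namespace Pool.Agent.TW

open Pool.Agent.H15JM (RVal)
open Pool.Agent.LU1 (adj)
open Pool.Agent.D2P (mem_adj_self adj_le)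
open Pool.Agent.TWM (CompleteV Dense)

universe u

/-- The purely inseparable step in transcendence degree `n`. -/
def StepQ {Ω : Type u} [Field Ω] (p : ℕ) (v : RVal Ω) (k : Type u) [Field k] [Algebra k Ω]
    (n : ℕ) : Prop :=
  ∀ K₀ : IntermediateField k Ω, K₀.FG → Full v K₀ → Algebra.trdeg k K₀ = n →
    BD p v K₀ → HRone v K₀ → ∀ al : Ω, al ^ p ∈ K₀ → BD p v (adj K₀ al) → HRone v (adj K₀ al)

variable {k Ω : Type u} [Field k] [Field Ω] [Algebra k Ω] {v : RVal Ω} {r : ℕ}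

/-- The image of `K(g)`. -/
theorem map_adj {Ω' : Type u} [Field Ω'] [Algebra k Ω'] (ι : Ω →ₐ[k] Ω')
    (K : IntermediateField k Ω) (g : Ω) : (adj K g).map ι = adj (K.map ι) (ι g) := by
  apply le_antisymm
  · rw [IntermediateField.map_le_iff_le_comap]
    refine adj_le (fun a ha => ?_) ?_
    · exact (mem_adj_self _ _).2 ⟨a, ha, rfl⟩
    · exact (mem_adj_self _ _).1
  · refine adj_le ?_ ⟨g, (mem_adj_self K g).1, rfl⟩
    rintro _ ⟨a, ha, rfl⟩
    exact ⟨a, (mem_adj_self K g).2 ha, rfl⟩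

/-- `MobQ0` from the step for the complete valuations. -/
theorem mobQ0_of_step [IsAlgClosed Ω] (p : ℕ) [Fact p.Prime]
    [CharP Ω p] (h : Ctx k v r) {n : ℕ}
    (hst : ∀ (Ω' : Type u) [Field Ω'] [Algebra k Ω'] [IsAlgClosed Ω'] [CharP Ω' p]
      (v' : RVal Ω'), Ctx k v' r → CompleteV v' → StepQ p v' k n) : MobQ0 p v k r n := by
  intro K₀ hK hΩ htr hBD hHR _ _ g _ hg hBDg
  left
  obtain ⟨Ω', iF, iA, ι, w, h1, h2, h3⟩ := TWM.exists_complete k v
  have : CharP Ω' p := Dense.charP ι p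
  rw [← Dense.hrone_iff h3, map_adj]
  refine hst Ω' w (Dense.ctx h3 h) h2 (K₀.map ι) (Dense.fg_map hK)
    ((Dense.full_iff h3).2 (full_of_alg hΩ)) (by rw [Dense.trdeg_map]; exact htr)
    ((Dense.bd_iff h3).2 hBD) ((Dense.hrone_iff h3).2 hHR) (ι g) ?_ ?_
  · rw [← map_pow]
    exact ⟨g ^ p, hg, rfl⟩
  · rw [← map_adj]
    exact (Dense.bd_iff h3).2 hBDg

end Pool.Agent.TW
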