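import Pool.Agent.Lib.TWW.Defs
import Pool.Agent.Lib.TWM.A1
import Pool.Agent.Lib.TWN.LUWa
import Pool.Agent.Lib.TWN.Fin2a

/-!
# TANK W, row WM0: the limit valuation of a family of motions
-/

set_option autoImplicit false

open Polynomial Filter Topology

namespace Pool.Agent.TW

open Pool.Agent.H15JM (RVal)
open Pool.Agent.LU1 (VPos adj)
open Pool.Agent.D2 (Ctx0)
open Pool.Agent.D2P (hen)
open Pool.Agent.TWM (Gt)

universe u

variable {k Ω : Type u} [Field k] [Field Ω] [Algebra k Ω] {v : RVal Ω} {r : ℕ}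

namespace WM0

variable {δ : ℕ → Ω} {φ : ℕ → (Ω ≃ₐ[k] Ω)} {e a : Ω} {m : ℤ} {ρ : ℝ}
  {E : IntermediateField k Ω}

theorem lt_val (hδ : ∀ i, δ i ≠ 0) (h : LT v δ φ e a m) :
    ∀ᶠ i in atTop, v (φ i e) = v a + m * v (δ i) := by
  obtain ⟨ha, h1⟩ := h
  filter_upwards [h1] with i hi
  have hd : δ i ^ m ≠ 0 := zpow_ne_zero m (hδ i)
  have h2 : v (a * δ i ^ m) = v a + m * v (δ i) := by
    rw [v.map_mul ha hd, v.map_zpow (hδ i)]
  rw [← h2] at hi ⊢
  exact (TWM.Gt.val_eq (mul_ne_zero ha hd) hi.sub_comm').2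

theorem lt_tendsto (hδ : ∀ i, δ i ≠ 0) (hlim : Tendsto (fun i => v (δ i)) atTop (𝓝 ρ))
    (h : LT v δ φ e a m) : Tendsto (fun i => v (φ i e)) atTop (𝓝 (v a + m * ρ)) := by
  have h2 : Tendsto (fun i => v a + m * v (δ i)) atTop (𝓝 (v a + m * ρ)) :=
    (hlim.const_mul (m : ℝ)).const_add (v a)
  refine h2.congr' ?_
  filter_upwards [lt_val hδ h] with i hi
  exact hi.symm

/-- The values `v (φ i f)` are bounded. -/
theorem bounded (hM : Mot v E φ δ ρ) (hΩ : ∀ g : Ω, IsAlgebraic E g) (f : Ω) :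
    ∃ B : ℝ, ∀ᶠ i in atTop, |v (φ i f)| ≤ B := by
  classical
  by_cases hf0 : f = 0
  · refine ⟨|v 0|, Eventually.of_forall fun i => ?_⟩
    rw [hf0, map_zero]
  obtain ⟨P, hP, hPf⟩ := hΩ f
  have hcoef : ∀ i ∈ P.support, ((P.coeff i : E) : Ω) ≠ 0 := by
    intro i hi h0
    exact (Polynomial.mem_support_iff.1 hi) (Subtype.ext h0)
  have hw : ∀ i : ℕ, ∃ B : ℝ, i ∈ P.support → ∀ᶠ j in atTop,
      |v (φ j ((P.coeff i : E) : Ω))| ≤ B := by
    intro i
    by_cases hi : i ∈ P.support
    · obtain ⟨a, m, hl⟩ := hM.lt _ (P.coeff i).2 (hcoef i hi)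
      have h1 := lt_tendsto hM.ne hM.lim hl
      refine ⟨|v a + m * ρ| + 1, fun _ => ?_⟩
      have h2 := h1 (Metric.ball_mem_nhds _ one_pos)
      filter_upwards [h2] with j hj
      rw [Set.mem_preimage, Metric.mem_ball, Real.dist_eq] at hj
      have h3 := abs_add_le (v (φ j ((P.coeff i : E) : Ω)) - (v a + m * ρ)) (v a + m * ρ)
      rw [sub_add_cancel] at h3
      linarith
    · exact ⟨0, fun hi' => absurd hi' hi⟩
  choose B hB using hw
  have hsupp : P.support.Nonempty := Polynomial.support_nonempty.2 hP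
  refine ⟨2 * ∑ i ∈ P.support, |B i|, ?_⟩
  have hall : ∀ᶠ j in atTop, ∀ i ∈ P.support, |v (φ j ((P.coeff i : E) : Ω))| ≤ B i := by
    rw [Filter.eventually_all_finset]
    exact fun i hi => hB i hi
  filter_upwards [hall] with c hc
  set Φ := φ c with hΦ
  have hBi : ∀ i ∈ P.support, |v (Φ ((P.coeff i : E) : Ω))| ≤ ∑ i ∈ P.support, |B i| := by
    intro i hi
    have h2 : |B i| ≤ ∑ i ∈ P.support, |B i| :=
      Finset.single_le_sum (f := fun i => |B i|) (fun j _ => abs_nonneg _) hi
    exact (hc i hi).trans ((le_abs_self _).trans h2)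
  have hsum : ∑ i ∈ P.support, Φ ((P.coeff i : E) : Ω) * (Φ f) ^ i = 0 := by
    have h1 : ∑ i ∈ P.support, ((P.coeff i : E) : Ω) * f ^ i = 0 := by
      rw [Polynomial.aeval_def, Polynomial.eval₂_eq_sum, Polynomial.sum_def] at hPf
      exact hPf
    have h2 := congrArg Φ h1
    rw [map_sum, map_zero] at h2
    rw [← h2]
    exact Finset.sum_congr rfl fun i _ => by rw [map_mul, map_pow]
  have hΦf : Φ f ≠ 0 := (map_ne_zero Φ).2 hf0
  have hΦc : ∀ i ∈ P.support, Φ ((P.coeff i : E) : Ω) ≠ 0 := fun i hi =>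
    (map_ne_zero Φ).2 (hcoef i hi)
  obtain ⟨i, hi, j, hj, hij, heq⟩ : ∃ i ∈ P.support, ∃ j ∈ P.support, i < j ∧
      v (Φ ((P.coeff i : E) : Ω) * (Φ f) ^ i) =
        v (Φ ((P.coeff j : E) : Ω) * (Φ f) ^ j) := by
    by_contra hcon
    push Not at hcon
    refine (LU1.sum_distinct (v := v) P.support hsupp
      (fun i => Φ ((P.coeff i : E) : Ω) * (Φ f) ^ i) ?_ ?_).1 hsum
    · intro i hi
      exact mul_ne_zero (hΦc i hi) (pow_ne_zero _ hΦf)
    · intro i hi j hj hij
      rcases lt_trichotomy i j with h1 | h1 | h1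
      · exact absurd hij (hcon i hi j hj h1)
      · exact h1
      · exact absurd hij.symm (hcon j hj i hi h1)
  rw [v.map_mul (hΦc i hi) (pow_ne_zero _ hΦf), v.map_mul (hΦc j hj) (pow_ne_zero _ hΦf),
    v.map_pow hΦf, v.map_pow hΦf] at heq
  have h1 : ((j : ℝ) - i) * v (Φ f) = v (Φ ((P.coeff i : E) : Ω)) -
      v (Φ ((P.coeff j : E) : Ω)) := by linarith
  have h2 : (1 : ℝ) ≤ (j : ℝ) - i := by
    have : (i : ℝ) + 1 ≤ j := by exact_mod_cast hij
    linarith
  have h3 : |v (Φ f)| ≤ |((j : ℝ) - i) * v (Φ f)| := by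
    rw [abs_mul, abs_of_nonneg (by linarith : (0 : ℝ) ≤ (j : ℝ) - i)]
    have := mul_le_mul_of_nonneg_right h2 (abs_nonneg (v (Φ f)))
    linarith
  rw [h1] at h3
  have h4 := abs_sub (v (Φ ((P.coeff i : E) : Ω))) (v (Φ ((P.coeff j : E) : Ω)))
  have h5 := hBi i hi
  have h6 := hBi j hj
  linarith

/-- The limit valuation along an ultrafilter. -/
theorem exists_W (hM : Mot v E φ δ ρ) (hΩ : ∀ g : Ω, IsAlgebraic E g) :
    ∃ W : RVal Ω, (∀ c : k, c ≠ 0 → W (algebraMap k Ω c) = v (algebraMap k Ω c)) ∧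
      ∀ (f a : Ω) (m : ℤ), LT v δ φ f a m → W f = v a + m * ρ := by
  classical
  let U : Ultrafilter ℕ := Ultrafilter.of atTop
  have hUF : (U : Filter ℕ) ≤ atTop := Ultrafilter.of_le atTop
  have hlim : ∀ f : Ω, ∃ x : ℝ, Tendsto (fun i => v (φ i f)) (U : Filter ℕ) (𝓝 x) := by
    intro f
    obtain ⟨B, hB⟩ := bounded hM hΩ f
    have h1 : ∀ᶠ i in (U : Filter ℕ), v (φ i f) ∈ Set.Icc (-B) B := by
      filter_upwards [hUF hB] with i hi
      exact abs_le.1 hi
    obtain ⟨x, -, hx⟩ := isCompact_iff_ultrafilter_le_nhds.1 (isCompact_Icc (a := -B) (b := B))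
      (U.map fun i => v (φ i f)) (by
        rw [Ultrafilter.coe_map]
        exact le_principal_iff.2 h1)
    exact ⟨x, hx⟩
  choose w hw using hlim
  let W : RVal Ω :=
    { toFun := w
      map_mul' := by
        intro x y hx hy
        refine tendsto_nhds_unique (hw (x * y)) ?_
        refine ((hw x).add (hw y)).congr fun c => ?_
        rw [map_mul, v.map_mul ((map_ne_zero (φ c)).2 hx) ((map_ne_zero (φ c)).2 hy)]
      map_add' := by
        intro x y hx hy hxy
        refine le_of_tendsto_of_tendsto' ((hw x).min (hw y)) (hw (x + y)) fun c => ?_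
        rw [map_add]
        exact v.map_add ((map_ne_zero (φ c)).2 hx) ((map_ne_zero (φ c)).2 hy)
          (by rw [← map_add]; exact (map_ne_zero (φ c)).2 hxy) }
  have hW : ∀ f, W f = w f := fun _ => rfl
  refine ⟨W, fun c hc => ?_, fun f a m hl => ?_⟩
  · rw [hW]
    refine tendsto_nhds_unique (hw _) ?_
    refine tendsto_const_nhds.congr fun i => ?_
    rw [AlgEquiv.commutes]
  · rw [hW]
    exact tendsto_nhds_unique (hw f) ((lt_tendsto hM.ne hM.lim hl).mono_left hUF)

end WM0

open WM0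

/-- **ROW WM0.** The limit valuation. -/
theorem exists_limval [IsAlgClosed Ω] [IsAlgClosed k] (h : Ctx k v r)
    {E : IntermediateField k Ω} (hΩ : ∀ g : Ω, IsAlgebraic E g) {φ : ℕ → (Ω ≃ₐ[k] Ω)}
    {δ : ℕ → Ω} {ρ : ℝ} (hM : Mot v E φ δ ρ) :
    ∃ W : RVal Ω, Ctx k W (r + 1) ∧ ∀ U : Finset Ω, (∀ f ∈ U, f ∈ E ∧ f ≠ 0) →
      ∀ᶠ i in atTop, ∀ f ∈ U, (0 < W f → 0 < v (φ i f)) ∧ (W f = 0 → v (φ i f) = 0) := by
  classical
  obtain ⟨W, hWk', hW⟩ := exists_W hM hΩ
  have hWk : ∀ c : k, c ≠ 0 → W (algebraMap k Ω c) = 0 := fun c hc => by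
    rw [hWk' c hc, h.triv c hc]
  -- `v a + m ρ = 0` implies `m = 0`, `v a = 0`
  have hirr : ∀ (a : Ω) (m : ℤ), a ≠ 0 → v a + m * ρ = 0 → m = 0 ∧ v a = 0 := by
    intro a m ha h0
    have hm : m = 0 := by
      by_contra hm
      refine hM.irr m a⁻¹ hm (inv_ne_zero ha) ?_
      rw [v.map_inv ha]
      linarith
    rw [hm] at h0
    push_cast at h0
    exact ⟨hm, by linarith⟩
  refine ⟨W, ⟨⟨hWk, ?_⟩, Nat.succ_pos r, ?_⟩, ?_⟩
  · -- residues
    intro g hg0 hg
    by_contra hno
    push Not at hno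
    have hge : ∀ c : k, W.Ge 0 (algebraMap k Ω c) := by
      intro c h0
      have hc : c ≠ 0 := by
        rintro rfl
        exact h0 (map_zero _)
      rw [hWk c hc]
    have hu : ∀ c : k, W (g - algebraMap k Ω c) = 0 ∧ g ≠ algebraMap k Ω c := by
      intro c
      by_cases hc : c = 0
      · rw [hc, map_zero, sub_zero]
        exact ⟨hg, hg0⟩
      · have h1 := hno c hc
        have h2 : g ≠ algebraMap k Ω c := by
          intro h3
          apply h1
          rw [h3, sub_self]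
          exact LU1.VPos.zero
        refine ⟨?_, h2⟩
        have h3 : W.Ge 0 (g - algebraMap k Ω c) := (RVal.Ge.of_le hg.ge).sub (hge c)
        have h4 := h3 (sub_ne_zero.2 h2)
        by_contra h5
        exact h1 fun _ => lt_of_le_of_ne h4 (Ne.symm h5)
    obtain ⟨f, hfL, hf⟩ := LUW.exists_res hWk hu (hΩ g)
    have hf0 : f ≠ 0 := by
      have h1 := (hf 0).2
      rwa [map_zero] at h1
    have hWf : W f = 0 := by
      have h1 := (hf 0).1
      rwa [map_zero, sub_zero] at h1
    obtain ⟨a, m, hl⟩ := hM.lt f hfL hf0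
    have h1 := hW f a m hl
    rw [hWf] at h1
    obtain ⟨hm, hva⟩ := hirr a m hl.1 h1.symm
    obtain ⟨c, hc0, hc⟩ := h.res a hl.1 hva
    have hfc0 : f - algebraMap k Ω c ≠ 0 := sub_ne_zero.2 (hf c).2
    obtain ⟨a', m', hl'⟩ := hM.lt (f - algebraMap k Ω c) (sub_mem hfL (E.algebraMap_mem c)) hfc0
    have h2 := hW _ a' m' hl'
    rw [(hf c).1] at h2
    obtain ⟨hm', hva'⟩ := hirr a' m' hl'.1 h2.symm
    have h3 : ∀ᶠ i : ℕ in atTop, False := by
      filter_upwards [hl.2, lt_val hM.ne hl'] with i hi hi'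
      rw [hm, hva, zpow_zero, mul_one, Int.cast_zero, zero_mul, add_zero] at hi
      rw [hm', hva', Int.cast_zero, zero_mul, add_zero] at hi'
      have h4 : Gt v 0 (φ i (f - algebraMap k Ω c)) := by
        rw [map_sub, AlgEquiv.commutes]
        have h5 : φ i f - algebraMap k Ω c = (φ i f - a) + (a - algebraMap k Ω c) := by ring
        rw [h5]
        exact hi.add hc
      have h5 := h4 ((map_ne_zero (φ i)).2 hfc0)
      rw [hi'] at h5
      exact lt_irrefl _ h5
    obtain ⟨i, hi⟩ := h3.exists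
    exact hi
  · -- rank
    obtain ⟨X, hX0, hXi, hXs⟩ := h.rank
    choose n hn e heE he0 hel hev using fun i => hM.full (X i) (hX0 i)
    obtain ⟨es, hesE, hes0, as, ms, hms, hls⟩ := hM.moves
    have hWe : ∀ i, W (e i) = n i * v (X i) := by
      intro i
      rw [hW _ _ _ (hel i), hev i]
      push_cast
      ring
    have hWes : W es = v as + ms * ρ := hW _ _ _ hls
    have hn0 : ∀ i, (n i : ℚ) ≠ 0 := fun i => by exact_mod_cast (hn i).ne'
    set S := Submodule.span ℚ (Set.range fun i => v (X i)) with hS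
    have hSW : Submodule.span ℚ (Set.range fun i => W (e i)) = S := by
      refine le_antisymm ?_ ?_
      · rw [Submodule.span_le]
        rintro _ ⟨i, rfl⟩
        have h1 : W (e i) = (n i : ℚ) • v (X i) := by
          rw [hWe i, Rat.smul_def]
          push_cast
          ring
        change W (e i) ∈ S
        rw [h1]
        exact Submodule.smul_mem _ _ (Submodule.subset_span ⟨i, rfl⟩)
      · rw [hS, Submodule.span_le]
        rintro _ ⟨i, rfl⟩
        have h1 : v (X i) = (n i : ℚ)⁻¹ • W (e i) := by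
          rw [hWe i, Rat.smul_def]
          push_cast
          have h2 : (n i : ℝ) ≠ 0 := by exact_mod_cast (hn i).ne'
          field_simp
        change v (X i) ∈ Submodule.span ℚ (Set.range fun i => W (e i))
        rw [h1]
        exact Submodule.smul_mem _ _ (Submodule.subset_span ⟨i, rfl⟩)
    have hWei : LinearIndependent ℚ fun i => W (e i) := by
      have h1 : (fun i => W (e i)) = fun i => (Units.mk0 (n i : ℚ) (hn0 i)) • v (X i) := by
        funext i
        rw [hWe i, Units.smul_def, Units.val_mk0, Rat.smul_def]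
        push_cast
        ring
      rw [h1]
      exact hXi.units_smul _
    -- `ρ` is not in `S`
    have hρS : ∀ x ∈ S, ∃ (N : ℕ) (f : Ω), 0 < N ∧ f ≠ 0 ∧ v f = N * x := by
      intro x hx
      induction hx using Submodule.span_induction with
      | mem x hx =>
        obtain ⟨i, rfl⟩ := hx
        exact ⟨1, X i, one_pos, hX0 i, by push_cast; ring⟩
      | zero => exact ⟨1, 1, one_pos, one_ne_zero, by rw [v.map_one]; simp⟩
      | add x y _ _ hx hy =>
        obtain ⟨N, f, hN, hf, h1⟩ := hx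
        obtain ⟨N', f', hN', hf', h2⟩ := hy
        refine ⟨N * N', f ^ N' * f' ^ N, Nat.mul_pos hN hN',
          mul_ne_zero (pow_ne_zero _ hf) (pow_ne_zero _ hf'), ?_⟩
        rw [v.map_mul (pow_ne_zero _ hf) (pow_ne_zero _ hf'), v.map_pow hf, v.map_pow hf', h1, h2]
        push_cast
        ring
      | smul q x _ hx =>
        obtain ⟨N, f, hN, hf, h1⟩ := hx
        refine ⟨N * q.den, f ^ q.num, Nat.mul_pos hN q.den_pos, zpow_ne_zero _ hf, ?_⟩
        rw [v.map_zpow hf, h1, Rat.smul_def]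
        have h2 : (q : ℝ) * q.den = q.num := by exact_mod_cast Rat.mul_den_eq_num q
        push_cast
        linear_combination (-(N : ℝ) * x) * h2
    have hnot : W es ∉ S := by
      intro hx
      have h1 : v as ∈ S := hXs as hls.1
      have h2 : (ms : ℝ) * ρ ∈ S := by
        have h3 := sub_mem hx h1
        rwa [hWes, add_sub_cancel_left] at h3
      obtain ⟨N, f, hN, hf, h3⟩ := hρS _ h2
      refine hM.irr (N * ms) f (mul_ne_zero (by exact_mod_cast hN.ne') hms) hf ?_
      rw [h3]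
      push_cast
      ring
    refine ⟨Fin.snoc e es, ?_, ?_, ?_⟩
    · intro i
      refine Fin.lastCases ?_ (fun i => ?_) i
      · rw [Fin.snoc_last]; exact hes0
      · rw [Fin.snoc_castSucc]; exact he0 i
    · have h1 : (fun i => W ((Fin.snoc e es : Fin (r + 1) → Ω) i)) =
          Fin.snoc (fun i => W (e i)) (W es) := by
        funext i
        refine Fin.lastCases ?_ (fun i => ?_) i
        · rw [Fin.snoc_last, Fin.snoc_last]
        · rw [Fin.snoc_castSucc, Fin.snoc_castSucc]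
      rw [h1, linearIndependent_finSnoc]
      refine ⟨hWei, ?_⟩
      rw [hSW]
      exact hnot
    · intro g hg
      set T := Submodule.span ℚ (Set.range fun i => W ((Fin.snoc e es : Fin (r + 1) → Ω) i))
        with hT
      have hST : S ≤ T := by
        rw [← hSW, Submodule.span_le]
        rintro _ ⟨i, rfl⟩
        refine Submodule.subset_span ⟨i.castSucc, ?_⟩
        change W ((Fin.snoc e es : Fin (r + 1) → Ω) i.castSucc) = W (e i)
        rw [Fin.snoc_castSucc]
      have hesT : W es ∈ T := by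
        refine Submodule.subset_span ⟨Fin.last r, ?_⟩
        change W ((Fin.snoc e es : Fin (r + 1) → Ω) (Fin.last r)) = W es
        rw [Fin.snoc_last]
      have hρT : ρ ∈ T := by
        have h1 : (ms : ℝ) * ρ ∈ T := by
          have h3 := sub_mem hesT (hST (hXs as hls.1))
          rwa [hWes, add_sub_cancel_left] at h3
        have h2 : ρ = (ms : ℚ)⁻¹ • ((ms : ℝ) * ρ) := by
          rw [Rat.smul_def]
          have h3 : (ms : ℝ) ≠ 0 := by exact_mod_cast hms
          push_cast
          field_simp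
        rw [h2]
        exact Submodule.smul_mem _ _ h1
      obtain ⟨N, hN, c, hcE, hc0, hcv⟩ := full_of_alg (v := W) hΩ g hg
      obtain ⟨a, m, hl⟩ := hM.lt c hcE hc0
      have h1 : W g = (N : ℚ)⁻¹ • (v a + m * ρ) := by
        rw [← hW _ _ _ hl, hcv, Rat.smul_def]
        have h3 : (N : ℝ) ≠ 0 := by exact_mod_cast hN.ne'
        push_cast
        field_simp
      rw [h1]
      refine Submodule.smul_mem _ _ (add_mem (hST (hXs a hl.1)) ?_)
      have h2 : (m : ℝ) * ρ = (m : ℚ) • ρ := by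
        rw [Rat.smul_def]
        push_cast
        ring
      rw [h2]
      exact Submodule.smul_mem _ _ hρT
  · intro U hU
    rw [Filter.eventually_all_finset]
    intro f hf
    obtain ⟨hfE, hf0⟩ := hU f hf
    obtain ⟨a, m, hl⟩ := hM.lt f hfE hf0
    have hWf := hW f a m hl
    have h1 := lt_tendsto hM.ne hM.lim hl
    rw [← hWf] at h1
    by_cases hpos : 0 < W f
    · filter_upwards [h1 (Ioi_mem_nhds hpos)] with i hi
      exact ⟨fun _ => hi, fun h0 => absurd h0 hpos.ne'⟩
    · by_cases h0 : W f = 0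
      · rw [h0] at hWf
        obtain ⟨hm, hva⟩ := hirr a m hl.1 hWf.symm
        filter_upwards [lt_val hM.ne hl] with i hi
        refine ⟨fun h2 => absurd h2 hpos, fun _ => ?_⟩
        rw [hi, hm, hva]
        push_cast
        ring
      · exact Eventually.of_forall fun i => ⟨fun h2 => absurd h2 hpos, fun h2 => absurd h2 h0⟩

end Pool.Agent.TW
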