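import Pool.Agent.Lib.TWH.H1
import Pool.Agent.Lib.TWT.SP2
import Pool.Agent.Lib.TWI.I3a
import Pool.Agent.Lib.TWM.Bridge

/-!
# TANK W, row WM1: the weak motion lemma

`W` is a valuation trivial on `k` for which `E` is log uniformizable.  If the signs of the values of
every finite subset of `E` are those of `v ∘ φ` for an automorphism `φ` such that `φ(E)` and `E₁`
have the same henselization for `v`, then `HRone v E₁`.  The automorphisms need not be near the
identity, and they need not be isometric.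
-/

set_option autoImplicit false

open Polynomial

namespace Pool.Agent.TW

open Pool.Agent.H15JM (RVal)
open Pool.Agent.LU1 (VPos)
open Pool.Agent.LUC (Cl clF lv LUs Par IsMod QuoIs SM)
open Pool.Agent.D2 (Ctx0)
open Pool.Agent.D2P (hen)
open Pool.Agent.TWT (cm Dom)
open H1

universe u

variable {k Ω : Type u} [Field k] [Field Ω] [Algebra k Ω] {v : RVal Ω} {r : ℕ}

/-- `r` elements with independent values have spanning values. -/
theorem span_of_indep (h : Ctx k v r) {x : Fin r → Ω} (hx : ∀ i, x i ≠ 0)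
    (hxi : LinearIndependent ℚ fun i => v (x i)) :
    ∀ g : Ω, g ≠ 0 → v g ∈ Submodule.span ℚ (Set.range fun i => v (x i)) := by
  obtain ⟨X, hX0, hXi, hX⟩ := h.rank
  have h1 : Submodule.span ℚ (Set.range fun i => v (x i)) ≤
      Submodule.span ℚ (Set.range fun i => v (X i)) := by
    rw [Submodule.span_le]
    rintro _ ⟨i, rfl⟩
    exact hX _ (hx i)
  have h2 := finrank_span_eq_card hXi
  have h3 := finrank_span_eq_card hxi
  have _ : FiniteDimensional ℚ (Submodule.span ℚ (Set.range fun i => v (X i))) :=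
    FiniteDimensional.span_of_finite ℚ (Set.finite_range _)
  have h4 := Submodule.eq_of_le_of_finrank_eq h1 (by rw [h2, h3])
  intro g hg
  rw [h4]
  exact hX g hg

/-- Row H1 for one chart. -/
theorem hrone_of_chart [IsAlgClosed Ω] [IsAlgClosed k] (h : Ctx k v r) {D : ℕ}
    {E : IntermediateField k Ω} (hE : E.FG) (htr : Algebra.trdeg k E = (r + (D + 1) : ℕ))
    {x : Fin r → Ω} (hx : ∀ i, x i ≠ 0) (hxi : LinearIndependent ℚ fun i => v (x i))
    (F : Finset Ω) (hF : ∀ f ∈ F, v.Ge 0 f)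
    (hQF : QuoIs (LUC.adj (algebraMap k Ω).range (F : Set Ω)) E.toSubfield)
    {n : ℕ} {z : Fin n → Ω} (hpar : Par v (lv v (LUC.adj (algebraMap k Ω).range (F : Set Ω))) z)
    (hdim : ringKrullDim (lv v (LUC.adj (algebraMap k Ω).range (F : Set Ω))) = n)
    (hmono : ∀ i, ∃ (e : Fin n → ℤ) (u : Ω), u ≠ 0 ∧ v u = 0 ∧ x i = (∏ j, z j ^ e j) * u) :
    HRone v E := by
  classical
  have hxs := span_of_indep h hx hxi
  obtain ⟨m, hm, hm'⟩ := dim_eq_trdeg h.toCtx0 F hF hQF
  have hn : n = r + (D + 1) := by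
    rw [hdim] at hm'
    have h1 : n = m := by exact_mod_cast hm'
    rw [htr] at hm
    have h2 : r + (D + 1) = m := by exact_mod_cast hm
    omega
  subst hn
  obtain ⟨hzi, hhen⟩ := hen_of_chart h.toCtx0 hE htr F hF hQF hpar
  -- the values of the parameters span
  have hspan : ∀ g : Ω, g ≠ 0 → v g ∈ Submodule.span ℚ (Set.range fun i => v (z i)) := by
    intro g hg
    refine Submodule.span_le.2 ?_ (hxs g hg)
    rintro _ ⟨i, rfl⟩
    obtain ⟨e, u, hu0, hvu, hxe⟩ := hmono i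
    have h1 : v (x i) = ∑ j, (e j : ℚ) • v (z j) := by
      rw [hxe, v.map_mul (Finset.prod_ne_zero_iff.2 fun j _ => zpow_ne_zero _ (hpar.ne j)) hu0,
        hvu, add_zero, v.map_prod _ _ fun j _ => zpow_ne_zero _ (hpar.ne j)]
      refine Finset.sum_congr rfl fun j _ => ?_
      rw [v.map_zpow (hpar.ne j), Rat.smul_def]
      push_cast
      rfl
    show v (x i) ∈ _
    rw [h1]
    exact Submodule.sum_mem _ fun j _ => Submodule.smul_mem _ _ (Submodule.subset_span ⟨j, rfl⟩)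
  -- one of the values is in the span of the others
  have hdep : ¬ LinearIndependent ℚ fun i => v (z i) := by
    intro hli
    have h1 := finrank_span_eq_card hli
    have h2 := finrank_span_eq_card hxi
    have h3 : Submodule.span ℚ (Set.range fun i => v (z i)) =
        Submodule.span ℚ (Set.range fun i => v (x i)) := by
      apply le_antisymm
      · rw [Submodule.span_le]
        rintro _ ⟨i, rfl⟩
        exact hxs _ (hpar.ne i)
      · rw [Submodule.span_le]
        rintro _ ⟨i, rfl⟩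
        exact hspan _ (hx i)
    rw [h3, h2, Fintype.card_fin, Fintype.card_fin] at h1
    omega
  rw [linearIndependent_iff_notMem_span] at hdep
  push Not at hdep
  obtain ⟨j, hj⟩ := hdep
  have hrange : Submodule.span ℚ (Set.range fun i => v (z i)) ≤
      Submodule.span ℚ (Set.range fun i => v ((z ∘ j.succAbove) i)) := by
    have h1 : (fun i => v (z i)) '' (Set.univ \ {j}) ⊆
        Set.range fun i => v ((z ∘ j.succAbove) i) := by
      rintro _ ⟨i, hi, rfl⟩
      obtain ⟨l, rfl⟩ := Fin.exists_succAbove_eq (show i ≠ j from hi.2)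
      exact ⟨l, rfl⟩
    rw [Submodule.span_le]
    rintro _ ⟨i, rfl⟩
    rcases eq_or_ne i j with rfl | hij
    · exact Submodule.span_mono h1 hj
    · exact Submodule.subset_span (h1 ⟨i, ⟨Set.mem_univ _, hij⟩, rfl⟩)
  refine ⟨kr k (z ∘ j.succAbove), z j,
    IntermediateField.fg_adjoin_of_finite (Set.finite_range _), ?_, transc_succAbove hzi j, ?_⟩
  · exact full_of_span (x := z ∘ j.succAbove)
      (fun i => ⟨IntermediateField.subset_adjoin _ _ ⟨i, rfl⟩, hpar.ne _⟩)
      fun g hg => hrange (hspan g hg)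
  · rw [hhen, ← kr_succAbove]

/-- `φ` is an isometry for `v ∘ φ` and `v`. -/
theorem dense_cm (φ : Ω ≃ₐ[k] Ω) : TWM.Dense (cm v φ.toRingEquiv) v (φ : Ω →ₐ[k] Ω) where
  val _ _ := rfl
  dense x c := ⟨φ.symm x, by
    show v.Ge c (x - φ (φ.symm x))
    rw [φ.apply_symm_apply, sub_self]
    exact RVal.Ge.zero⟩

/-- `v ∘ φ` has the same rational rank. -/
theorem ctx_cm (h : Ctx k v r) (φ : Ω ≃ₐ[k] Ω) : Ctx k (cm v φ.toRingEquiv) r := by
  refine ⟨TWI.ctx0_cm h.toCtx0 fun c => φ.commutes c, h.rpos, ?_⟩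
  obtain ⟨X, hX0, hXi, hX⟩ := h.rank
  have e : (fun i => cm v φ.toRingEquiv (φ.symm (X i))) = fun i => v (X i) := by
    funext i
    show v (φ (φ.symm (X i))) = _
    rw [φ.apply_symm_apply]
  refine ⟨fun i => φ.symm (X i), fun i => (map_ne_zero φ.symm).2 (hX0 i), ?_, fun g hg => ?_⟩
  · rw [e]
    exact hXi
  · rw [e]
    exact hX _ ((map_ne_zero φ).2 hg)

/-- **The weak motion lemma**, without the characteristic. -/
theorem hrone_of_near' [IsAlgClosed Ω] [IsAlgClosed k] (h : Ctx k v r) {D : ℕ}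
    {E E₁ : IntermediateField k Ω} (hE : E.FG)
    (htr : Algebra.trdeg k E = (r + (D + 1) : ℕ)) {W : RVal Ω}
    (hW : ∀ c : k, c ≠ 0 → W (algebraMap k Ω c) = 0)
    (hLU : LUs W (algebraMap k Ω).range E.toSubfield) {x : Fin r → Ω}
    (hx : ∀ i, x i ∈ E ∧ x i ≠ 0)
    (hφ : ∀ U : Finset Ω, (∀ f ∈ U, f ∈ E ∧ f ≠ 0) → ∃ φ : Ω ≃ₐ[k] Ω,
      hen v (E.map (φ : Ω →ₐ[k] Ω)) = hen v E₁ ∧ LinearIndependent ℚ (fun i => v (φ (x i))) ∧
      ∀ f ∈ U, (0 < W f → 0 < v (φ f)) ∧ (W f = 0 → v (φ f) = 0)) : HRone v E₁ := by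
  classical
  obtain ⟨A, hA, hQ⟩ := exists_quo W hE
  obtain ⟨n, z, J, O, hM, hdim⟩ := hLU A hA hQ (Finset.univ.image x) (by
    intro t ht
    obtain ⟨i, -, rfl⟩ := Finset.mem_image.1 ht
    exact hx i)
  have hAE : ∀ a ∈ A, a ∈ E.toSubfield := fun a ha => hQ.1 a (LUC.mem_adj (Finset.mem_coe.2 ha))
  obtain ⟨g, G, S, hSE, hg, hg0, hG, hctl⟩ := TWT.exists_control W hW hA hM hdim
    (K := E.toSubfield) (fun c => E.algebraMap_mem c) hAE
  obtain ⟨φ, hφE, hφx, hφU⟩ := hφ ((S ∪ A).filter (· ≠ 0)) (by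
    intro f hf
    rw [Finset.mem_filter, Finset.mem_union] at hf
    rcases hf.1 with h1 | h1
    · exact ⟨hSE f h1, hf.2⟩
    · exact ⟨hAE f h1, hf.2⟩)
  obtain ⟨V, hV⟩ : ∃ V : RVal Ω, V = cm v φ.toRingEquiv := ⟨_, rfl⟩
  have hVφ : ∀ f, V f = v (φ f) := fun f => by rw [hV]; rfl
  have hVctx : Ctx k V r := by rw [hV]; exact ctx_cm h φ
  have hDom : Dom W V ((S ∪ A : Finset Ω) : Set Ω) := by
    intro f hf h0
    obtain ⟨h1, h2⟩ := hφU f (Finset.mem_filter.2 ⟨Finset.mem_coe.1 hf, h0⟩)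
    rw [hVφ]
    exact ⟨h2, h1⟩
  have hSU : (S : Set Ω) ⊆ ((S ∪ A : Finset Ω) : Set Ω) := by
    rw [Finset.coe_union]
    exact Set.subset_union_left
  have hAU : (A : Set Ω) ⊆ ((S ∪ A : Finset Ω) : Set Ω) := by
    rw [Finset.coe_union]
    exact Set.subset_union_right
  obtain ⟨m, y, -, hGg, -, hmod, hdimV⟩ := hctl V hVctx.triv (hDom.mono hSU)
  have hVA : ∀ a ∈ A, V.Ge 0 a := fun a ha => hDom.ge (hAU (Finset.mem_coe.2 ha)) (hA a ha)
  -- the generators of the chart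
  obtain ⟨F, hFdef⟩ : ∃ F : Finset Ω, F = A ∪ G.image (fun x => x / g) := ⟨_, rfl⟩
  have hFcoe : (A : Set Ω) ∪ (fun x => x / g) '' (G : Set Ω) = (F : Set Ω) := by
    rw [hFdef, Finset.coe_union, Finset.coe_image]
  rw [hFcoe] at hmod hdimV
  have hF : ∀ f ∈ F, V.Ge 0 f := by
    intro f hf
    rw [hFdef] at hf
    rcases Finset.mem_union.1 hf with hf | hf
    · exact hVA f hf
    · obtain ⟨y, hy, rfl⟩ := Finset.mem_image.1 hf
      intro h0
      have hy0 : y ≠ 0 := by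
        rintro rfl
        exact h0 (zero_div _)
      rw [V.map_div hy0 hg0]
      have := hGg y hy hy0
      linarith
  have hQF : QuoIs (LUC.adj (algebraMap k Ω).range (F : Set Ω)) E.toSubfield := by
    have hFE : ∀ f ∈ (F : Set Ω), f ∈ E.toSubfield := by
      intro f hf
      rw [hFdef] at hf
      rcases Finset.mem_union.1 (Finset.mem_coe.1 hf) with hf | hf
      · exact hAE f hf
      · obtain ⟨y, hy, rfl⟩ := Finset.mem_image.1 hf
        exact div_mem (hQ.1 y (hG y hy)) (hQ.1 g hg)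
    refine ⟨fun f hf => ?_, fun f hf => ?_⟩
    · exact LUC.adj_le (B := E.toSubfield.toSubring)
        (fun x hx => hQ.1 x (LUC.base_le_adj _ _ hx)) hFE hf
    · obtain ⟨a, ha, b, hb, hb0, e⟩ := hQ.2 f hf
      have hle : LUC.adj (algebraMap k Ω).range (A : Set Ω) ≤
          LUC.adj (algebraMap k Ω).range (F : Set Ω) := LUC.adj_mono le_rfl (by
        rw [← hFcoe]
        exact Set.subset_union_left)
      exact ⟨a, hle ha, b, hle hb, hb0, e⟩
  have hone : HRone V E := by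
    refine hrone_of_chart hVctx hE htr (x := x) (fun i => (hx i).2) ?_ F hF hQF hmod.par hdimV ?_
    · have e : (fun i => V (x i)) = fun i => v (φ (x i)) := funext fun i => hVφ _
      rw [e]
      exact hφx
    · intro i
      obtain ⟨e, u, -, hu0, hvu, hxe, -⟩ := hmod.mono (x i) (Finset.mem_coe.2
        (Finset.mem_image_of_mem x (Finset.mem_univ i)))
      exact ⟨e, u, hu0, hvu, hxe⟩
  rw [hV] at hone
  obtain ⟨N, t, hN, hNf, ht, hh⟩ := (TWM.Dense.hrone_iff (dense_cm φ)).2 hone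
  exact ⟨N, t, hN, hNf, ht, by rw [← hφE, hh]⟩

/-- ROW WM1, **the weak motion lemma**. -/
theorem hrone_of_near [IsAlgClosed Ω] [IsAlgClosed k] (p : ℕ) [Fact p.Prime] [CharP k p]
    [CharP Ω p] (h : Ctx k v r) {D : ℕ} {E E₁ : IntermediateField k Ω} (hE : E.FG)
    (htr : Algebra.trdeg k E = (r + (D + 1) : ℕ)) {W : RVal Ω}
    (hW : ∀ c : k, c ≠ 0 → W (algebraMap k Ω c) = 0)
    (hLU : LUs W (algebraMap k Ω).range E.toSubfield) {x : Fin r → Ω}
    (hx : ∀ i, x i ∈ E ∧ x i ≠ 0)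
    (hφ : ∀ U : Finset Ω, (∀ f ∈ U, f ∈ E ∧ f ≠ 0) → ∃ φ : Ω ≃ₐ[k] Ω,
      hen v (E.map (φ : Ω →ₐ[k] Ω)) = hen v E₁ ∧ LinearIndependent ℚ (fun i => v (φ (x i))) ∧
      ∀ f ∈ U, (0 < W f → 0 < v (φ f)) ∧ (W f = 0 → v (φ f) = 0)) : HRone v E₁ :=
  hrone_of_near' h hE htr hW hLU hx hφ

end Pool.Agent.TW
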