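import Pool.Agent.Lib.TW.Tr
import Pool.Agent.Lib.TW.P2a
import Pool.Agent.Lib.TWR.Defs

/-!
# TANK W, row WM11: it is enough to treat the fields over which `Ω` is algebraic

`W = acl E` is the algebraic closure of `E` in `Ω`; frames, `p`-bases and local uniformization of
`E` in `W` and in `Ω`.
-/

set_option autoImplicit false

open Polynomial

namespace Pool.Agent.TW

open Pool.Agent.H15JM (RVal)
open Pool.Agent.LU1 (VPos adj)
open Pool.Agent.LUC (Cl)
open Pool.Agent.D2 (Ctx0)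
open Pool.Agent.D2P (hen)
open Pool.Agent.LU3 (resv)

universe u

namespace WM11

variable {k Ω : Type u} [Field k] [Field Ω] [Algebra k Ω] {v : RVal Ω}
  {W : IntermediateField k Ω} {r D : ℕ}

/-- The image of a subring of `W`. -/
noncomputable def im (B : Subring W) : Subring Ω := B.map (algebraMap W Ω)

theorem mem_im {B : Subring W} {f : Ω} : f ∈ im B ↔ ∃ b ∈ B, (b : Ω) = f := Iff.rfl

theorem coe_mem_im {B : Subring W} {b : W} : (b : Ω) ∈ im B ↔ b ∈ B :=
  ⟨fun ⟨c, hc, h⟩ => by rwa [← Subtype.ext (h : (c : Ω) = b)], fun h => ⟨b, h, rfl⟩⟩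

theorem hclosed_im [IsAlgClosed W] {B : Subring W} (hB : HClosed (resv v W) B) :
    HClosed v (im B) where
  nonneg := by
    rintro _ ⟨b, hb, rfl⟩
    exact resv_ge.1 (hB.nonneg b hb)
  inv := by
    rintro _ ⟨b, hb, rfl⟩ h0 hv
    exact ⟨b⁻¹, hB.inv b hb (fun h => h0 (by rw [h]; exact map_zero _)) hv, map_inv₀ _ _⟩
  root := by
    intro g a hg ha h0 hd0 hdv
    have hlift : g ∈ lifts (algebraMap W Ω) := by
      rw [lifts_iff_coeff_lifts]
      intro i
      obtain ⟨b, -, hb⟩ := hg i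
      exact ⟨b, hb⟩
    obtain ⟨g₀, rfl⟩ := hlift
    have hcoef : ∀ i, g₀.coeff i ∈ B := by
      intro i
      have h1 := hg i
      rw [coe_mapRingHom, coeff_map] at h1
      exact coe_mem_im.1 h1
    rw [coe_mapRingHom] at h0 hd0 hdv
    have hne : g₀ ≠ 0 := by
      rintro rfl
      rw [Polynomial.map_zero, derivative_zero, eval_zero] at hd0
      exact hd0 rfl
    have hsp : g₀.Splits := IsAlgClosed.splits g₀
    have h1 : a ∈ (g₀.map (algebraMap W Ω)).roots :=
      (mem_roots (by rwa [Ne, Polynomial.map_eq_zero])).2 h0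
    rw [hsp.roots_map, Multiset.mem_map] at h1
    obtain ⟨a₀, -, rfl⟩ := h1
    have e1 : (g₀.map (algebraMap W Ω)).eval (algebraMap W Ω a₀) =
        algebraMap W Ω (g₀.eval a₀) := by
      rw [eval_map, eval₂_at_apply]
    have e2 : (g₀.map (algebraMap W Ω)).derivative.eval (algebraMap W Ω a₀) =
        algebraMap W Ω (g₀.derivative.eval a₀) := by
      rw [derivative_map, eval_map, eval₂_at_apply]
    rw [e1] at h0
    rw [e2] at hd0 hdv
    refine ⟨a₀, hB.root g₀ a₀ hcoef (resv_ge.2 ha) ?_ ?_ hdv, rfl⟩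
    · exact (map_eq_zero_iff _ (algebraMap W Ω).injective).1 h0
    · exact fun h => hd0 (by rw [h, map_zero])

theorem hclosed_comap {B : Subring Ω} (hB : HClosed v B) :
    HClosed (resv v W) (B.comap (algebraMap W Ω)) where
  nonneg := fun f hf => resv_ge.2 (hB.nonneg _ hf)
  inv := fun f hf h0 hv => by
    change algebraMap W Ω f⁻¹ ∈ B
    rw [map_inv₀]
    exact hB.inv _ hf (fun h => h0 ((map_eq_zero_iff _ (algebraMap W Ω).injective).1 h)) hv
  root := fun g a hg ha h0 hd0 hdv => by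
    change algebraMap W Ω a ∈ B
    have e1 : (g.map (algebraMap W Ω)).eval (algebraMap W Ω a) =
        algebraMap W Ω (g.eval a) := by
      rw [eval_map, eval₂_at_apply]
    have e2 : (g.map (algebraMap W Ω)).derivative.eval (algebraMap W Ω a) =
        algebraMap W Ω (g.derivative.eval a) := by
      rw [derivative_map, eval_map, eval₂_at_apply]
    refine hB.root (g.map (algebraMap W Ω)) _ (fun i => ?_) (resv_ge.1 ha) ?_ ?_ ?_
    · rw [coeff_map]
      exact hg i
    · rw [e1, h0, map_zero]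
    · rw [e2]
      exact fun h => hd0 ((map_eq_zero_iff _ (algebraMap W Ω).injective).1 h)
    · rw [e2]
      exact hdv

theorem hensA_im [IsAlgClosed W] {A : Subring W} (hA : ∀ a ∈ A, (resv v W).Ge 0 a) :
    hensA v (im A) = im (hensA (resv v W) A) := by
  apply le_antisymm
  · refine hensA_le ?_ (hclosed_im (hclosed_hensA hA))
    rintro _ ⟨a, ha, rfl⟩
    exact ⟨a, le_hensA A ha, rfl⟩
  · refine le_sInf fun B hB => ?_
    rintro _ ⟨a, ha, rfl⟩
    exact hensA_le (B := B.comap (algebraMap W Ω)) (fun c hc => hB.1 ⟨c, hc, rfl⟩)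
      (hclosed_comap hB.2) ha

/-! ## Frames -/

theorem mx_coe' (x : Fin r → W) (l : Fin r → ℤ) :
    ((mx x l : W) : Ω) = mx (fun i => (x i : Ω)) l := by
  have h := map_prod (algebraMap W Ω) (fun i => x i ^ l i) Finset.univ
  rw [show ((mx x l : W) : Ω) = algebraMap W Ω (∏ i, x i ^ l i) from rfl, h, mx]
  exact Finset.prod_congr rfl fun i _ => by rw [map_zpow₀]; rfl

theorem pcomb_coe {p n : ℕ} (t : Fin n → W) (c : (Fin n → Fin p) → W) :
    ((pcomb t c : W) : Ω) = pcomb (fun i => (t i : Ω)) fun α => (c α : Ω) := by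
  have h := map_sum (algebraMap W Ω) (fun α => c α ^ p * mon t α) Finset.univ
  rw [show ((pcomb t c : W) : Ω) = algebraMap W Ω (∑ α, c α ^ p * mon t α) from rfl, h, pcomb]
  refine Finset.sum_congr rfl fun α _ => ?_
  rw [map_mul, map_pow, mon, map_prod]
  congr 1

/-- A frame in `W` is a frame in `Ω`. -/
noncomputable def frm (F : Fr k (resv v W) r D) : Fr k v r D where
  x := fun i => (F.x i : Ω)
  y := fun j => (F.y j : Ω)
  x_ne := fun i h => F.x_ne i (Subtype.ext h)
  x_ind := F.x_ind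
  y_ne := fun j h => F.y_ne j (Subtype.ext h)
  y_pos := F.y_pos
  alg := by
    have h1 := F.alg.map' (f := W.val) W.val.injective
    have h2 : (⇑W.val ∘ Sum.elim F.x F.y : Fin r ⊕ Fin D → Ω) =
        Sum.elim (fun i => (F.x i : Ω)) fun j => (F.y j : Ω) := by
      funext s
      rcases s with s | s <;> rfl
    rwa [h2] at h1

theorem frm_P (F : Fr k (resv v W) r D) : (frm F).P = im F.P := by
  rw [Fr.P, Fr.P, ksub, ksub, im, RingHom.map_closure]
  congr 1
  rw [Set.image_union, Set.image_union]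
  congr 1
  · ext a
    constructor
    · rintro ⟨c, rfl⟩
      exact ⟨algebraMap k W c, ⟨c, rfl⟩, rfl⟩
    · rintro ⟨_, ⟨c, rfl⟩, rfl⟩
      exact ⟨c, rfl⟩
  · congr 1
    · ext a
      constructor
      · rintro ⟨l, rfl, h⟩
        refine ⟨mx F.x l, ⟨l, rfl, ?_⟩, mx_coe' F.x l⟩
        change 0 ≤ v ((mx F.x l : W) : Ω)
        rw [mx_coe']
        exact h
      · rintro ⟨_, ⟨l, rfl, h⟩, rfl⟩
        refine ⟨l, mx_coe' F.x l, ?_⟩
        exact h
    · ext a
      constructor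
      · rintro ⟨j, rfl⟩
        exact ⟨F.y j, ⟨j, rfl⟩, rfl⟩
      · rintro ⟨_, ⟨j, rfl⟩, rfl⟩
        exact ⟨j, rfl⟩

theorem frm_H [IsAlgClosed W] (h : Ctx k (resv v W) r) (F : Fr k (resv v W) r D) :
    (frm F).H = im F.H := by
  rw [Fr.H, Fr.H, frm_P, hensA_im (F.P_nonneg h)]

theorem frm_inHx [IsAlgClosed W] (h : Ctx k (resv v W) r) (F : Fr k (resv v W) r D) {f : W} :
    (frm F).InHx (f : Ω) ↔ F.InHx f := by
  refine exists_congr fun l => ?_
  have h1 : mx (frm F).x l * (f : Ω) = ((mx F.x l * f : W) : Ω) := by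
    have h2 := mx_coe' F.x l
    change mx (fun i => (F.x i : Ω)) l * (f : Ω) = ((mx F.x l : W) : Ω) * (f : Ω)
    rw [h2]
  rw [frm_H h, h1, coe_mem_im]

theorem mx_ne {x : Fin r → Ω} (hx : ∀ i, x i ≠ 0) (l : Fin r → ℤ) : mx x l ≠ 0 :=
  Finset.prod_ne_zero_iff.2 fun i _ => zpow_ne_zero _ (hx i)

theorem lu_map [IsAlgClosed W] {p : ℕ} (h : Ctx k (resv v W) r) {E : IntermediateField k Ω}
    (hE : E ≤ W) (hLU : LU p (resv v W) r (E.comap W.val : IntermediateField k W)) :
    LU p v r E := by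
  classical
  intro D t ht Z hZ
  have htW : ∀ i, t i ∈ W := fun i => hE (ht.mem i)
  set t₀ : Fin (r + D) → W := fun i => ⟨t i, htW i⟩ with ht₀
  have hpb : PBasis p (E.comap W.val : IntermediateField k W) t₀ := by
    refine ⟨fun i => ht.mem i, fun u hu => ?_, fun c hc h0 α => ?_⟩
    · obtain ⟨c, hc, h1⟩ := ht.span (u : Ω) hu
      refine ⟨fun α => ⟨c α, hE (hc α)⟩, fun α => hc α, Subtype.ext ?_⟩
      rw [pcomb_coe]
      exact h1
    · have h1 : ((pcomb t₀ c : W) : Ω) = ((0 : W) : Ω) := congrArg (fun a : W => (a : Ω)) h0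
      rw [pcomb_coe] at h1
      exact Subtype.ext (ht.ind (fun α => (c α : Ω)) (fun α => hc α) h1 α)
  have hZ' : ∀ z ∈ Z.subtype (· ∈ W), z ∈ (E.comap W.val : IntermediateField k W) ∧ z ≠ 0 := by
    intro z hz
    have h1 := hZ _ (Finset.mem_subtype.1 hz)
    exact ⟨h1.1, fun h => h1.2 (by rw [h]; rfl)⟩
  obtain ⟨F, hF, hM, hPC⟩ := hLU D t₀ hpb (Z.subtype (· ∈ W)) hZ'
  refine ⟨frm F, ⟨fun i => hF.x_mem i, fun j => hF.y_mem j, fun e he => ?_⟩, fun z hz => ?_,
    ⟨fun i => (frm_inHx h F).2 (hPC.mem i), ?_⟩⟩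
  · obtain ⟨a, ha, b, hb, hb0, h1⟩ := hF.frac ⟨e, hE he⟩ he
    rw [frm_H h]
    refine ⟨a, coe_mem_im.2 ha, b, coe_mem_im.2 hb, fun h => hb0 (Subtype.ext h), ?_⟩
    exact congrArg (fun a : W => (a : Ω)) h1
  · obtain ⟨l, w, hw, hw0, hwv, h1⟩ := hM ⟨z, hE (hZ z hz).1⟩ (Finset.mem_subtype.2 hz)
    refine ⟨l, w, ?_, fun h => hw0 (Subtype.ext h), hwv, ?_⟩
    · rw [frm_H h]
      exact coe_mem_im.2 hw
    · have h2 : z = ((mx F.x l * w : W) : Ω) := congrArg (fun a : W => (a : Ω)) h1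
      rw [h2, show ((mx F.x l * w : W) : Ω) = ((mx F.x l : W) : Ω) * (w : Ω) from rfl, mx_coe']
      rfl
  · intro f hf
    obtain ⟨l, hl⟩ := id hf
    rw [frm_H h] at hl
    obtain ⟨b, hb, hbf⟩ := hl
    have hne : mx (frm F).x l ≠ 0 := mx_ne (frm F).x_ne l
    have hfW : f ∈ W := by
      have h1 : f = ((mx F.x l : W) : Ω)⁻¹ * (b : Ω) := by
        have h2 : (b : Ω) = mx (frm F).x l * f := hbf
        rw [h2, mx_coe', ← mul_assoc]
        change f = (mx (frm F).x l)⁻¹ * mx (frm F).x l * f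
        rw [inv_mul_cancel₀ hne, one_mul]
      rw [h1]
      exact mul_mem (inv_mem (mx F.x l : W).2) b.2
    obtain ⟨c, hc, h1⟩ := hPC.span ⟨f, hfW⟩ ((frm_inHx h F).1 hf)
    refine ⟨fun α => (c α : Ω), fun α => (frm_inHx h F).2 (hc α), ?_⟩
    have h2 : f = ((pcomb t₀ c : W) : Ω) := congrArg (fun a : W => (a : Ω)) h1
    rw [pcomb_coe] at h2
    exact h2

/-- The context of `W = acl E`. -/
theorem ctx_acl (h : Ctx k v r) {E : IntermediateField k Ω} (hE : Full v E) (hEW : E ≤ W) :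
    Ctx k (resv v W) r where
  toCtx0 := ctx0_resv h.toCtx0 W
  rpos := h.rpos
  rank := by
    obtain ⟨x, hx, hind, hsp⟩ := hE.exists_span h
    exact ⟨fun i => ⟨x i, hEW (hx i).1⟩, fun i h0 => (hx i).2 (congrArg Subtype.val h0), hind,
      fun g hg => hsp (g : Ω) fun h0 => hg (Subtype.ext h0)⟩

theorem bd_comap {p : ℕ} {E : IntermediateField k Ω} (hE : BD p v E) (hEW : E ≤ W) :
    BD p (resv v W) (E.comap W.val : IntermediateField k W) := by
  obtain ⟨n, t, ht, C, hC⟩ := hE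
  refine ⟨n, fun i => ⟨t i, hEW (ht.mem i)⟩, ⟨fun i => ht.mem i, fun u hu => ?_,
    fun c hc h0 α => ?_⟩, C, fun c hc h0 α => ?_⟩
  · obtain ⟨c, hc, h1⟩ := ht.span (u : Ω) hu
    refine ⟨fun α => ⟨c α, hEW (hc α)⟩, fun α => hc α, Subtype.ext ?_⟩
    rw [pcomb_coe]
    exact h1
  · have h1 : ((pcomb (fun i => (⟨t i, hEW (ht.mem i)⟩ : W)) c : W) : Ω) = ((0 : W) : Ω) :=
      congrArg (fun a : W => (a : Ω)) h0
    rw [pcomb_coe] at h1
    exact Subtype.ext (ht.ind (fun α => (c α : Ω)) (fun α => hc α) h1 α)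
  · have h1 := hC (fun α => (c α : Ω)) (fun α => hc α) (by
      rw [← pcomb_coe (fun i => (⟨t i, hEW (ht.mem i)⟩ : W)) c]
      exact fun h => h0 (Subtype.ext h)) α
    rw [← pcomb_coe (fun i => (⟨t i, hEW (ht.mem i)⟩ : W)) c] at h1
    refine resv_ge.2 ?_
    have h2 : ((mon (fun i => (⟨t i, hEW (ht.mem i)⟩ : W)) α : W) : Ω) = mon t α := by
      have h := map_prod (algebraMap W Ω) (fun i => (⟨t i, hEW (ht.mem i)⟩ : W) ^ (α i : ℕ))
        Finset.univ
      rw [mon, mon]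
      exact h
    rw [← h2] at h1
    exact h1

end WM11

open WM11

/-- ROW WM11 (transfer). It is enough to treat the fields over which `Ω` is algebraic. -/
theorem lub_transfer {k Ω : Type u} [Field k] [Field Ω] [Algebra k Ω] {v : RVal Ω} {r : ℕ}
    [IsAlgClosed Ω] [IsAlgClosed k] (p : ℕ) [Fact p.Prime] [CharP k p]
    [CharP Ω p] (h : Ctx k v r) {n : ℕ}
    (H : ∀ (Ω' : Type u) [Field Ω'] [Algebra k Ω'] [IsAlgClosed Ω'] [CharP Ω' p] (v' : RVal Ω'),
      Ctx k v' r → ∀ E : IntermediateField k Ω', E.FG → (∀ g : Ω', IsAlgebraic E g) →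
        Algebra.trdeg k E = n → BD p v' E → LU p v' r E) : LUB p v k r n := by
  intro E hE hEf htr hBD
  set W := acl E with hWdef
  have hEW : E ≤ W := le_acl E
  have _ : IsAlgClosed W := acl_isAlgClosed E
  have _ : CharP W p := D2P.charP_field p W
  have hctx : Ctx k (resv v W) r := ctx_acl h hEf hEW
  refine lu_map hctx hEW (H W (resv v W) hctx (E.comap W.val) (fg_comap_val hEW hE)
    (fun g => ?_) ?_ (bd_comap hBD hEW))
  · have h1 : IsAlgebraic E (g : Ω) := mem_acl.1 g.2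
    obtain ⟨P, hP0, hP⟩ := h1
    let φ : E →+* (E.comap W.val : IntermediateField k W) :=
      { toFun := fun a => ⟨⟨(a : Ω), hEW a.2⟩, a.2⟩
        map_one' := rfl
        map_mul' := fun _ _ => rfl
        map_zero' := rfl
        map_add' := fun _ _ => rfl }
    refine ⟨P.map φ, (Polynomial.map_ne_zero_iff φ.injective).2 hP0, ?_⟩
    apply (algebraMap W Ω).injective
    rw [map_zero, aeval_def, eval₂_map, hom_eval₂]
    exact hP
  · rw [← htr]
    have e : (E.comap W.val : IntermediateField k W) ≃ₐ[k] E :=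
      AlgEquiv.ofBijective
        { toFun := fun a => ⟨((a : W) : Ω), a.2⟩
          map_one' := rfl
          map_mul' := fun _ _ => rfl
          map_zero' := rfl
          map_add' := fun _ _ => rfl
          commutes' := fun _ => rfl }
        ⟨fun a b hab => Subtype.ext (Subtype.ext (congrArg (fun z : E => (z : Ω)) hab)),
          fun b => ⟨⟨⟨b, hEW b.2⟩, b.2⟩, rfl⟩⟩
    exact e.trdeg_eq

end Pool.Agent.TW
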