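import Pool.Agent.Lib.TWW.WM9
import Pool.Agent.Lib.TWW.WM11
import Pool.Agent.Lib.TWR.R6
import Pool.Agent.Lib.TW.LUBD

/-!
# TANK W, row WM10: the reduction of the real valuations with residue field `k` to motions
-/

set_option autoImplicit false

namespace Pool.Agent.TW

open Pool.Agent.H15JM (RVal)
open Pool.Agent.LU1 (VPos adj)
open Pool.Agent.LUC (Cl LUs)
open Pool.Agent.D2 (Ctx0)
open Pool.Agent.D2P (hen mem_hen isAlgebraic_mono)

universe u

section

variable {k Ω : Type u} [Field k] [Field Ω] [Algebra k Ω] {v : RVal Ω} {r : ℕ}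

/-- `lus_rank_two_dim` with a lower bound of the rational rank. -/
theorem lus_rank_dim [IsAlgClosed Ω] [IsAlgClosed k] (p : ℕ) [Fact p.Prime] [CharP k p]
    [CharP Ω p] (n r₀ : ℕ) (hr₀ : 2 ≤ r₀)
    (hLU : ∀ (v : RVal Ω) (r : ℕ), Ctx k v r → r₀ ≤ r → r + 2 ≤ n → LUB p v k r n) :
    ∀ (m : ℕ) (v : RVal Ω) (r : ℕ), Ctx k v r → r₀ ≤ r → r + m = n → ∀ E : IntermediateField k Ω,
      E.FG → (∀ g : Ω, IsAlgebraic E g) → Algebra.trdeg k E = n →
      LUs v (algebraMap k Ω).range E.toSubfield := by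
  classical
  intro m
  induction m with
  | zero =>
    intro v r h hr hn E hE hΩ htr
    exact lus_of_defL p h.triv hE ((full_of_alg hΩ).exists_pos h)
      (R3.defL h (full_of_alg hΩ) (by rw [htr]; exact_mod_cast (by omega : n ≤ r + 1)))
  | succ m ih =>
    intro v r h hr hn E hE hΩ htr
    have hfull : Full v E := full_of_alg hΩ
    rcases Nat.eq_zero_or_pos m with rfl | hm
    · exact lus_of_defL p h.triv hE (hfull.exists_pos h)
        (R3.defL h hfull (by rw [htr]; exact_mod_cast (by omega : n ≤ r + 1)))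
    by_cases hBD : BD p v E
    · exact LU.lus p h hE hfull hBD htr (hLU v r h hr (by omega)) hΩ
    obtain ⟨L, z, hLfg, hLfull, hz, hlim, hh⟩ := hrone_of_not_bd p h hE hfull hΩ hBD
    have hzfg : (adj L z).FG := D2P.fg_adj hLfg z
    have hΩz : ∀ g : Ω, IsAlgebraic (adj L z) g := fun g =>
      D2P.isAlgebraic_trans (F := E) (fun a ha => by
        have h1 : a ∈ hen v (adj L z) := by
          rw [← hh]
          exact D2P.le_hen _ ha
        exact (mem_hen.1 h1).2.isIntegral.isAlgebraic) (hΩ g)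
    have htrz : Algebra.trdeg k (adj L z) = (n : Cardinal) := by
      rw [← HRLU.trdeg_hen (v := v) (adj L z), ← hh, HRLU.trdeg_hen, htr]
    refine lus_of_hen_eq h hE hzfg hΩ hh ?_
    obtain ⟨x, hx, hxi, hspan⟩ := hLfull.exists_span h
    have hind : LinearIndependent ℚ ![v (x ⟨0, by omega⟩), v (x ⟨1, by omega⟩)] := by
      have h1 := hxi.comp (![⟨0, by omega⟩, ⟨1, by omega⟩] : Fin 2 → Fin r) (by
        intro i j hij
        fin_cases i <;> fin_cases j <;> simp_all)
      have h2 : (fun i => v (x i)) ∘ (![⟨0, by omega⟩, ⟨1, by omega⟩] : Fin 2 → Fin r) =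
          ![v (x ⟨0, by omega⟩), v (x ⟨1, by omega⟩)] := by
        funext i
        fin_cases i <;> rfl
      rwa [h2] at h1
    refine lus_of_irr h.toCtx0 hLfg (hx _).1 (hx _).1 (hx _).2 (hx _).2 hind hz hΩz hlim ?_
    intro W α hW0 hWv hα hirr
    exact ih W (r + 1) (R3.ctx_succ h hLfull hz hΩz hW0 hWv hα hirr) (by omega) (by omega)
      (adj L z) hzfg hΩz htrz

/-- `lus_dim_four` in one dimension `n ≤ 4`. -/
theorem lus_dim_le_four [IsAlgClosed Ω] [IsAlgClosed k] (p : ℕ) [Fact p.Prime] [CharP k p]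
    [CharP Ω p] {n : ℕ} (hn4 : n ≤ 4)
    (hLU : ∀ (v : RVal Ω) (r : ℕ), Ctx k v r → ∀ m, r + 2 ≤ m → m ≤ n → LUB p v k r m)
    (h : Ctx k v r) {E : IntermediateField k Ω} (hE : E.FG) (hΩ : ∀ g : Ω, IsAlgebraic E g)
    (hn : Algebra.trdeg k E = n) : LUs v (algebraMap k Ω).range E.toSubfield := by
  have hfull : Full v E := full_of_alg hΩ
  have hrn : r ≤ n := hfull.rank_le h hn
  obtain ⟨m, hm⟩ := Nat.exists_eq_add_of_le hrn
  have hrpos := h.rpos
  by_cases hr : 2 ≤ r
  · exact lus_rank_dim p n 2 le_rfl (fun v' r' h' _ hr' => hLU v' r' h' n hr' le_rfl) m v r h hr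
      hm.symm E hE hΩ hn
  obtain rfl : r = 1 := by omega
  refine lus_codim_one p h (fun m' h1 h2 => hLU v 1 h m' h1 h2) hE hΩ hn ?_
  intro L₀ _ hfull₀ _ h2
  refine R3.defL h hfull₀ ?_
  rw [hn] at h2
  have h3 : Algebra.trdeg k L₀ < Cardinal.aleph0 :=
    ((self_le_add_right _ _).trans h2).trans_lt Cardinal.natCast_lt_aleph0
  obtain ⟨d, hd⟩ := Cardinal.lt_aleph0.1 h3
  rw [hd] at h2 ⊢
  have h4 : d + 2 ≤ n := by exact_mod_cast h2
  exact_mod_cast (by omega : d ≤ 1 + 1)

end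

section

variable {k : Type u} [Field k]

/-- `LU` for the fields with bounded distortion of dimension `n ≤ N`, all the rational ranks. -/
theorem lub_of_mob_all [IsAlgClosed k] (p : ℕ) [Fact p.Prime] [CharP k p] (N : ℕ)
    (hMob : ∀ (Ω : Type u) [Field Ω] [Algebra k Ω] [IsAlgClosed Ω] [CharP Ω p] (v : RVal Ω)
      (r n : ℕ), Ctx k v r → r + 2 ≤ n → n ≤ N → MobQ0 p v k r n) :
    ∀ n : ℕ, n ≤ N → ∀ (Ω : Type u) [Field Ω] [Algebra k Ω] [IsAlgClosed Ω] [CharP Ω p]
      (v : RVal Ω) (r : ℕ), Ctx k v r → LUB p v k r n := by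
  intro n
  induction n using Nat.strong_induction_on with
  | _ n ihn =>
    intro hnN
    -- downward induction on the rational rank
    have key : ∀ (m r : ℕ), n ≤ r + 1 + m → ∀ (Ω : Type u) [Field Ω] [Algebra k Ω]
        [IsAlgClosed Ω] [CharP Ω p] (v : RVal Ω), Ctx k v r → LUB p v k r n := by
      intro m
      induction m with
      | zero =>
        intro r hr Ω _ _ _ _ v h
        exact lu_bd p h n (fun n' h1 h2 => by omega) n le_rfl
      | succ m ihm =>
        intro r hr Ω _ _ _ _ v h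
        by_cases hrn : n ≤ r + 1
        · exact lu_bd p h n (fun n' h1 h2 => by omega) n le_rfl
        refine lub_transfer p h ?_
        intro Ω' _ _ _ _ v' h' E hE hΩ htr hBD
        have hrpos := h.rpos
        refine (lub_of_mob p h' (n := n) (by omega) (hMob Ω' v' r n h' (by omega) hnN)
          (fun m' hm' => ihn m' hm' (by omega) Ω' v' r h') ?_ hE hΩ htr hBD).2
        intro W hW E' hE' hΩ'' htr'
        have hrank : r + 1 ≤ n := by omega
        obtain ⟨d, hd⟩ := Nat.exists_eq_add_of_le hrank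
        exact lus_rank_dim p n (r + 1) (by omega)
          (fun v'' r'' h'' hr'' _ => ihm r'' (by omega) Ω' v'' h'') d W (r + 1) hW le_rfl hd.symm
          E' hE' hΩ'' htr'
    intro Ω _ _ _ _ v r h
    exact key n r (by omega) Ω v h

/-- ROW WM10. -/
theorem lus_of_mob [IsAlgClosed k] (p : ℕ) [Fact p.Prime] [CharP k p] (N : ℕ)
    (hMob : ∀ (Ω : Type u) [Field Ω] [Algebra k Ω] [IsAlgClosed Ω] [CharP Ω p] (v : RVal Ω)
      (r n : ℕ), Ctx k v r → r + 2 ≤ n → n ≤ N → MobQ0 p v k r n) :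
    ∀ (Ω : Type u) [Field Ω] [Algebra k Ω] [IsAlgClosed Ω] [CharP Ω p] (v : RVal Ω)
      (r n : ℕ), Ctx k v r → n ≤ N → ∀ E : IntermediateField k Ω, E.FG →
        (∀ g : Ω, IsAlgebraic E g) → Algebra.trdeg k E = n → (2 ≤ r ∨ BD p v E ∨ n ≤ 4) →
          LUs v (algebraMap k Ω).range E.toSubfield := by
  intro Ω _ _ _ _ v r n h hnN E hE hΩ htr hcase
  have hall := lub_of_mob_all p N hMob
  have hfull : Full v E := full_of_alg hΩ
  rcases hcase with hr | hBD | hn4
  · have hrn : r ≤ n := hfull.rank_le h htr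
    obtain ⟨m, hm⟩ := Nat.exists_eq_add_of_le hrn
    exact lus_rank_dim p n 2 le_rfl (fun v' r' h' _ _ => hall n hnN Ω v' r' h') m v r h hr
      hm.symm E hE hΩ htr
  · exact LU.lus p h hE hfull hBD htr (hall n hnN Ω v r h) hΩ
  · exact lus_dim_le_four p hn4 (fun v' r' h' m _ hm => hall m (hm.trans hnN) Ω v' r' h') h hE hΩ
      htr

end

end Pool.Agent.TW
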