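import Pool.Agent.Lib.TWW.Defs
import Pool.Agent.Lib.TWG.G7
import Pool.Agent.Lib.TWM.A1

/-!
# TANK W, skeleton M, row WM8: leading terms in the henselization
-/

set_option autoImplicit false

open Polynomial Filter Topology

namespace Pool.Agent.TW

open Pool.Agent.H15JM (RVal)
open Pool.Agent.LU1 (VPos adj)
open Pool.Agent.LUC (Cl LUs lv le_lv lv_le lv_inv lv_nonneg base_le_adj mem_adj IP)
open Pool.Agent.D2 (Ctx0)
open Pool.Agent.D2P (hen)
open Pool.Agent.TWM (Gt)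

universe u

variable {k Ω : Type u} [Field k] [Field Ω] [Algebra k Ω] {v : RVal Ω}

namespace WM8

theorem val_zpow {x : Ω} (hx : x ≠ 0) (m : ℤ) : v (x ^ m) = m * v x := by
  obtain ⟨n, rfl | rfl⟩ := m.eq_nat_or_neg
  · rw [zpow_natCast, v.map_pow hx]
    push_cast
    ring
  · rw [zpow_neg, zpow_natCast, v.map_inv (pow_ne_zero _ hx), v.map_pow hx]
    push_cast
    ring

/-- The elements of positive value of the local ring of `k[t]`. -/
theorem lv_gen (h : Ctx0 k v) {n : ℕ} {t : Fin n → Ω} (ht : ∀ i, VPos v (t i)) :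
    ∀ f ∈ lv v (LUC.adj (algebraMap k Ω).range (Set.range t)), VPos v f →
      IP (lv v (LUC.adj (algebraMap k Ω).range (Set.range t))) t 1 f := by
  have hsm : ∀ (t : Fin n → Ω) (i : Fin n),
      t i ∈ lv v (LUC.adj (algebraMap k Ω).range (Set.range t)) :=
    fun t i => le_lv v _ (mem_adj ⟨i, rfl⟩)
  intro f hf hfv
  obtain ⟨a, ha, b, hb, hb0, hbv, rfl⟩ := hf
  rw [adj_eq_ksub] at ha
  obtain ⟨P, rfl⟩ := mem_ksub_iff.1 ha
  have h1 := aeval_vpos h ht P
  have h2 : VPos v (MvPolynomial.aeval t P) := by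
    have h3 : MvPolynomial.aeval t P = b * (MvPolynomial.aeval t P / b) := by
      field_simp
    rw [h3]
    refine LU1.VPos.mul' (fun _ => ?_) hfv
    rw [hbv]
  have h3 : VPos v (algebraMap k Ω (MvPolynomial.constantCoeff P)) := by
    have h4 := h2.sub h1
    rwa [sub_sub_cancel] at h4
  have h4 := h.const_eq_zero h3
  have h5 : ∀ Q : MvPolynomial (Fin n) k,
      IP (lv v (LUC.adj (algebraMap k Ω).range (Set.range t))) t 1
        (MvPolynomial.aeval t Q - algebraMap k Ω (MvPolynomial.constantCoeff Q)) := by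
    intro Q
    induction Q using MvPolynomial.induction_on with
    | C c =>
      rw [MvPolynomial.aeval_C, MvPolynomial.constantCoeff_C, sub_self]
      exact LUC.IP.zero
    | add P Q hP hQ =>
      have e : MvPolynomial.aeval t (P + Q) -
          algebraMap k Ω (MvPolynomial.constantCoeff (P + Q)) =
          (MvPolynomial.aeval t P - algebraMap k Ω (MvPolynomial.constantCoeff P)) +
          (MvPolynomial.aeval t Q - algebraMap k Ω (MvPolynomial.constantCoeff Q)) := by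
        simp only [map_add]
        ring
      rw [e]
      exact hP.add hQ
    | mul_X P i hP =>
      have e : MvPolynomial.aeval t (P * MvPolynomial.X i) -
          algebraMap k Ω (MvPolynomial.constantCoeff (P * MvPolynomial.X i)) =
          MvPolynomial.aeval t P * t i := by
        simp
      rw [e]
      refine (LUC.IP.gen (hsm t i)).mul_left ?_
      refine le_lv v _ ?_
      rw [adj_eq_ksub]
      exact mem_ksub_iff.2 ⟨P, rfl⟩
  have h6 := h5 P
  rw [h4, map_zero, sub_zero] at h6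
  rw [div_eq_mul_inv]
  exact h6.mul_right (lv_inv (le_lv v _ hb) hb0 hbv)

variable {δ : ℕ → Ω} {φ : ℕ → (Ω ≃ₐ[k] Ω)}

/-- The value of `φ i e`. -/
theorem val_of_lt (hδ : ∀ i, δ i ≠ 0) {e a : Ω} {m : ℤ} (h : LT v δ φ e a m) :
    ∀ᶠ i in atTop, φ i e ≠ 0 ∧ v (φ i e) = v a + m * v (δ i) := by
  filter_upwards [h.2] with i hi
  have h0 : a * δ i ^ m ≠ 0 := mul_ne_zero h.1 (zpow_ne_zero _ (hδ i))
  have hv : v (a * δ i ^ m) = v a + m * v (δ i) := by
    rw [v.map_mul h.1 (zpow_ne_zero _ (hδ i)), val_zpow (hδ i)]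
  rw [← hv] at hi ⊢
  exact TWM.Gt.val_eq h0 hi.sub_comm'

theorem lt_mul (hδ : ∀ i, δ i ≠ 0) {e e' a a' : Ω} {m m' : ℤ}
    (h : LT v δ φ e a m) (h' : LT v δ φ e' a' m') : LT v δ φ (e * e') (a * a') (m + m') := by
  refine ⟨mul_ne_zero h.1 h'.1, ?_⟩
  filter_upwards [h.2, h'.2, val_of_lt hδ h] with i h1 h2 h3
  have e1 : φ i (e * e') - a * a' * δ i ^ (m + m') =
      φ i e * (φ i e' - a' * δ i ^ m') + (φ i e - a * δ i ^ m) * (a' * δ i ^ m') := by
    rw [map_mul, zpow_add₀ (hδ i)]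
    ring
  have hv' : v (a' * δ i ^ m') = v a' + m' * v (δ i) := by
    rw [v.map_mul h'.1 (zpow_ne_zero _ (hδ i)), val_zpow (hδ i)]
  rw [e1, v.map_mul h.1 h'.1]
  refine TWM.Gt.add ?_ ?_
  · have h4 := h2.mul_ge (RVal.ge_self (v := v) (φ i e))
    rw [h3.2] at h4
    rw [mul_comm (φ i e)]
    exact h4.mono (by push_cast; linarith)
  · have h4 := h1.mul_ge (RVal.ge_self (v := v) (a' * δ i ^ m'))
    rw [hv'] at h4
    exact h4.mono (by push_cast; linarith)

theorem lt_inv (hδ : ∀ i, δ i ≠ 0) {e a : Ω} {m : ℤ} (h : LT v δ φ e a m) :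
    LT v δ φ e⁻¹ a⁻¹ (-m) := by
  refine ⟨inv_ne_zero h.1, ?_⟩
  filter_upwards [h.2, val_of_lt hδ h] with i h1 h2
  have h3 : δ i ^ m ≠ 0 := zpow_ne_zero _ (hδ i)
  have hv' : v (a * δ i ^ m) = v a + m * v (δ i) := by
    rw [v.map_mul h.1 h3, val_zpow (hδ i)]
  have e1 : φ i e⁻¹ - a⁻¹ * δ i ^ (-m) =
      -(φ i e - a * δ i ^ m) * ((φ i e)⁻¹ * (a * δ i ^ m)⁻¹) := by
    rw [map_inv₀, zpow_neg]
    have h4 := h2.1
    have h5 := h.1
    field_simp
    ring
  rw [e1]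
  have h6 := h1.neg.mul_ge (RVal.ge_self (v := v) ((φ i e)⁻¹ * (a * δ i ^ m)⁻¹))
  refine h6.mono ?_
  rw [v.map_mul (inv_ne_zero h2.1) (inv_ne_zero (mul_ne_zero h.1 h3)), v.map_inv h2.1,
    v.map_inv (mul_ne_zero h.1 h3), h2.2, hv', v.map_inv h.1]
  push_cast
  linarith

/-- The image of an element of `(s)^M`. -/
theorem ge_map_ip {B : Subring Ω} {n : ℕ} {s : Fin n → Ω} (hs : ∀ j, s j ∈ B)
    (hB : ∀ f ∈ B, v.Ge 0 f) {ψ : Ω ≃ₐ[k] Ω} {ε : ℝ} (hψ : ∀ f ∈ B, ψ f ∈ B)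
    (hψs : ∀ j, v.Ge ε (ψ (s j))) {M : ℕ} {f : Ω} (hf : IP B s M f) :
    v.Ge (M * ε) (ψ f) := by
  obtain ⟨c, hc, rfl⟩ := (LUC.IP.sum_iff hs).1 hf
  rw [map_sum]
  refine RVal.Ge.sum _ _ fun χ _ => ?_
  rw [map_mul, map_prod]
  have h1 : ∀ S : Finset (Fin M), v.Ge (S.card * ε) (∏ l ∈ S, ψ (s (χ l))) := by
    classical
    intro S
    induction S using Finset.induction_on with
    | empty =>
      rw [Finset.prod_empty, Finset.card_empty, Nat.cast_zero, zero_mul]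
      exact fun _ => by rw [v.map_one]
    | insert a S ha ih =>
      rw [Finset.prod_insert ha, Finset.card_insert_of_notMem ha]
      refine ((hψs (χ a)).mul ih).mono ?_
      push_cast
      linarith
  have h2 := h1 Finset.univ
  rw [Finset.card_univ, Fintype.card_fin] at h2
  have h3 := (hB _ (hψ _ (hc χ))).mul h2
  rwa [zero_add] at h3

/-- `φ i e` does not tend to `0`. -/
theorem exists_bound {E : IntermediateField k Ω} {ρ : ℝ} (hδ : ∀ i, δ i ≠ 0)
    (hlim : Tendsto (fun i => v (δ i)) atTop (𝓝 ρ))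
    (hLT : ∀ e ∈ E, e ≠ 0 → ∃ a m, LT v δ φ e a m) {e : Ω} (he : IsAlgebraic E e) (he0 : e ≠ 0) :
    ∃ C : ℝ, ∀ᶠ i in atTop, v (φ i e) ≤ C := by
  classical
  -- an equation with constant term
  obtain ⟨P, hP0, hPe⟩ : ∃ P : Polynomial E, P.coeff 0 ≠ 0 ∧ aeval e P = 0 := by
    refine ⟨minpoly E e, ?_, minpoly.aeval E e⟩
    intro h0
    have h1 := minpoly.coeff_zero_ne_zero he.isIntegral he0
    exact h1 h0
  -- the values of the coefficients
  have hco : ∀ l : ℕ, P.coeff l ≠ 0 → ∃ B : ℝ, ∀ᶠ i in atTop,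
      |v (φ i (P.coeff l : Ω))| ≤ B := by
    intro l hl
    obtain ⟨a, m, h1⟩ := hLT (P.coeff l : Ω) (P.coeff l).2 (by
      intro h2
      exact hl (Subtype.ext h2))
    have h2 : Tendsto (fun i => v a + m * v (δ i)) atTop (𝓝 (v a + m * ρ)) :=
      tendsto_const_nhds.add (hlim.const_mul _)
    refine ⟨|v a + m * ρ| + 1, ?_⟩
    have h3 := (h2.abs.eventually_le_const (lt_add_one _))
    filter_upwards [h3, val_of_lt hδ h1] with i h4 h5
    rw [h5.2]
    exact h4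
  have hcoS : ∀ S : Finset ℕ, ∃ B : ℝ, ∀ᶠ i in atTop, ∀ l ∈ S, P.coeff l ≠ 0 →
      |v (φ i (P.coeff l : Ω))| ≤ B := by
    intro S
    induction S using Finset.induction_on with
    | empty => exact ⟨0, Eventually.of_forall fun i l hl => absurd hl (Finset.notMem_empty l)⟩
    | insert a S ha ih =>
      obtain ⟨B, hB⟩ := ih
      by_cases h0 : P.coeff a = 0
      · refine ⟨B, hB.mono fun i hi l hl hl0 => ?_⟩
        rcases Finset.mem_insert.1 hl with rfl | hl
        · exact absurd h0 hl0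
        · exact hi l hl hl0
      · obtain ⟨B', hB'⟩ := hco a h0
        refine ⟨max B B', ?_⟩
        filter_upwards [hB, hB'] with i h1 h2 l hl hl0
        rcases Finset.mem_insert.1 hl with rfl | hl
        · exact h2.trans (le_max_right _ _)
        · exact (h1 l hl hl0).trans (le_max_left _ _)
  obtain ⟨B, hB⟩ := hcoS (Finset.range (P.natDegree + 1))
  refine ⟨2 * B + 1, hB.mono fun i hi => ?_⟩
  by_contra hcon
  push Not at hcon
  have hφe : φ i e ≠ 0 := by simpa using he0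
  have hB0 : 0 ≤ B := (abs_nonneg _).trans (hi 0 (Finset.mem_range.2 (Nat.succ_pos _)) hP0)
  -- the equation for `φ i e`
  have h1 : ∑ l ∈ Finset.range (P.natDegree + 1), φ i (P.coeff l : Ω) * φ i e ^ l = 0 := by
    have h2 := congrArg (φ i) hPe
    rw [aeval_eq_sum_range, map_sum, map_zero] at h2
    rw [← h2]
    refine Finset.sum_congr rfl fun l _ => ?_
    rw [Algebra.smul_def, map_mul, map_pow]
    rfl
  rw [Finset.sum_range_succ', pow_zero, mul_one] at h1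
  have h2 : φ i (P.coeff 0 : Ω) =
      -∑ l ∈ Finset.range P.natDegree, φ i (P.coeff (l + 1) : Ω) * φ i e ^ (l + 1) := by
    linear_combination h1
  have h3 : v.Ge (B + 1) (φ i (P.coeff 0 : Ω)) := by
    rw [h2]
    refine RVal.Ge.neg (RVal.Ge.sum _ _ fun l hl => ?_)
    intro h4
    have h5 : φ i (P.coeff (l + 1) : Ω) ≠ 0 := left_ne_zero_of_mul h4
    rw [v.map_mul h5 (pow_ne_zero _ hφe), v.map_pow hφe]
    have h6 : P.coeff (l + 1) ≠ 0 := by
      intro h7
      rw [h7] at h5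
      exact h5 (map_zero _)
    have h7 := hi (l + 1) (Finset.mem_range.2 (by have := Finset.mem_range.1 hl; omega)) h6
    have h8 := (abs_le.1 h7).1
    push_cast
    have h9 : (0 : ℝ) ≤ l := Nat.cast_nonneg l
    nlinarith
  have h4 : φ i (P.coeff 0 : Ω) ≠ 0 := by
    simp only [ne_eq, EmbeddingLike.map_eq_zero_iff, ZeroMemClass.coe_eq_zero]
    exact hP0
  have h5 := h3 h4
  have h6 := (abs_le.1 (hi 0 (Finset.mem_range.2 (Nat.succ_pos _)) hP0)).2
  linarith

end WM8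

open WM8 in
/-- ROW WM8. Leading terms pass to the field of fractions of the henselization. -/
theorem lt_of_hensA [IsAlgClosed Ω] (h : Ctx0 k v) {n : ℕ} {s : Fin n → Ω}
    (hpos : ∀ i, VPos v (s i)) {δ : ℕ → Ω} {ρ : ℝ} (hδ : ∀ i, δ i ≠ 0)
    (hlim : Tendsto (fun i => v (δ i)) atTop (𝓝 ρ)) {φ : ℕ → (Ω ≃ₐ[k] Ω)} {ε : ℝ} (hε : 0 < ε)
    (hφ : ∀ i, ∀ f ∈ hensA v (lv v (LUC.adj (algebraMap k Ω).range (Set.range s))),
      φ i f ∈ hensA v (lv v (LUC.adj (algebraMap k Ω).range (Set.range s))))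
    (hφs : ∀ i j, v.Ge ε (φ i (s j)))
    (hLT : ∀ e ∈ IntermediateField.adjoin k (Set.range s), e ≠ 0 → ∃ a m, LT v δ φ e a m) {e : Ω}
    (he : InFrac (hensA v (lv v (LUC.adj (algebraMap k Ω).range (Set.range s)))) e)
    (he0 : e ≠ 0) : ∃ a m, LT v δ φ e a m := by
  obtain ⟨R, hR⟩ : ∃ R : Subring Ω, R = lv v (LUC.adj (algebraMap k Ω).range (Set.range s)) :=
    ⟨_, rfl⟩
  obtain ⟨E, hE⟩ : ∃ E : IntermediateField k Ω, E = IntermediateField.adjoin k (Set.range s) :=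
    ⟨_, rfl⟩
  have hgen := lv_gen h hpos
  rw [← hR] at hφ he hgen
  rw [← hE] at hLT
  have hR0 : ∀ f ∈ R, v.Ge 0 f := by
    rw [hR]
    refine lv_nonneg (LUC.adj_nonneg ?_ ?_)
    · rintro _ ⟨c, rfl⟩
      exact h.ge c
    · rintro _ ⟨i, rfl⟩
      exact (hpos i).ge
  have hk : ∀ c : k, algebraMap k Ω c ∈ R := fun c => by
    rw [hR]
    exact le_lv v _ (base_le_adj _ _ ⟨c, rfl⟩)
  have hsR : ∀ i, s i ∈ R := fun i => by
    rw [hR]
    exact le_lv v _ (mem_adj ⟨i, rfl⟩)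
  have hB := hclosed_hensA hR0
  have hRE : ∀ f ∈ R, f ∈ E := by
    have h1 : LUC.adj (algebraMap k Ω).range (Set.range s) ≤ E.toSubfield.toSubring :=
      LUC.adj_le (by
        rintro _ ⟨c, rfl⟩
        exact E.algebraMap_mem c) (by
        rintro _ ⟨i, rfl⟩
        rw [hE]
        exact IntermediateField.subset_adjoin k _ ⟨i, rfl⟩)
    intro f hf
    rw [hR] at hf
    obtain ⟨a, ha, b, hb, -, -, rfl⟩ := hf
    exact div_mem (h1 ha) (h1 hb)
  -- the elements of the henselization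
  have key : ∀ f ∈ hensA v R, f ≠ 0 → ∃ a m, LT v δ φ f a m := by
    intro f hf hf0
    obtain ⟨C, hC⟩ := exists_bound hδ hlim hLT (hensA_algebraic hR0 hRE f hf) hf0
    obtain ⟨M, hM⟩ := exists_nat_gt (C / ε)
    rw [div_lt_iff₀ hε] at hM
    obtain ⟨f₀, hf₀, hIP⟩ := hensA_approx h hR0 hk hsR hgen M f hf
    have hrem : ∀ i, v.Ge (M * ε) (φ i (f - f₀)) := fun i =>
      ge_map_ip (fun j => le_hensA R (hsR j)) hB.nonneg (hφ i) (hφs i) hIP
    have hval : ∀ᶠ i in atTop, φ i f₀ ≠ 0 ∧ v (φ i f₀) ≤ C := by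
      filter_upwards [hC] with i hi
      have h0 : φ i f ≠ 0 := by simpa using hf0
      have h1 : Gt v (v (φ i f)) (φ i f - φ i f₀) := by
        rw [← map_sub]
        exact TWM.Gt.of_ge (hrem i) (hi.trans_lt hM)
      have h2 := TWM.Gt.val_eq h0 h1
      exact ⟨h2.1, h2.2.trans_le hi⟩
    have hf₀0 : f₀ ≠ 0 := by
      obtain ⟨i, hi⟩ := hval.exists
      intro h0
      exact hi.1 (by rw [h0, map_zero])
    obtain ⟨a, m, hLTf⟩ := hLT f₀ (hRE f₀ hf₀) hf₀0
    refine ⟨a, m, hLTf.1, ?_⟩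
    filter_upwards [hLTf.2, val_of_lt hδ hLTf, hval] with i h1 h2 h3
    have e1 : φ i f - a * δ i ^ m = φ i (f - f₀) + (φ i f₀ - a * δ i ^ m) := by
      rw [map_sub]
      ring
    rw [e1]
    refine TWM.Gt.add (TWM.Gt.of_ge (hrem i) ?_) h1
    rw [← h2.2]
    exact h3.2.trans_lt hM
  obtain ⟨a, ha, b, hb, hb0, rfl⟩ := he
  have ha0 : a ≠ 0 := fun h0 => he0 (by rw [h0, zero_div])
  obtain ⟨x, m, h1⟩ := key a ha ha0
  obtain ⟨y, m', h2⟩ := key b hb hb0
  refine ⟨x * y⁻¹, m + -m', ?_⟩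
  rw [div_eq_mul_inv]
  exact lt_mul hδ h1 (lt_inv hδ h2)

end Pool.Agent.TW
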