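import Pool.Agent.Lib.TWW.WM4
import Pool.Agent.Lib.TWW.WM8

/-!
# TANK W, skeleton M, row WM12: motions from coordinates

`s` coordinates of `K₀` (`hen v K₀ = hen v k(s)`), `s'_i ≡ J_i s` modulo `(s)²`, `det J_i` a unit,
the leading terms of the `P(s'_i)` are given: a family of motions `φ_i s = s'_i`.
-/

set_option autoImplicit false

open Polynomial Filter Topology

namespace Pool.Agent.TW

open Pool.Agent.H15JM (RVal)
open Pool.Agent.LU1 (VPos adj)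
open Pool.Agent.LUC (Cl LUs lv le_lv lv_le lv_inv lv_nonneg base_le_adj mem_adj IP)
open Pool.Agent.D2 (Ctx0)
open Pool.Agent.D2P (hen hen_le hen_hen le_hen)
open Pool.Agent.TWM (Gt)

universe u

variable {k Ω : Type u} [Field k] [Field Ω] [Algebra k Ω] {v : RVal Ω}

namespace WM12

/-- `P(s'_i)` has the leading term `a (δ i)^m`. -/
def LTp (v : RVal Ω) (δ : ℕ → Ω) {n : ℕ} (s' : ℕ → Fin n → Ω) (P : MvPolynomial (Fin n) k)
    (a : Ω) (m : ℤ) : Prop :=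
  a ≠ 0 ∧ ∀ᶠ i in atTop, Gt v (v a + m * v (δ i)) (MvPolynomial.aeval (s' i) P - a * δ i ^ m)

theorem aeval_map {n : ℕ} {s s' : Fin n → Ω} {φ : Ω ≃ₐ[k] Ω} (hφ : ∀ j, φ (s j) = s' j)
    (P : MvPolynomial (Fin n) k) :
    φ (MvPolynomial.aeval s P) = MvPolynomial.aeval s' P := by
  induction P using MvPolynomial.induction_on with
  | C c => rw [MvPolynomial.aeval_C, MvPolynomial.aeval_C, AlgEquiv.commutes]
  | add P Q hP hQ => rw [map_add, map_add, map_add, hP, hQ]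
  | mul_X P i hP =>
    rw [map_mul, map_mul, map_mul, MvPolynomial.aeval_X, MvPolynomial.aeval_X, hP, hφ]

/-- Fractions. -/
theorem lt_frac {δ : ℕ → Ω} (hδ : ∀ i, δ i ≠ 0) {n : ℕ} {s : Fin n → Ω}
    {s' : ℕ → Fin n → Ω} {φ : ℕ → (Ω ≃ₐ[k] Ω)}
    (hφ : ∀ i j, φ i (s j) = s' i j)
    (hLT : ∀ P : MvPolynomial (Fin n) k, P ≠ 0 → ∃ a m, LTp v δ s' P a m) :
    ∀ e ∈ IntermediateField.adjoin k (Set.range s), e ≠ 0 → ∃ a m, LT v δ φ e a m := by
  intro e he he0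
  have hpoly : ∀ P : MvPolynomial (Fin n) k, P ≠ 0 →
      ∃ a m, LT v δ φ (MvPolynomial.aeval s P) a m := by
    intro P hP
    obtain ⟨a, m, h1, h2⟩ := hLT P hP
    refine ⟨a, m, h1, h2.mono fun i hi => ?_⟩
    rwa [aeval_map (hφ i)]
  obtain ⟨a, ha, b, hb, hb0, rfl⟩ : ∃ a ∈ Algebra.adjoin k (Set.range s),
      ∃ b ∈ Algebra.adjoin k (Set.range s), b ≠ 0 ∧ e = a / b := by
    rw [IntermediateField.mem_adjoin_iff_div] at he
    obtain ⟨a, ha, b, hb, h1⟩ := he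
    refine ⟨a, ha, b, hb, ?_, h1⟩
    rintro rfl
    exact he0 (by rw [h1, div_zero])
  have hrep : ∀ x ∈ Algebra.adjoin k (Set.range s), x ≠ 0 →
      ∃ P : MvPolynomial (Fin n) k, P ≠ 0 ∧ MvPolynomial.aeval s P = x := by
    intro x hx hx0
    rw [Algebra.adjoin_range_eq_range_aeval] at hx
    obtain ⟨P, hP⟩ := hx
    refine ⟨P, ?_, hP⟩
    rintro rfl
    exact hx0 (by rw [← hP]; exact map_zero _)
  have ha0 : a ≠ 0 := fun h0 => he0 (by rw [h0, zero_div])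
  obtain ⟨P, hP, rfl⟩ := hrep a ha ha0
  obtain ⟨Q, hQ, rfl⟩ := hrep b hb hb0
  obtain ⟨x, m, h1⟩ := hpoly P hP
  obtain ⟨y, m', h2⟩ := hpoly Q hQ
  refine ⟨x * y⁻¹, m + -m', ?_⟩
  rw [div_eq_mul_inv]
  exact WM8.lt_mul hδ h1 (WM8.lt_inv hδ h2)

/-- The values, up to torsion. -/
theorem exists_full {δ : ℕ → Ω} (hδ : ∀ i, δ i ≠ 0) {φ : ℕ → (Ω ≃ₐ[k] Ω)} {r : ℕ} {x : Fin r → Ω}
    {E : IntermediateField k Ω} (hxE : ∀ l, x l ∈ E) (hx : ∀ l, LT v δ φ (x l) (x l) 0) {g : Ω}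
    (hg : v g ∈ Submodule.span ℚ (Set.range fun l => v (x l))) :
    ∃ m : ℕ, 0 < m ∧ ∃ e ∈ E, e ≠ 0 ∧ LT v δ φ e e 0 ∧ v e = m * v g := by
  classical
  have hx0 : ∀ l, x l ≠ 0 := fun l => (hx l).1
  -- monomials
  have hpow : ∀ (y : Ω), LT v δ φ y y 0 → ∀ n : ℕ, LT v δ φ (y ^ n) (y ^ n) 0 := by
    intro y hy n
    induction n with
    | zero =>
      refine ⟨by rw [pow_zero]; exact one_ne_zero, Eventually.of_forall fun i => ?_⟩
      rw [pow_zero, map_one, zpow_zero, mul_one, sub_self]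
      exact TWM.Gt.zero
    | succ n ih =>
      have h1 := WM8.lt_mul hδ ih hy
      rwa [add_zero, ← pow_succ] at h1
  have hzpow : ∀ (y : Ω), LT v δ φ y y 0 → ∀ n : ℤ, LT v δ φ (y ^ n) (y ^ n) 0 := by
    intro y hy n
    obtain ⟨n, rfl | rfl⟩ := n.eq_nat_or_neg
    · rw [zpow_natCast]
      exact hpow y hy n
    · have h1 := WM8.lt_inv hδ (hpow y hy n)
      rw [neg_zero] at h1
      rwa [zpow_neg, zpow_natCast]
  have hprod : ∀ (c : Fin r → ℤ) (S : Finset (Fin r)),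
      LT v δ φ (∏ l ∈ S, x l ^ c l) (∏ l ∈ S, x l ^ c l) 0 ∧
      v (∏ l ∈ S, x l ^ c l) = ∑ l ∈ S, (c l : ℝ) * v (x l) := by
    intro c S
    induction S using Finset.induction_on with
    | empty =>
      refine ⟨⟨by rw [Finset.prod_empty]; exact one_ne_zero, Eventually.of_forall fun i => ?_⟩, ?_⟩
      · rw [Finset.prod_empty, map_one, zpow_zero, mul_one, sub_self]
        exact TWM.Gt.zero
      · rw [Finset.prod_empty, Finset.sum_empty, v.map_one]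
    | insert l S hl ih =>
      rw [Finset.prod_insert hl, Finset.sum_insert hl]
      have h1 := WM8.lt_mul hδ (hzpow _ (hx l) (c l)) ih.1
      rw [add_zero] at h1
      refine ⟨h1, ?_⟩
      rw [v.map_mul (zpow_ne_zero _ (hx0 l)) ih.1.1, WM8.val_zpow (hx0 l), ih.2]
  -- common denominator
  obtain ⟨q, hq⟩ : ∃ q : Fin r → ℚ, v g = ∑ l, (q l : ℝ) * v (x l) := by
    obtain ⟨q, hq⟩ := (Submodule.mem_span_range_iff_exists_fun ℚ).1 hg
    refine ⟨q, ?_⟩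
    rw [← hq]
    exact Finset.sum_congr rfl fun l _ => by rw [Rat.smul_def]
  obtain ⟨N, hN⟩ : ∃ N : ℕ, N = ∏ l, (q l).den := ⟨_, rfl⟩
  have hN0 : 0 < N := by
    rw [hN]
    exact Finset.prod_pos fun l _ => (q l).den_pos
  have hint : ∀ l, ∃ c : ℤ, (c : ℝ) = N * (q l : ℝ) := by
    intro l
    obtain ⟨M, hM⟩ : (q l).den ∣ N := by
      rw [hN]
      exact Finset.dvd_prod_of_mem _ (Finset.mem_univ l)
    refine ⟨M * (q l).num, ?_⟩
    have h1 : ((q l : ℚ) : ℝ) = ((q l).num : ℝ) / ((q l).den : ℝ) := by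
      rw [← Rat.cast_intCast, ← Rat.cast_natCast, ← Rat.cast_div, Rat.num_div_den]
    have h2 : ((q l).den : ℝ) ≠ 0 := by exact_mod_cast (q l).den_nz
    rw [h1, hM]
    push_cast
    field_simp
  choose c hc using hint
  obtain ⟨h1, h2⟩ := hprod c Finset.univ
  refine ⟨N, hN0, _, prod_mem fun l _ => zpow_mem (hxE l) _, h1.1, h1, ?_⟩
  rw [h2, hq, Finset.mul_sum]
  exact Finset.sum_congr rfl fun l _ => by rw [hc l, mul_assoc]

end WM12

open WM12 in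
/-- ROW WM12. **Motions from coordinates.** -/
theorem Mot.of_coord [IsAlgClosed Ω] (h : Ctx0 k v) {K₀ : IntermediateField k Ω} {n r : ℕ}
    {s : Fin n → Ω} (hai : AlgebraicIndependent k s) (hpos : ∀ j, VPos v (s j))
    (hΩ : ∀ g : Ω, IsAlgebraic (IntermediateField.adjoin k (Set.range s)) g)
    (hsK : ∀ j, s j ∈ K₀)
    (hs : hen v K₀ = hen v (IntermediateField.adjoin k (Set.range s)))
    (hK : ∀ e ∈ K₀, InFrac (hensA v (lv v (LUC.adj (algebraMap k Ω).range (Set.range s)))) e)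
    {δ : ℕ → Ω} {ρ : ℝ} (hδ : ∀ i, δ i ≠ 0)
    (hlim : Tendsto (fun i => v (δ i)) atTop (𝓝 ρ))
    (hirr : ∀ (m : ℤ) (f : Ω), m ≠ 0 → f ≠ 0 → v f ≠ m * ρ)
    (s' : ℕ → Fin n → Ω) (J : ℕ → Fin n → Fin n → Ω)
    (hJ : ∀ i a b, J i a b ∈ hensA v (lv v (LUC.adj (algebraMap k Ω).range (Set.range s))))
    (hd0 : ∀ i, (Matrix.of (J i)).det ≠ 0) (hdv : ∀ i, v (Matrix.of (J i)).det = 0)
    (hs' : ∀ i j, IP (hensA v (lv v (LUC.adj (algebraMap k Ω).range (Set.range s)))) s 2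
      (s' i j - ∑ l, J i j l * s l))
    {ε : ℝ} (hε : 0 < ε) (hs'ε : ∀ i j, v.Ge ε (s' i j))
    (hLT : ∀ P : MvPolynomial (Fin n) k, P ≠ 0 → ∃ a m, LTp v δ s' P a m)
    (hmov : ∃ P : MvPolynomial (Fin n) k, ∃ a m, m ≠ 0 ∧ LTp v δ s' P a m)
    (x : Fin r → Fin n)
    (hx : ∀ l, ∀ᶠ i in atTop, Gt v (v (s (x l))) (s' i (x l) - s (x l)))
    (hval : ∀ g : Ω, g ≠ 0 → v g ∈ Submodule.span ℚ (Set.range fun l => v (s (x l)))) :
    ∃ φ : ℕ → (Ω ≃ₐ[k] Ω), (∀ i j, φ i (s j) = s' i j) ∧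
      (∀ i f, φ i f ∈ hensA v (lv v (LUC.adj (algebraMap k Ω).range (Set.range s))) ↔
        f ∈ hensA v (lv v (LUC.adj (algebraMap k Ω).range (Set.range s)))) ∧
      Mot v K₀ φ δ ρ := by
  have hj := fun i => jac_motion h hai hpos hΩ (J i) (hJ i) (hd0 i) (hdv i) (hs' i)
  have hai' := fun i => (hj i).1
  have hpos' := fun i => (hj i).2.1
  have hEq := fun i => (hj i).2.2.1
  choose φ hφs hφH using fun i => (hj i).2.2.2
  have hLTs := lt_frac (v := v) hδ (φ := φ) hφs hLT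
  refine ⟨φ, hφs, hφH, ?_⟩
  have hcomp : ∀ i, φ i ∘ s = s' i := fun i => funext (hφs i)
  have hs0 : ∀ j, s j ≠ 0 := fun j => hai.ne_zero j
  refine ⟨hδ, hlim, hirr, ?_, ?_, ?_, ?_⟩
  · intro e he he0
    exact lt_of_hensA h hpos hδ hlim hε (fun i f hf => (hφH i f).2 hf) (fun i j => by
      rw [hφs]
      exact hs'ε i j) hLTs (hK e he) he0
  · obtain ⟨P, a, m, hm, h1, h2⟩ := hmov
    refine ⟨MvPolynomial.aeval s P, ?_, ?_, a, m, hm, h1, h2.mono fun i hi => ?_⟩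
    · have hle : Algebra.adjoin k (Set.range s) ≤ K₀.toSubalgebra := by
        rw [Algebra.adjoin_le_iff]
        rintro _ ⟨j, rfl⟩
        exact hsK j
      refine hle ?_
      rw [Algebra.adjoin_range_eq_range_aeval]
      exact ⟨P, rfl⟩
    · -- not zero
      obtain ⟨i, hi⟩ := h2.exists
      intro h0
      rw [← aeval_map (hφs i) P, h0, map_zero, zero_sub] at hi
      have h3 : a * δ i ^ m ≠ 0 := mul_ne_zero h1 (zpow_ne_zero _ (hδ i))
      have h4 := hi (neg_ne_zero.2 h3)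
      rw [v.map_neg _ h3, v.map_mul h1 (zpow_ne_zero _ (hδ i)), WM8.val_zpow (hδ i)] at h4
      exact lt_irrefl _ h4
    · rwa [aeval_map (hφs i)]
  · intro g hg
    refine exists_full hδ (x := fun l => s (x l)) (fun l => hsK _) (fun l => ⟨hs0 _, ?_⟩)
      (hval g hg)
    filter_upwards [hx l] with i hi
    rw [hφs, zpow_zero, mul_one, Int.cast_zero, zero_mul, add_zero]
    exact hi
  · intro i
    refine hen_map_coord h (fun j => (hpos j).ge) hsK hs (hφH i) hK ?_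
    rw [hcomp]
    apply le_antisymm
    · refine hen_le (hen_hen _) ?_
      rw [IntermediateField.adjoin_le_iff]
      rintro _ ⟨j, rfl⟩
      refine hensA_le_hen h (fun j => (hpos j).ge) _ ?_
      rw [← hEq i]
      exact le_hensA _ (le_lv v _ (mem_adj ⟨j, rfl⟩))
    · refine hen_le (hen_hen _) ?_
      rw [IntermediateField.adjoin_le_iff]
      rintro _ ⟨j, rfl⟩
      refine hensA_le_hen h (fun j => (hpos' i j).ge) _ ?_
      rw [hEq i]
      exact le_hensA _ (le_lv v _ (mem_adj ⟨j, rfl⟩))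

end Pool.Agent.TW
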