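import Pool.Agent.Lib.TWW.WM13
import Mathlib.RingTheory.Polynomial.IsIntegral

/-!
# TANK W, skeleton M, row WM14: henselian functions of `δ`

`GS h x`: the sequence `x` is algebraic over `Ω(δ)` and a limit of rational functions of `δ`, of
value `≥ 0`.  Such sequences form a ring which contains the inverses of the units and the simple
roots of monic polynomials (Newton iteration); they have leading terms.
-/

set_option autoImplicit false

open Polynomial Filter Topology

namespace Pool.Agent.TW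

open Pool.Agent.H15JM (RVal)
open Pool.Agent.LU1 (VPos adj)
open Pool.Agent.LUC (Cl LUs lv IP)
open Pool.Agent.D2 (Ctx0)
open Pool.Agent.D2P (hen)
open Pool.Agent.TWM (Gt)

universe u

namespace WM13

variable {Ω : Type u} [Field Ω] {v : RVal Ω} {δ : ℕ → Ω} {ρ : ℝ}

/-- Henselian functions of `δ`. -/
structure GS (h : Sq v δ ρ) (x : ℕ → Ω) : Prop where
  alg : (th h).IsIntegralElem (mkG Ω x)
  app : App h x

variable {h : Sq v δ ρ} {x y : ℕ → Ω}

theorem GS.ge (hx : GS h x) : ∀ᶠ i in atTop, v.Ge 0 (x i) := hx.app.1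

theorem GS.add (hx : GS h x) (hy : GS h y) : GS h (fun i => x i + y i) where
  alg := by
    have e2 : mkG Ω (fun i => x i + y i) = mkG Ω x + mkG Ω y := by
      rw [← map_add]
      rfl
    rw [e2]
    exact RingHom.IsIntegralElem.add _ hx.alg hy.alg
  app := hx.app.add hy.app

theorem GS.mul (hx : GS h x) (hy : GS h y) : GS h (fun i => x i * y i) where
  alg := by
    have e2 : mkG Ω (fun i => x i * y i) = mkG Ω x * mkG Ω y := by
      rw [← map_mul]
      rfl
    rw [e2]
    exact RingHom.IsIntegralElem.mul _ hx.alg hy.alg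
  app := hx.app.mul hy.app

theorem GS.const (h : Sq v δ ρ) {c : Ω} (hc : v.Ge 0 c) : GS h (fun _ => c) where
  alg := by
    rw [← th_const h]
    exact RingHom.isIntegralElem_map _
  app := App.const h hc

theorem GS.neg (hx : GS h x) : GS h (fun i => -x i) := by
  have h1 := (GS.const h (c := -1) (fun _ => by rw [v.map_neg _ one_ne_zero, v.map_one])).mul hx
  have e : (fun i => (-1 : Ω) * x i) = fun i => -x i := by
    funext i
    ring
  rwa [e] at h1

theorem GS.sub (hx : GS h x) (hy : GS h y) : GS h (fun i => x i - y i) := by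
  have h1 := hx.add hy.neg
  have e : (fun i => x i + -y i) = fun i => x i - y i := by
    funext i
    ring
  rwa [e] at h1

theorem GS.pow (hx : GS h x) (n : ℕ) : GS h (fun i => x i ^ n) := by
  induction n with
  | zero =>
    have h1 := GS.const h (c := 1) (fun _ => by rw [v.map_one])
    simpa using h1
  | succ n ih =>
    have h1 := ih.mul hx
    simpa only [pow_succ] using h1

theorem GS.congr (hx : GS h x) (hxy : ∀ᶠ i in atTop, x i = y i) : GS h y where
  alg := by
    have h1 : mkG Ω x = mkG Ω y := mkG_eq.2 hxy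
    rw [← h1]
    exact hx.alg
  app := by
    refine ⟨?_, fun M => ?_⟩
    · filter_upwards [hx.app.1, hxy] with i h1 h2
      rwa [← h2]
    · obtain ⟨c, f, h1, h2⟩ := hx.app.2 M
      refine ⟨c, f, h1, ?_⟩
      filter_upwards [h2, hxy] with i h3 h4
      rwa [← h4]

/-- Rational functions of `δ`. -/
theorem GS.rat (h : Sq v δ ρ) {F G : Polynomial Ω} (hG : G ≠ 0)
    (hge : ∀ᶠ i in atTop, v.Ge 0 (F.eval (δ i) / G.eval (δ i))) :
    GS h (fun i => F.eval (δ i) / G.eval (δ i)) := by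
  have e : th h (algebraMap (Polynomial Ω) (FractionRing (Polynomial Ω)) F /
      algebraMap (Polynomial Ω) (FractionRing (Polynomial Ω)) G) =
      mkG Ω fun i => F.eval (δ i) / G.eval (δ i) := by
    have hu : IsUnit (evG δ G) := h.isUnit ⟨G, mem_nonZeroDivisors_of_ne_zero hG⟩
    refine hu.mul_right_cancel ?_
    rw [← th_algebraMap h G, ← map_mul, div_mul_cancel₀ _
      (IsFractionRing.to_map_ne_zero_of_mem_nonZeroDivisors (mem_nonZeroDivisors_of_ne_zero hG)),
      th_algebraMap, th_algebraMap, evG_apply, evG_apply, ← map_mul, mkG_eq]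
    obtain ⟨a, m, h1⟩ := h.poly hG
    filter_upwards [h1.val h.ne] with i hi
    rw [Pi.mul_apply, div_mul_cancel₀ _ hi.1]
  refine ⟨?_, hge, fun M => ⟨_, _, e, Eventually.of_forall fun i => ?_⟩⟩
  · rw [← e]
    exact RingHom.isIntegralElem_map _
  · rw [sub_self]
    exact RVal.Ge.zero

theorem GS.poly (h : Sq v δ ρ) {F : Polynomial Ω}
    (hge : ∀ᶠ i in atTop, v.Ge 0 (F.eval (δ i))) : GS h (fun i => F.eval (δ i)) := by
  have h1 := GS.rat h (F := F) (G := 1) one_ne_zero (by simpa using hge)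
  simpa using h1

/-- Limits. -/
theorem App.lim {x : ℕ → Ω}
    (hx : ∀ M : ℝ, ∃ y : ℕ → Ω, App h y ∧ ∀ᶠ i in atTop, v.Ge M (x i - y i)) : App h x := by
  refine ⟨?_, fun M => ?_⟩
  · obtain ⟨y, h1, h2⟩ := hx 0
    filter_upwards [h1.1, h2] with i h3 h4
    have h5 := h4.add h3
    rwa [sub_add_cancel] at h5
  · obtain ⟨y, h1, h2⟩ := hx M
    obtain ⟨c, f, h3, h4⟩ := h1.2 M
    refine ⟨c, f, h3, ?_⟩
    filter_upwards [h2, h4] with i h5 h6
    have h7 := h5.add h6
    rwa [sub_add_sub_cancel] at h7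

/-- Inverses of units. -/
theorem App.inv (hx : App h x) (hu : ∀ᶠ i in atTop, x i ≠ 0 ∧ v (x i) = 0) :
    App h (fun i => (x i)⁻¹) := by
  refine ⟨?_, fun M => ?_⟩
  · filter_upwards [hu] with i hi _
    rw [v.map_inv hi.1, hi.2, neg_zero]
  · obtain ⟨c, f, h1, h2⟩ := hx.2 (max M 1)
    have h3 : ∀ᶠ i in atTop, f i ≠ 0 ∧ v (f i) = 0 := by
      filter_upwards [h2, hu] with i h4 h5
      have h6 : Gt v (v (x i)) (x i - f i) := TWM.Gt.of_ge h4 (by
        rw [h5.2]
        exact lt_of_lt_of_le one_pos (le_max_right M 1))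
      have h7 := TWM.Gt.val_eq h5.1 h6
      exact ⟨h7.1, h7.2.trans h5.2⟩
    have hc : c ≠ 0 := by
      rintro rfl
      rw [map_zero] at h1
      have h4 : ∀ᶠ i in atTop, (0 : ℕ → Ω) i = f i := mkG_eq.1 (by rw [map_zero, h1])
      obtain ⟨i, hi, hi'⟩ := (h3.and h4).exists
      exact hi.1 hi'.symm
    refine ⟨c⁻¹, fun i => (f i)⁻¹, ?_, ?_⟩
    · have hu' : IsUnit (mkG Ω f) := isUnit_mkG (h3.mono fun i hi => hi.1)
      refine hu'.mul_right_cancel ?_
      rw [← h1, ← map_mul, inv_mul_cancel₀ hc, map_one, h1, ← map_mul, ← map_one (mkG Ω), mkG_eq]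
      filter_upwards [h3] with i hi
      rw [Pi.one_apply, Pi.mul_apply, inv_mul_cancel₀ hi.1]
    · filter_upwards [h2, h3, hu] with i h4 h5 h6
      have e : (x i)⁻¹ - (f i)⁻¹ = -(x i - f i) * ((x i)⁻¹ * (f i)⁻¹) := by
        have h7 := h5.1
        have h8 := h6.1
        field_simp
        ring
      rw [e]
      have h9 : v.Ge 0 ((x i)⁻¹ * (f i)⁻¹) := fun _ => by
        rw [v.map_mul (inv_ne_zero h6.1) (inv_ne_zero h5.1), v.map_inv h6.1, v.map_inv h5.1,
          h5.2, h6.2]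
        simp
      have h10 := h4.neg.mul h9
      rw [add_zero] at h10
      exact h10.mono (le_max_left M 1)

theorem isIntegralElem_inv (hx : (th h).IsIntegralElem (mkG Ω x)) (hu : ∀ᶠ i in atTop, x i ≠ 0) :
    (th h).IsIntegralElem (mkG Ω fun i => (x i)⁻¹) := by
  let := (th h).toAlgebra
  have hinv : mkG Ω x * mkG Ω (fun i => (x i)⁻¹) = 1 := by
    rw [← map_mul, ← map_one (mkG Ω), mkG_eq]
    filter_upwards [hu] with i hi
    rw [Pi.mul_apply, Pi.one_apply, mul_inv_cancel₀ hi]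
  let hI : Invertible (mkG Ω x) :=
    ⟨mkG Ω (fun i => (x i)⁻¹), by rw [mul_comm]; exact hinv, hinv⟩
  have h1 : IsIntegral (FractionRing (Polynomial Ω)) (mkG Ω x) := hx
  have h2 : IsIntegral (FractionRing (Polynomial Ω)) (⅟(mkG Ω x)) :=
    isAlgebraic_iff_isIntegral.1 (IsAlgebraic.invOf (isAlgebraic_iff_isIntegral.2 h1))
  exact h2

theorem GS.inv (hx : GS h x) (hu : ∀ᶠ i in atTop, x i ≠ 0 ∧ v (x i) = 0) :
    GS h (fun i => (x i)⁻¹) where
  alg := isIntegralElem_inv hx.alg (hu.mono fun _ hi => hi.1)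
  app := hx.app.inv hu

theorem App.congr (hx : App h x) (hxy : ∀ᶠ i in atTop, x i = y i) : App h y := by
  refine ⟨?_, fun M => ?_⟩
  · filter_upwards [hx.1, hxy] with i h1 h2
    rwa [← h2]
  · obtain ⟨c, f, h1, h2⟩ := hx.2 M
    refine ⟨c, f, h1, ?_⟩
    filter_upwards [h2, hxy] with i h3 h4
    rwa [← h4]

theorem App.pow (hx : App h x) (n : ℕ) : App h (fun i => x i ^ n) := by
  induction n with
  | zero =>
    have h1 := App.const h (c := 1) (fun _ => by rw [v.map_one])
    simpa using h1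
  | succ n ih =>
    have h1 := ih.mul hx
    simpa only [pow_succ] using h1

/-- Values of polynomials with coefficients in `App`. -/
theorem App.eval (hx : App h x) {q : ℕ → Polynomial Ω} {d : ℕ}
    (hqd : ∀ i, (q i).natDegree ≤ d) (hq : ∀ l, App h (fun i => (q i).coeff l)) :
    App h (fun i => (q i).eval (x i)) := by
  have key : ∀ S : Finset ℕ, App h (fun i => ∑ l ∈ S, (q i).coeff l * x i ^ l) := by
    intro S
    induction S using Finset.induction_on with
    | empty =>
      have h1 := App.const h (c := 0) RVal.Ge.zero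
      simpa using h1
    | insert a S ha ih =>
      have h1 := ((hq a).mul (hx.pow a)).add ih
      simpa only [Finset.sum_insert ha] using h1
  refine (key (Finset.range (d + 1))).congr (Eventually.of_forall fun i => ?_)
  rw [eval_eq_sum_range' (Nat.lt_succ_of_le (hqd i))]

/-- The elements of value `≥ 0`. -/
def geR (v : RVal Ω) : Subring Ω where
  carrier := {x | v.Ge 0 x}
  mul_mem' := fun {a b} ha hb => by
    have h1 := RVal.Ge.mul ha hb
    rwa [add_zero] at h1
  one_mem' := fun _ => by rw [v.map_one]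
  add_mem' := fun ha hb => RVal.Ge.add ha hb
  zero_mem' := RVal.Ge.zero
  neg_mem' := fun ha => RVal.Ge.neg ha

theorem ge_nat (v : RVal Ω) (n : ℕ) : v.Ge 0 (n : Ω) := natCast_mem (geR v) n

theorem App.derivative {q : ℕ → Polynomial Ω} (hq : ∀ l, App h (fun i => (q i).coeff l)) (l : ℕ) :
    App h (fun i => (q i).derivative.coeff l) := by
  have h1 := (hq (l + 1)).mul (App.const h (c := ((l + 1 : ℕ) : Ω)) (ge_nat v (l + 1)))
  refine h1.congr (Eventually.of_forall fun i => ?_)
  rw [coeff_derivative]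
  push_cast
  rfl

/-- Taylor. -/
theorem taylor {q : Polynomial Ω} (hq : ∀ l, v.Ge 0 (q.coeff l)) {y t : Ω} (hy : v.Ge 0 y)
    (ht : v.Ge 0 t) : ∃ c, v.Ge 0 c ∧
      q.eval (y + t) = q.eval y + q.derivative.eval y * t + c * t ^ 2 := by
  obtain ⟨Q, hQ⟩ : ∃ Q : Polynomial (geR v), Q.map (geR v).subtype = q := by
    refine ⟨q.toSubring (geR v) ?_, q.map_toSubring _ _⟩
    intro a ha
    obtain ⟨l, -, rfl⟩ := mem_coeffs_iff.1 (Finset.mem_coe.1 ha)
    exact hq l
  obtain ⟨c, hc⟩ := Q.binomExpansion ⟨y, hy⟩ ⟨t, ht⟩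
  refine ⟨c, c.2, ?_⟩
  have h1 := congrArg (geR v).subtype hc
  rw [← hQ, derivative_map]
  simp only [map_add, map_mul, map_pow] at h1
  rw [← eval_map_apply, ← eval_map_apply, ← eval_map_apply] at h1
  exact h1

/-- Values at near points. -/
theorem eval_sub {q : Polynomial Ω} (hq : ∀ l, v.Ge 0 (q.coeff l)) {x y : Ω} (hx : v.Ge 0 x)
    (hy : v.Ge 0 y) : ∃ c, v.Ge 0 c ∧ q.eval x - q.eval y = c * (x - y) := by
  obtain ⟨c, hc, h1⟩ := taylor hq hy (hx.sub hy)
  have hd : v.Ge 0 (q.derivative.eval y) := by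
    rw [eval_eq_sum_range]
    refine RVal.Ge.sum _ _ fun l _ => ?_
    rw [coeff_derivative]
    have h2 : v.Ge 0 (y ^ l) := (geR v).pow_mem hy l
    have h3 : v.Ge 0 ((l : Ω) + 1) := by
      have := ge_nat v (l + 1)
      push_cast at this
      exact this
    exact (geR v).mul_mem ((geR v).mul_mem (hq _) h3) h2
  refine ⟨q.derivative.eval y + c * (x - y), ?_, ?_⟩
  · exact (geR v).add_mem hd ((geR v).mul_mem hc ((geR v).sub_mem hx hy))
  · rw [add_sub_cancel] at h1
    rw [h1]
    ring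

/-- **Simple roots.**  Newton iteration. -/
theorem App.root {q : ℕ → Polynomial Ω} {d : ℕ} (hqd : ∀ i, (q i).natDegree ≤ d)
    (hq : ∀ l, App h (fun i => (q i).coeff l)) (hxg : ∀ᶠ i in atTop, v.Ge 0 (x i))
    (hx : ∀ᶠ i in atTop, (q i).eval (x i) = 0)
    (hd : ∀ᶠ i in atTop, (q i).derivative.eval (x i) ≠ 0 ∧
      v ((q i).derivative.eval (x i)) = 0)
    (hy : App h y) {ε : ℝ} (hε : 0 < ε) (hxy : ∀ᶠ i in atTop, v.Ge ε (x i - y i)) :
    App h x := by
  have hqge : ∀ᶠ i in atTop, ∀ l, v.Ge 0 ((q i).coeff l) := by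
    have h1 : ∀ᶠ i in atTop, ∀ l ∈ Finset.range (d + 1), v.Ge 0 ((q i).coeff l) := by
      rw [Filter.eventually_all_finset]
      exact fun l _ => (hq l).1
    filter_upwards [h1] with i hi l
    by_cases hl : l ∈ Finset.range (d + 1)
    · exact hi l hl
    · rw [coeff_eq_zero_of_natDegree_lt]
      · exact RVal.Ge.zero
      · refine (hqd i).trans_lt ?_
        rw [Finset.mem_range] at hl
        omega
  have hqge' : ∀ᶠ i in atTop, ∀ l, v.Ge 0 ((q i).derivative.coeff l) := by
    filter_upwards [hqge] with i hi l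
    rw [coeff_derivative]
    have h3 : v.Ge 0 ((l : Ω) + 1) := by
      have := ge_nat v (l + 1)
      push_cast at this
      exact this
    exact (geR v).mul_mem (hi _) h3
  -- one step
  have step : ∀ (y : ℕ → Ω) (e : ℝ), ε ≤ e → App h y → (∀ᶠ i in atTop, v.Ge e (x i - y i)) →
      ∃ y' : ℕ → Ω, App h y' ∧ ∀ᶠ i in atTop, v.Ge (2 * e) (x i - y' i) := by
    intro y e he hy hxy
    have he0 : 0 < e := hε.trans_le he
    have hdy : ∀ᶠ i in atTop, (q i).derivative.eval (y i) ≠ 0 ∧
        v ((q i).derivative.eval (y i)) = 0 := by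
      filter_upwards [hqge', hxg, hy.1, hxy, hd] with i h1 h2 h3 h4 h5
      obtain ⟨c, hc, h6⟩ := eval_sub h1 h2 h3
      have h7 := hc.mul h4
      rw [← h6, zero_add] at h7
      have h8 : Gt v (v ((q i).derivative.eval (x i)))
          ((q i).derivative.eval (x i) - (q i).derivative.eval (y i)) :=
        TWM.Gt.of_ge h7 (by rw [h5.2]; exact he0)
      have h9 := TWM.Gt.val_eq h5.1 h8
      exact ⟨h9.1, h9.2.trans h5.2⟩
    have h1 : App h (fun i => (q i).derivative.eval (y i)) :=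
      hy.eval (d := d) (fun i => (natDegree_derivative_le _).trans
        (by have := hqd i; omega)) (App.derivative hq)
    have h2 := (hy.eval hqd hq).mul (h1.inv hdy)
    have h3 := hy.add ((App.const h (c := -1)
      (fun _ => by rw [v.map_neg _ one_ne_zero, v.map_one])).mul h2)
    refine ⟨_, h3, ?_⟩
    filter_upwards [hqge, hxg, hy.1, hxy, hdy, hx] with i g1 g2 g3 g4 g5 g6
    obtain ⟨c, hc, g7⟩ := taylor g1 g3 (g4.mono he0.le)
    rw [add_sub_cancel, g6] at g7
    have g8 : x i - (y i + -1 * ((q i).eval (y i) * ((q i).derivative.eval (y i))⁻¹)) =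
        -(c * (x i - y i) ^ 2) * ((q i).derivative.eval (y i))⁻¹ := by
      have g9 := g5.1
      field_simp
      linear_combination -g7
    rw [g8]
    have g9 : v.Ge 0 (((q i).derivative.eval (y i))⁻¹) := fun _ => by
      rw [v.map_inv g5.1, g5.2, neg_zero]
    have g10 : v.Ge (2 * e) ((x i - y i) ^ 2) := by
      have := g4.mul g4
      rw [← two_mul, ← sq] at this
      exact this
    have g11 := ((hc.mul g10).neg).mul g9
    rwa [zero_add, add_zero] at g11
  -- the iteration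
  have key : ∀ n : ℕ, ∃ y' : ℕ → Ω, App h y' ∧ ∀ᶠ i in atTop, v.Ge (2 ^ n * ε) (x i - y' i) := by
    intro n
    induction n with
    | zero => exact ⟨y, hy, by simpa using hxy⟩
    | succ n ih =>
      obtain ⟨y', h1, h2⟩ := ih
      obtain ⟨y'', h3, h4⟩ := step y' (2 ^ n * ε) (by
        have : (1 : ℝ) ≤ 2 ^ n := one_le_pow₀ one_le_two
        nlinarith) h1 h2
      refine ⟨y'', h3, ?_⟩
      filter_upwards [h4] with i hi
      rwa [pow_succ, mul_comm ((2 : ℝ) ^ n) 2, mul_assoc]
  refine App.lim fun M => ?_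
  obtain ⟨n, hn⟩ := pow_unbounded_of_one_lt (M / ε) (one_lt_two (α := ℝ))
  obtain ⟨y', h1, h2⟩ := key n
  refine ⟨y', h1, ?_⟩
  filter_upwards [h2] with i hi
  refine hi.mono ?_
  rw [div_lt_iff₀ hε] at hn
  exact hn.le

/-- **Henselian functions of `δ`: simple roots.** -/
theorem GS.root {q : ℕ → Polynomial Ω} {d : ℕ} (hd0 : d ≠ 0) (hqm : ∀ i, (q i).Monic)
    (hqd : ∀ i, (q i).natDegree = d)
    (hq : ∀ l, GS h (fun i => (q i).coeff l)) (hxg : ∀ᶠ i in atTop, v.Ge 0 (x i))
    (hx : ∀ᶠ i in atTop, (q i).eval (x i) = 0)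
    (hd : ∀ᶠ i in atTop, (q i).derivative.eval (x i) ≠ 0 ∧
      v ((q i).derivative.eval (x i)) = 0)
    (hy : App h y) {ε : ℝ} (hε : 0 < ε) (hxy : ∀ᶠ i in atTop, v.Ge ε (x i - y i)) :
    GS h x where
  alg := by
    let := (th h).toAlgebra
    have hnt : Nontrivial (GG Ω) := by
      refine ⟨⟨0, 1, fun h01 => ?_⟩⟩
      rw [← map_zero (mkG Ω), ← map_one (mkG Ω), mkG_eq] at h01
      obtain ⟨i, hi⟩ := h01.exists
      exact zero_ne_one (α := Ω) hi
    obtain ⟨Q, hQ⟩ : ∃ Q : Polynomial (GG Ω), Q =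
        ∑ l ∈ Finset.range (d + 1), C (mkG Ω fun i => (q i).coeff l) * X ^ l := ⟨_, rfl⟩
    have hc : ∀ l, Q.coeff l = if l < d + 1 then mkG Ω (fun i => (q i).coeff l) else 0 := by
      intro l
      rw [hQ, finsetSum_coeff]
      simp only [coeff_C_mul, coeff_X_pow, mul_ite, mul_one, mul_zero]
      rw [Finset.sum_ite_eq]
      simp only [Finset.mem_range]
    have hcd : Q.coeff d = 1 := by
      rw [hc, if_pos (Nat.lt_succ_self d), ← map_one (mkG Ω), mkG_eq]
      refine Eventually.of_forall fun i => ?_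
      have h1 := hqm i
      rw [Monic, leadingCoeff, hqd i] at h1
      rw [h1, Pi.one_apply]
    have hle : Q.natDegree ≤ d := by
      rw [natDegree_le_iff_coeff_eq_zero]
      intro N hN
      rw [hc, if_neg (by omega)]
    have hQm : Q.Monic := monic_of_natDegree_le_of_coeff_eq_one d hle hcd
    have hdeg : Q.natDegree ≠ 0 := by
      intro h0
      have h1 : Q.coeff d = 0 := coeff_eq_zero_of_natDegree_lt (by omega)
      rw [hcd] at h1
      exact one_ne_zero h1
    have hev : Q.eval (mkG Ω x) = 0 := by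
      have h1 : Q.eval (mkG Ω x) = mkG Ω (fun i => (q i).eval (x i)) := by
        have e3 : (fun i => (q i).eval (x i)) =
            ∑ l ∈ Finset.range (d + 1), (fun i => (q i).coeff l) * x ^ l := by
          funext i
          rw [eval_eq_sum_range, hqd i, Finset.sum_apply]
          rfl
        rw [e3, map_sum, hQ, eval_finsetSum]
        refine Finset.sum_congr rfl fun l _ => ?_
        rw [eval_mul, eval_C, eval_pow, eval_X, map_mul, map_pow]
      rw [h1, ← map_zero (mkG Ω), mkG_eq]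
      exact hx
    have hp : ∀ l, IsIntegral (FractionRing (Polynomial Ω)) (Q.coeff l) := by
      intro l
      rw [hc]
      split_ifs with hl
      · exact (hq l).alg
      · exact isIntegral_zero
    exact IsIntegral.of_aeval_monic_of_isIntegral_coeff hQm hdeg
      (by rw [hev]; exact isIntegral_zero) hp
  app := App.root (fun i => (hqd i).le) (fun l => (hq l).app) hxg hx hd hy hε hxy

end WM13

/-- ROW WM14. **Motions from coordinates which are henselian functions of `δ`.** -/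
theorem Mot.of_GS {k : Type u} [Field k] {Ω : Type u} [Field Ω] [Algebra k Ω] {v : RVal Ω}
    [IsAlgClosed Ω] (h : Ctx0 k v) {K₀ : IntermediateField k Ω} {n r : ℕ}
    {s : Fin n → Ω} (hai : AlgebraicIndependent k s) (hpos : ∀ j, VPos v (s j))
    (hΩ : ∀ g : Ω, IsAlgebraic (IntermediateField.adjoin k (Set.range s)) g)
    (hsK : ∀ j, s j ∈ K₀)
    (hs : hen v K₀ = hen v (IntermediateField.adjoin k (Set.range s)))
    (hK : ∀ e ∈ K₀, InFrac (hensA v (lv v (LUC.adj (algebraMap k Ω).range (Set.range s)))) e)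
    {δ : ℕ → Ω} {ρ : ℝ} (hsq : WM13.Sq v δ ρ)
    (s' : ℕ → Fin n → Ω) (J : ℕ → Fin n → Fin n → Ω)
    (hJ : ∀ i a b, J i a b ∈ hensA v (lv v (LUC.adj (algebraMap k Ω).range (Set.range s))))
    (hd0 : ∀ i, (Matrix.of (J i)).det ≠ 0) (hdv : ∀ i, v (Matrix.of (J i)).det = 0)
    (hs' : ∀ i j, IP (hensA v (lv v (LUC.adj (algebraMap k Ω).range (Set.range s)))) s 2
      (s' i j - ∑ l, J i j l * s l))
    {ε : ℝ} (hε : 0 < ε) (hs'ε : ∀ i j, v.Ge ε (s' i j))
    (hGS : ∀ j, WM13.GS hsq (fun i => s' i j))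
    (hmov : ∃ P : MvPolynomial (Fin n) k, ∃ a m, m ≠ 0 ∧ WM12.LTp v δ s' P a m)
    (x : Fin r → Fin n)
    (hx : ∀ l, ∀ᶠ i in atTop, Gt v (v (s (x l))) (s' i (x l) - s (x l)))
    (hval : ∀ g : Ω, g ≠ 0 → v g ∈ Submodule.span ℚ (Set.range fun l => v (s (x l)))) :
    ∃ φ : ℕ → (Ω ≃ₐ[k] Ω), (∀ i j, φ i (s j) = s' i j) ∧
      (∀ i f, φ i f ∈ hensA v (lv v (LUC.adj (algebraMap k Ω).range (Set.range s))) ↔
        f ∈ hensA v (lv v (LUC.adj (algebraMap k Ω).range (Set.range s)))) ∧
      Mot v K₀ φ δ ρ := by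
  have hai' : ∀ i, AlgebraicIndependent k (s' i) := fun i =>
    (jac_motion h hai hpos hΩ (J i) (hJ i) (hd0 i) (hdv i) (hs' i)).1
  exact Mot.of_coord h hai hpos hΩ hsK hs hK hsq.ne hsq.lim hsq.irr s' J hJ hd0 hdv hs' hε hs'ε
    (fun P hP => WM13.ltp_of_approx h hsq hai' (fun j => (hGS j).alg) (fun j => (hGS j).app) P hP)
    hmov x hx hval

end Pool.Agent.TW
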