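import Pool.Agent.Lib.TWW.WM10
import Pool.Agent.Lib.TWJ.ALL

/-!
# TANK W, row WM15: dimension four from the motions for `(r, n) = (1, 4)`
-/

set_option autoImplicit false

namespace Pool.Agent.TW

open Pool.Agent.H15JM (RVal)
open Pool.Agent.LU1 (VPos adj)
open Pool.Agent.LUC (Cl LUs)
open Pool.Agent.D2P (hen mem_adj_self)

universe u

section

variable {k Ω : Type u} [Field k] [Field Ω] [Algebra k Ω] {v : RVal Ω} {r : ℕ}

/-- In dimension `r + 2` the critical step is henselian rational. -/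
theorem mobQ0_two [IsAlgClosed Ω] [IsAlgClosed k] (p : ℕ) [Fact p.Prime] [CharP k p]
    [CharP Ω p] (h : Ctx k v r) : MobQ0 p v k r (r + 2) := by
  intro K₀ hK hΩ htr _ _ _ _ g _ hg hBDg
  left
  have hp : 0 < p := (Fact.out : p.Prime).pos
  have htg : Algebra.trdeg k (adj K₀ g) = (r + 2 : ℕ) := by
    refine (trdeg_eq_of_alg (mem_adj_self K₀ g).2 (D2P.isAlgebraic_sup {g} ?_)).trans htr
    rintro s rfl
    exact D2P.isAlgebraic_of_pow hp (D2P.isAlgebraic_of_mem hg)
  have hΩg : ∀ f : Ω, IsAlgebraic (adj K₀ g) f := isAlgebraic_of_trdeg_eq htg htr hΩ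
  exact TWJ.hrone_two_bd p h (D2P.fg_adj hK g) (full_of_alg hΩg) htg hBDg

end

/-- DIMENSION FOUR: all the real valuations with residue field `k`, given the motions in rational
rank one and dimension four. -/
theorem lus_four_of_mob {k : Type u} [Field k] [IsAlgClosed k] (p : ℕ) [Fact p.Prime] [CharP k p]
    (hMob : ∀ (Ω : Type u) [Field Ω] [Algebra k Ω] [IsAlgClosed Ω] [CharP Ω p] (v : RVal Ω),
      Ctx k v 1 → MobQ0 p v k 1 4)
    (Ω : Type u) [Field Ω] [Algebra k Ω] [IsAlgClosed Ω] [CharP Ω p] (v : RVal Ω) (r : ℕ)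
    (h : Ctx k v r) (E : IntermediateField k Ω) (hE : E.FG) (hΩ : ∀ g : Ω, IsAlgebraic E g)
    (htr : Algebra.trdeg k E ≤ 4) : LUs v (algebraMap k Ω).range E.toSubfield := by
  obtain ⟨n, hn⟩ := Cardinal.lt_aleph0.1 (htr.trans_lt (Cardinal.natCast_lt_aleph0 (n := 4)))
  have hn4 : n ≤ 4 := by
    rw [hn] at htr
    exact_mod_cast htr
  refine lus_of_mob p 4 ?_ Ω v r n h hn4 E hE hΩ hn (Or.inr (Or.inr hn4))
  intro Ω' _ _ _ _ v' r' n' h' h1 h2
  have hrpos := h'.rpos
  by_cases h3 : n' = r' + 2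
  · subst h3
    exact mobQ0_two p h'
  · obtain rfl : r' = 1 := by omega
    obtain rfl : n' = 4 := by omega
    exact hMob Ω' v' h'

end Pool.Agent.TW
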