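import Pool.Agent.Lib.TWW.WM1
import Pool.Agent.Lib.TWW.Defs

/-!
# TANK W, row WM2: henselian rationality from one family of motions
-/

set_option autoImplicit false

open Polynomial Filter Topology

namespace Pool.Agent.TW

open Pool.Agent.H15JM (RVal)
open Pool.Agent.LUC (LUs)
open Pool.Agent.D2P (hen)
open Pool.Agent.TWM (Gt)

universe u

variable {k Ω : Type u} [Field k] [Field Ω] [Algebra k Ω] {v : RVal Ω} {r : ℕ}

/-- An element whose leading term is itself keeps its value. -/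
theorem LT.val_self {δ : ℕ → Ω} {φ : ℕ → (Ω ≃ₐ[k] Ω)} {e : Ω} (he : LT v δ φ e e 0) :
    ∀ᶠ i in atTop, v (φ i e) = v e := by
  obtain ⟨he0, h⟩ := he
  filter_upwards [h] with i hi
  rw [zpow_zero, mul_one, Int.cast_zero, zero_mul, add_zero] at hi
  by_cases h0 : φ i e - e = 0
  · rw [sub_eq_zero.1 h0]
  · have h1 := hi h0
    have h2 : φ i e = e + (φ i e - e) := by ring
    rw [h2]
    exact (v.add_of_lt he0 h0 h1).2

/-- ROW WM2 for a given limit valuation. -/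
theorem hrone_of_mot_aux [IsAlgClosed Ω] [IsAlgClosed k] (p : ℕ) [Fact p.Prime] [CharP k p]
    [CharP Ω p] (h : Ctx k v r) {D : ℕ} {E : IntermediateField k Ω} (hE : E.FG)
    (htr : Algebra.trdeg k E = (r + (D + 1) : ℕ))
    {φ : ℕ → (Ω ≃ₐ[k] Ω)} {δ : ℕ → Ω} {ρ : ℝ} (hM : Mot v E φ δ ρ) {W : RVal Ω}
    (hW : ∀ c : k, c ≠ 0 → W (algebraMap k Ω c) = 0)
    (hnear : ∀ U : Finset Ω, (∀ f ∈ U, f ∈ E ∧ f ≠ 0) →
      ∀ᶠ i in atTop, ∀ f ∈ U, (0 < W f → 0 < v (φ i f)) ∧ (W f = 0 → v (φ i f) = 0))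
    (hLU : LUs W (algebraMap k Ω).range E.toSubfield) :
    HRone v E := by
  classical
  obtain ⟨X, hX, hXi, -⟩ := h.rank
  choose m hm x hxE hx0 hxLT hxv using fun i => hM.full (X i) (hX i)
  refine hrone_of_near p h hE htr hW hLU (x := x) (fun i => ⟨hxE i, hx0 i⟩) fun U hU => ?_
  have h1 : ∀ᶠ j in atTop, ∀ i, v (φ j (x i)) = v (x i) :=
    eventually_all.2 fun i => (hxLT i).val_self
  obtain ⟨j, hj1, hj2⟩ := (h1.and (hnear U hU)).exists
  refine ⟨φ j, hM.hen_eq j, ?_, hj2⟩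
  have h2 : (fun i => v (φ j (x i))) = fun i => ((m i : ℚ)) • v (X i) := by
    funext i
    rw [hj1 i, hxv i, Rat.smul_def]
    push_cast
    rfl
  rw [h2]
  have h3 := hXi.units_smul fun i => Units.mk0 (m i : ℚ) (by exact_mod_cast (hm i).ne')
  exact h3

end Pool.Agent.TW
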