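import Pool.Agent.Lib.TWW.WM0
import Pool.Agent.Lib.TWW.WM2

/-!
# TANK W, row WM2: `HRone` from motions
-/

set_option autoImplicit false

open Polynomial Filter Topology

namespace Pool.Agent.TW

open Pool.Agent.H15JM (RVal)
open Pool.Agent.LUC (LUs)

universe u

variable {k Ω : Type u} [Field k] [Field Ω] [Algebra k Ω] {v : RVal Ω} {r : ℕ}

/-- ROW WM2. `WM0` + `WM1`. -/
theorem hrone_of_mot [IsAlgClosed Ω] [IsAlgClosed k] (p : ℕ) [Fact p.Prime] [CharP k p]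
    [CharP Ω p] (h : Ctx k v r) {D : ℕ} {E : IntermediateField k Ω} (hE : E.FG)
    (hΩ : ∀ g : Ω, IsAlgebraic E g) (htr : Algebra.trdeg k E = (r + (D + 1) : ℕ))
    {φ : ℕ → (Ω ≃ₐ[k] Ω)} {δ : ℕ → Ω} {ρ : ℝ} (hM : Mot v E φ δ ρ)
    (hLU : ∀ W : RVal Ω, Ctx k W (r + 1) → LUs W (algebraMap k Ω).range E.toSubfield) :
    HRone v E := by
  obtain ⟨W, hcW, hnear⟩ := exists_limval h hΩ hM
  exact hrone_of_mot_aux p h hE htr hM hcW.triv hnear (hLU W hcW)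

end Pool.Agent.TW
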