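import Pool.Agent.Lib.TWW.Defs
import Pool.Agent.Lib.TWG.G7

/-!
# TANK W, skeleton M, row WM4: the condition `hen_eq` from coordinates
-/

set_option autoImplicit false

open Polynomial Filter Topology

namespace Pool.Agent.TW

open Pool.Agent.H15JM (RVal)
open Pool.Agent.LU1 (VPos adj)
open Pool.Agent.LUC (Cl LUs lv le_lv lv_le lv_nonneg base_le_adj mem_adj)
open Pool.Agent.D2 (Ctx0)
open Pool.Agent.D2P (hen hen_le hen_hen le_hen)

universe u

variable {k Ω : Type u} [Field k] [Field Ω] [Algebra k Ω] {v : RVal Ω}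

/-- The henselization of `k[s]` is in the one of `k(s)`. -/
theorem hensA_le_hen [IsAlgClosed Ω] (h : Ctx0 k v) {n : ℕ} {s : Fin n → Ω}
    (hpos : ∀ j, v.Ge 0 (s j)) :
    ∀ f ∈ hensA v (lv v (LUC.adj (algebraMap k Ω).range (Set.range s))),
      f ∈ hen v (IntermediateField.adjoin k (Set.range s)) := by
  have hC := H2aux.hclosed_OV_hen h (IntermediateField.adjoin k (Set.range s))
  have h1 : LUC.adj (algebraMap k Ω).range (Set.range s) ≤
      OV v (hen v (IntermediateField.adjoin k (Set.range s))) := by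
    refine LUC.adj_le ?_ ?_
    · rintro _ ⟨c, rfl⟩
      exact ⟨(hen v _).algebraMap_mem c, h.ge c⟩
    · rintro _ ⟨i, rfl⟩
      exact ⟨le_hen _ (IntermediateField.subset_adjoin k _ ⟨i, rfl⟩), hpos i⟩
  intro f hf
  exact (hensA_le (lv_le h1 hC.inv) hC hf).1

/-- ROW WM4. -/
theorem hen_map_coord [IsAlgClosed Ω] (h : Ctx0 k v) {K₀ : IntermediateField k Ω} {n : ℕ}
    {s : Fin n → Ω} (hpos : ∀ j, v.Ge 0 (s j)) (hsK : ∀ j, s j ∈ K₀)
    (hs : hen v K₀ = hen v (IntermediateField.adjoin k (Set.range s)))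
    {φ : Ω ≃ₐ[k] Ω}
    (hφ : ∀ f, φ f ∈ hensA v (lv v (LUC.adj (algebraMap k Ω).range (Set.range s))) ↔
      f ∈ hensA v (lv v (LUC.adj (algebraMap k Ω).range (Set.range s))))
    (hK : ∀ e ∈ K₀, InFrac (hensA v (lv v (LUC.adj (algebraMap k Ω).range (Set.range s)))) e)
    (hs' : hen v (IntermediateField.adjoin k (Set.range (φ ∘ s))) =
      hen v (IntermediateField.adjoin k (Set.range s))) :
    hen v (K₀.map (φ : Ω →ₐ[k] Ω)) = hen v K₀ := by
  have hle := hensA_le_hen h hpos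
  apply le_antisymm
  · refine hen_le (hen_hen K₀) ?_
    rintro _ ⟨e, he, rfl⟩
    obtain ⟨a, ha, b, hb, -, rfl⟩ := hK e he
    rw [hs]
    change φ (a / b) ∈ _
    rw [map_div₀]
    exact div_mem (hle _ ((hφ a).2 ha)) (hle _ ((hφ b).2 hb))
  · rw [hs, ← hs']
    refine hen_le (hen_hen _) ?_
    rw [IntermediateField.adjoin_le_iff]
    rintro _ ⟨j, rfl⟩
    exact le_hen _ ⟨s j, hsK j, rfl⟩

end Pool.Agent.TW
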