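import Pool.Agent.Lib.TWW.WM6

/-!
# TANK W, skeleton M: row WM7, motions over a field with one variable
-/

set_option autoImplicit false

open Polynomial Filter Topology

namespace Pool.Agent.TW

open Pool.Agent.H15JM (RVal)
open Pool.Agent.LU1 (adj)
open Pool.Agent.D2 (Ctx0)
open Pool.Agent.TWM (Gt)

universe u

variable {k Ω : Type u} [Field k] [Field Ω] [Algebra k Ω] {v : RVal Ω}

/-- The polynomials over `L`. -/
theorem lt_of_shift_poly {L : IntermediateField k Ω} {z : Ω} {δ : ℕ → Ω} {ρ : ℝ}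
    (hδ : ∀ i, δ i ≠ 0) (hlim : Tendsto (fun i => v (δ i)) atTop (𝓝 ρ))
    (hirr : ∀ (m : ℤ) (f : Ω), m ≠ 0 → f ≠ 0 → v f ≠ m * ρ) {φ : ℕ → (Ω ≃ₐ[k] Ω)}
    (hφL : ∀ i, ∀ a ∈ L, φ i a = a) (hφz : ∀ i, φ i z = z + δ i) {P : Polynomial L}
    (hP : aeval z P ≠ 0) : ∃ a m, LT v δ φ (aeval z P) a m := by
  have hF0 : taylor z (P.map (algebraMap L Ω)) ≠ 0 := by
    intro h0
    have h1 : P.map (algebraMap L Ω) = 0 := by
      apply Polynomial.taylor_injective z
      rw [h0, map_zero]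
    apply hP
    rw [← Polynomial.eval_map_algebraMap, h1, Polynomial.eval_zero]
  obtain ⟨m, hm, hev⟩ := lt_poly hδ hlim hirr hF0
  refine ⟨_, (m : ℤ), hm, ?_⟩
  filter_upwards [hev] with i hi
  have h1 : φ i (aeval z P) = (taylor z (P.map (algebraMap L Ω))).eval (δ i) := by
    rw [Polynomial.taylor_eval, ← Polynomial.eval_map_algebraMap, Polynomial.eval_map,
      Polynomial.eval_map, Polynomial.eval₂_eq_sum, Polynomial.eval₂_eq_sum, Polynomial.sum_def,
      Polynomial.sum_def, map_sum]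
    refine Finset.sum_congr rfl fun j _ => ?_
    rw [map_mul, map_pow, hφz, add_comm z]
    congr 1
    exact hφL i _ (P.coeff j).2
  rw [h1, zpow_natCast]
  simpa using hi

/-- ROW WM7. Motions over a field `L` with one variable: `φ i z = z + δ i`. -/
theorem lt_of_shift [IsAlgClosed Ω] (_h : Ctx0 k v) {L : IntermediateField k Ω} {z : Ω}
    (_hz : Transcendental L z) {δ : ℕ → Ω} {ρ : ℝ} (hδ : ∀ i, δ i ≠ 0)
    (hlim : Tendsto (fun i => v (δ i)) atTop (𝓝 ρ))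
    (hirr : ∀ (m : ℤ) (f : Ω), m ≠ 0 → f ≠ 0 → v f ≠ m * ρ) {φ : ℕ → (Ω ≃ₐ[k] Ω)}
    (hφL : ∀ i, ∀ a ∈ L, φ i a = a) (hφz : ∀ i, φ i z = z + δ i) :
    ∀ e ∈ adj L z, e ≠ 0 → ∃ a m, LT v δ φ e a m := by
  intro e he he0
  have h1 : adj L z ≤ (IntermediateField.adjoin L {z}).restrictScalars k := by
    refine sup_le ?_ ?_
    · intro y hy
      exact (IntermediateField.adjoin L {z}).algebraMap_mem ⟨y, hy⟩
    · rw [IntermediateField.adjoin_le_iff]
      rintro y hy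
      rw [Set.mem_singleton_iff.1 hy]
      exact IntermediateField.mem_adjoin_simple_self L z
  obtain ⟨P, Q, hPQ⟩ := (IntermediateField.mem_adjoin_simple_iff L e).1 (h1 he)
  have hQ : aeval z Q ≠ 0 := by
    intro h0
    rw [h0, div_zero] at hPQ
    exact he0 hPQ
  have hP : aeval z P ≠ 0 := by
    intro h0
    rw [h0, zero_div] at hPQ
    exact he0 hPQ
  obtain ⟨a, m, ha⟩ := lt_of_shift_poly hδ hlim hirr hφL hφz hP
  obtain ⟨b, l, hb⟩ := lt_of_shift_poly hδ hlim hirr hφL hφz hQ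
  refine ⟨a * b⁻¹, m + -l, ?_⟩
  rw [hPQ, div_eq_mul_inv]
  exact ha.mul hδ (hb.inv hδ)

end Pool.Agent.TW
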