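import Pool.Agent.Lib.TWW.WM2b
import Pool.Agent.Lib.TWW.WM3
import Pool.Agent.Lib.TW.T1fg
import Pool.Agent.Lib.TW.HRLU
import Pool.Agent.Lib.TW.LUBD
import Pool.Agent.Lib.TWN.Fin2a

/-!
# TANK W, row WM9: henselian rationality in one dimension from motions
-/

set_option autoImplicit false

open Polynomial Filter Topology

namespace Pool.Agent.TW

open Pool.Agent.H15JM (RVal)
open Pool.Agent.LU1 (VPos adj)
open Pool.Agent.LUC (Cl LUs lv)
open Pool.Agent.D2 (Ctx0)
open Pool.Agent.D2P (hen mem_adj_self)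

universe u

variable {k Ω : Type u} [Field k] [Field Ω] [Algebra k Ω] {v : RVal Ω} {r : ℕ}

/-- `LU` for the fields with `HRone`, in dimension `m + 1`. -/
theorem lu_of_hr [IsAlgClosed Ω] [IsAlgClosed k] (p : ℕ) [Fact p.Prime] [CharP k p]
    [CharP Ω p] (h : Ctx k v r) {m : ℕ} (hlow : LUB p v k r m) {K : IntermediateField k Ω}
    (hK : K.FG) (hfull : Full v K) (htr : Algebra.trdeg k K = (m + 1 : ℕ)) (hBD : BD p v K)
    (hHR : HRone v K) : LU p v r K :=
  LU_of_HRone p h hK hfull hBD (n := m) htr hlow hHR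

/-- `LUs` for the fields with `HRone`, in dimension `r + (D + 1)`. -/
theorem lus_of_hr [IsAlgClosed Ω] [IsAlgClosed k] (p : ℕ) [Fact p.Prime] [CharP k p]
    [CharP Ω p] (h : Ctx k v r) {D : ℕ} (hlow : LUB p v k r (r + D)) {K : IntermediateField k Ω}
    (hK : K.FG) (hfull : Full v K) (htr : Algebra.trdeg k K = (r + (D + 1) : ℕ))
    (hBD : BD p v K) (hHR : HRone v K) (hΩ : ∀ g : Ω, IsAlgebraic K g) :
    LUs v (algebraMap k Ω).range K.toSubfield := by
  refine LU.lus_of p h hK htr (lu_of_hr p h hlow hK hfull htr hBD hHR) (fun F hF => ?_) hΩ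
  have hh : hen v K = hen v F.K := hF.hen_eq p h
  refine lu_of_hr p h hlow (Est.fg_K F) (Est.full_K h F) (Est.trdeg_K F)
    (hBD.congr p (Est.fg_K F) hh) ?_
  obtain ⟨N, z, h1, h2, h3, h4⟩ := hHR
  exact ⟨N, z, h1, h2, h3, by rw [← hh, h4]⟩

/-- `Ω` is algebraic over the subfields of the same finite transcendence degree. -/
theorem isAlgebraic_of_trdeg_eq {K₀ E : IntermediateField k Ω} {n : ℕ}
    (htK : Algebra.trdeg k K₀ = n) (htE : Algebra.trdeg k E = n)
    (hΩ : ∀ g : Ω, IsAlgebraic E g) (f : Ω) : IsAlgebraic K₀ f := by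
  have h1 : Algebra.IsAlgebraic E Ω := ⟨hΩ⟩
  have h2 := trdeg_add_eq k E (A := Ω)
  have h3 := trdeg_add_eq k K₀ (A := Ω)
  rw [trdeg_eq_zero (R := E) (A := Ω), add_zero, htE] at h2
  rw [htK, ← h2] at h3
  have h4 : Algebra.trdeg K₀ Ω = 0 :=
    Cardinal.eq_of_add_eq_add_left (h3.trans (add_zero _).symm) Cardinal.natCast_lt_aleph0
  exact (trdeg_eq_zero_iff.1 h4).isAlgebraic f

/-- ROW WM9. One dimension `n` and rank `r`: the fields of the same dimension and of rational rank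
`r + 1` are given. -/
theorem lub_of_mob [IsAlgClosed Ω] [IsAlgClosed k] (p : ℕ) [Fact p.Prime] [CharP k p]
    [CharP Ω p] (h : Ctx k v r) {n : ℕ} (hn : r + 2 ≤ n) (hMob : MobQ0 p v k r n)
    (hlow : ∀ m, m < n → LUB p v k r m)
    (hW : ∀ W : RVal Ω, Ctx k W (r + 1) → ∀ E : IntermediateField k Ω, E.FG →
      (∀ g : Ω, IsAlgebraic E g) → Algebra.trdeg k E = n →
      LUs W (algebraMap k Ω).range E.toSubfield)
    {E : IntermediateField k Ω} (hE : E.FG) (hΩ : ∀ g : Ω, IsAlgebraic E g)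
    (htr : Algebra.trdeg k E = n) (hBD : BD p v E) : HRone v E ∧ LU p v r E := by
  have hp : 0 < p := (Fact.out : p.Prime).pos
  obtain ⟨D, rfl⟩ : ∃ D, n = r + (D + 1) := ⟨n - (r + 1), by omega⟩
  have hlow' : LUB p v k r (r + D) := hlow (r + D) (by omega)
  have hfull : Full v E := full_of_alg hΩ
  obtain ⟨L₀, hL₀E, hL₀fg, hL₀F, hL₀n⟩ :=
    exists_corank_one (n := r + D) h (by omega) E hfull htr
  have hHR : HRone v E := by
    refine hrone_of_corank' p h E hE hfull htr hBD L₀ hL₀E hL₀fg hL₀F hL₀n ?_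
    intro K₀ _ hKE hK hfK htK hBDK hHRK g hgE hg hBDg
    by_cases hgK : g ∈ K₀
    · have h1 : adj K₀ g = K₀ := le_antisymm
        (D2P.adj_le le_rfl hgK) (mem_adj_self K₀ g).2
      rwa [h1]
    have hΩK : ∀ f : Ω, IsAlgebraic K₀ f := isAlgebraic_of_trdeg_eq htK htr hΩ
    rcases hMob K₀ hK hΩK htK hBDK hHRK
      (lus_of_hr p h hlow' hK hfK htK hBDK hHRK hΩK) hlow g hgK hg hBDg with h1 | h1
    · exact h1
    · obtain ⟨φ, δ, ρ, hM, hroot⟩ := h1
      choose δ' hδ' using fun i => IsAlgClosed.exists_pow_nat_eq (δ i) hp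
      have hM' := Mot.root p h.toCtx0 hM hδ' hg hroot
      have htg : Algebra.trdeg k (adj K₀ g) = (r + (D + 1) : ℕ) := by
        refine (trdeg_eq_of_alg (mem_adj_self K₀ g).2 (D2P.isAlgebraic_sup {g} ?_)).trans htK
        rintro s rfl
        exact D2P.isAlgebraic_of_pow hp (D2P.isAlgebraic_of_mem hg)
      have hΩg : ∀ f : Ω, IsAlgebraic (adj K₀ g) f := isAlgebraic_of_trdeg_eq htg htr hΩ
      exact hrone_of_mot p h (D2P.fg_adj hK g) hΩg htg hM' fun W hcW =>
        hW W hcW (adj K₀ g) (D2P.fg_adj hK g) hΩg htg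
  exact ⟨hHR, lu_of_hr p h hlow' hE hfull htr hBD hHR⟩

end Pool.Agent.TW
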